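import Pool.Agent.W_7d29a1_SP.DefsSP2
import Pool.Agent.W_7d29a1_Q29.Poly85

/-!
Superpolylogarithmic variance: elementary facts about the two fluctuations (helper15).
-/

namespace Pool.Agent.W_7d29a1_SP

open MeasureTheory ProbabilityTheory Filter Topology Pool.Agent.W_MP_7d29a1_pr
  Pool.Agent.W_7d29a1_h46 Pool.Agent.W_7d29a1_h46u Pool.Agent.W_7d29a1_D2.B35
  Pool.Agent.W_7d29a1_Q29 Pool.Agent.W_7d29a1_R34

variable {d : ℕ} {ρ : Measure ℝ} [IsProbabilityMeasure ρ]

lemma A_zero15 (β : ℝ) (h : Vec d) : A ρ β h 0 = 0 := by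
  unfold A
  have h1 : ∀ η : Env d, X β h η 0 = 0 := by
    intro η
    unfold X
    rw [Z_zero, Real.log_one]
  simp [h1]

lemma En_zero15 (β : ℝ) (h : Vec d) : En ρ β h 0 = 0 := by
  unfold En
  rw [A_zero15]
  simp

lemma En_nonneg15 (hd : 0 < d) (hρ : EM ρ) (β : ℝ) (h : Vec d) (n : ℕ) : 0 ≤ En ρ β h n := by
  unfold En
  have := A_le_lam hd hρ β h n
  linarith

lemma En_add15 (hd : 0 < d) (hρ : EM ρ) (β : ℝ) (h : Vec d) (a b : ℕ) :
    En ρ β h (a + b) ≤ En ρ β h a + En ρ β h b := by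
  unfold En
  have := A_add_le hd hρ β h a b
  push_cast
  linarith

lemma Fn_nonneg15 (β : ℝ) (h : Vec d) (n : ℕ) : 0 ≤ Fn ρ β h n :=
  integral_nonneg fun _ => abs_nonneg _

lemma Fn_zero15 (β : ℝ) (h : Vec d) : Fn ρ β h 0 = 0 := by
  unfold Fn
  have h1 : ∀ η : Env d, X β h η 0 = 0 := by
    intro η
    unfold X
    rw [Z_zero, Real.log_one]
  simp [h1, A_zero15]

lemma intX15 (hd : 0 < d) (hρ : EM ρ) (β : ℝ) (h : Vec d) (n : ℕ) :
    Integrable (fun η => X β h η n - A ρ β h n) (law d ρ) :=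
  (concU hd hρ β h n).1.sub (integrable_const _)

lemma mean15 (hd : 0 < d) (hρ : EM ρ) (β : ℝ) (h : Vec d) (n : ℕ) :
    ∫ η, (X β h η n - A ρ β h n) ∂(law d ρ) = 0 := by
  rw [integral_sub (concU hd hρ β h n).1 (integrable_const _)]
  simp [A]

lemma Fn_sq15 (hd : 0 < d) (hρ : EM ρ) (β : ℝ) (h : Vec d) (n : ℕ) :
    Fn ρ β h n ^ 2 ≤ Va ρ β h n := by
  have h1 := (intX15 (ρ := ρ) hd hρ β h n).abs
  have h2 := N85.Va_int (ρ := ρ) hd hρ β h n
  have h3 : 0 ≤ ∫ η, (|X β h η n - A ρ β h n| - Fn ρ β h n) ^ 2 ∂(law d ρ) :=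
    integral_nonneg fun _ => sq_nonneg _
  have h4 : ∀ η : Env d, (|X β h η n - A ρ β h n| - Fn ρ β h n) ^ 2 =
      (X β h η n - A ρ β h n) ^ 2 - 2 * Fn ρ β h n * |X β h η n - A ρ β h n| +
        Fn ρ β h n ^ 2 := by
    intro η
    rw [← sq_abs (X β h η n - A ρ β h n)]
    ring
  simp only [h4] at h3
  have e1 : ∫ η, ((X β h η n - A ρ β h n) ^ 2 -
      2 * Fn ρ β h n * |X β h η n - A ρ β h n| + Fn ρ β h n ^ 2) ∂(law d ρ) =
      ∫ η, ((X β h η n - A ρ β h n) ^ 2 - 2 * Fn ρ β h n * |X β h η n - A ρ β h n|)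
        ∂(law d ρ) + ∫ _, Fn ρ β h n ^ 2 ∂(law d ρ) :=
    integral_add (h2.sub (h1.const_mul _)) (integrable_const _)
  have e2 : ∫ η, ((X β h η n - A ρ β h n) ^ 2 - 2 * Fn ρ β h n * |X β h η n - A ρ β h n|)
        ∂(law d ρ) = ∫ η, (X β h η n - A ρ β h n) ^ 2 ∂(law d ρ) -
      2 * Fn ρ β h n * ∫ η, |X β h η n - A ρ β h n| ∂(law d ρ) := by
    rw [← integral_const_mul]
    exact integral_sub h2 (h1.const_mul _)
  rw [e1, e2] at h3
  have h5 : ∫ η, |X β h η n - A ρ β h n| ∂(law d ρ) = Fn ρ β h n := rfl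
  have h6 : ∫ η, (X β h η n - A ρ β h n) ^ 2 ∂(law d ρ) = Va ρ β h n := rfl
  rw [h5, h6] at h3
  simp only [integral_const, probReal_univ, one_smul] at h3
  nlinarith

/-- Cauchy-Schwarz on an event. -/
lemma cs15 {Ω : Type*} [MeasurableSpace Ω] {μ : Measure Ω} [IsProbabilityMeasure μ] {Y : Ω → ℝ}
    (hY : Measurable Y) (h2 : Integrable (fun w => Y w ^ 2) μ) (h1 : Integrable Y μ) {S : Set Ω}
    (hS : MeasurableSet S) {a : ℝ} (ha : 0 ≤ a) (h : a ≤ ∫ w in S, Y w ∂μ) :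
    a ^ 2 ≤ (∫ w, Y w ^ 2 ∂μ) * μ.real S := by
  set p := μ.real S with hp
  set V := ∫ w, Y w ^ 2 ∂μ with hV
  have hp0 : 0 ≤ p := measureReal_nonneg
  have hV0 : 0 ≤ V := integral_nonneg fun _ => sq_nonneg _
  -- for every `x`, `2 x a ≤ V + x ^ 2 p`
  have key : ∀ x : ℝ, 0 ≤ x → 2 * x * a ≤ V + x ^ 2 * p := by
    intro x hx
    have e1 : ∫ w in S, (2 * x * Y w) ∂μ ≤ ∫ w in S, (Y w ^ 2 + x ^ 2) ∂μ := by
      refine integral_mono ((h1.const_mul _).integrableOn)
        ((h2.add (integrable_const _)).integrableOn) fun w => ?_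
      nlinarith [sq_nonneg (Y w - x)]
    rw [integral_const_mul, integral_add h2.integrableOn (integrable_const _).integrableOn] at e1
    have e2 : ∫ w in S, Y w ^ 2 ∂μ ≤ V :=
      setIntegral_le_integral h2 (Eventually.of_forall fun _ => sq_nonneg _)
    have e3 : ∫ _ in S, x ^ 2 ∂μ = x ^ 2 * p := by
      rw [setIntegral_const, smul_eq_mul]
      ring
    rw [e3] at e1
    nlinarith [mul_le_mul_of_nonneg_left h (show 0 ≤ 2 * x by linarith)]
  rcases eq_or_lt_of_le hp0 with h0 | h0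
  · -- p = 0
    rw [← h0] at key ⊢
    by_contra hcon
    have ha' : 0 < a := by
      rcases eq_or_lt_of_le ha with h3 | h3
      · rw [← h3] at hcon
        simp at hcon
      · exact h3
    have := key ((V + 1) / a) (by positivity)
    rw [show 2 * ((V + 1) / a) * a = 2 * (V + 1) by field_simp] at this
    linarith
  · have := key (a / p) (by positivity)
    have e4 : 2 * (a / p) * a = 2 * (a ^ 2 / p) := by ring
    have e5 : (a / p) ^ 2 * p = a ^ 2 / p := by
      field_simp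
    rw [e4, e5] at this
    have e6 : a ^ 2 / p ≤ V := by linarith
    rwa [div_le_iff₀ h0] at e6

/-- Half of the first absolute moment on each side. -/
lemma half15 {Ω : Type*} [MeasurableSpace Ω] {μ : Measure Ω} [IsProbabilityMeasure μ] {Y : Ω → ℝ}
    (hY : Measurable Y) (h1 : Integrable Y μ) (h0 : ∫ w, Y w ∂μ = 0) {F : ℝ} (hF : 0 < F)
    (hF1 : ∫ w, |Y w| ∂μ = F) : 3 * F / 8 ≤ ∫ w in {w | F / 8 < Y w}, Y w ∂μ := by
  have hS : MeasurableSet {w | F / 8 < Y w} := measurableSet_lt measurable_const hY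
  have e1 : ∫ w, max (Y w) 0 ∂μ = F / 2 := by
    have e2 : ∀ w, max (Y w) 0 = 1 / 2 * |Y w| + 1 / 2 * Y w := by
      intro w
      rcases le_total 0 (Y w) with h3 | h3
      · rw [max_eq_left h3, abs_of_nonneg h3]
        ring
      · rw [max_eq_right h3, abs_of_nonpos h3]
        ring
    simp only [e2]
    rw [integral_add (h1.abs.const_mul _) (h1.const_mul _), integral_const_mul,
      integral_const_mul, hF1, h0]
    ring
  have e3 : ∫ w, max (Y w) 0 ∂μ ≤ ∫ w, (F / 8 + Set.indicator {w | F / 8 < Y w} Y w) ∂μ := by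
    refine integral_mono h1.pos_part ((integrable_const _).add (h1.indicator hS)) fun w => ?_
    show max (Y w) 0 ≤ F / 8 + Set.indicator {w | F / 8 < Y w} Y w
    by_cases hw : F / 8 < Y w
    · rw [Set.indicator_of_mem (show w ∈ {w | F / 8 < Y w} from hw)]
      rw [max_eq_left (by linarith)]
      linarith
    · rw [Set.indicator_of_notMem (show w ∉ {w | F / 8 < Y w} from hw), add_zero]
      exact max_le (not_lt.1 hw) (by linarith)
  rw [integral_add (integrable_const _) (h1.indicator hS), integral_indicator hS, e1] at e3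
  simp only [integral_const, probReal_univ, one_smul] at e3
  linarith

/-- The upper tail at `F / 8`. -/
lemma up15 (hd : 0 < d) (hρ : EM ρ) (β : ℝ) (h : Vec d) (n : ℕ) (hF : 0 < Fn ρ β h n) :
    9 * Fn ρ β h n ^ 2 / 64 ≤
      Va ρ β h n * (law d ρ).real {η | A ρ β h n + Fn ρ β h n / 8 < X β h η n} := by
  have hm : Measurable fun η => X β h η n - A ρ β h n := (measurable_X β h n).sub_const _
  have h1 := half15 (μ := law d ρ) hm (intX15 hd hρ β h n) (mean15 hd hρ β h n) hF rfl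
  have h2 := cs15 (μ := law d ρ) hm (N85.Va_int (ρ := ρ) hd hρ β h n) (intX15 hd hρ β h n)
    (S := {w | Fn ρ β h n / 8 < X β h w n - A ρ β h n})
    (measurableSet_lt measurable_const hm) (a := 3 * Fn ρ β h n / 8) (by positivity) h1
  have e1 : {w : Env d | Fn ρ β h n / 8 < X β h w n - A ρ β h n} =
      {η | A ρ β h n + Fn ρ β h n / 8 < X β h η n} := by
    ext w
    simp only [Set.mem_setOf_eq]
    constructor <;> intro h3 <;> linarith
  rw [e1] at h2
  have e2 : (3 * Fn ρ β h n / 8) ^ 2 = 9 * Fn ρ β h n ^ 2 / 64 := by ring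
  rw [e2] at h2
  exact h2

/-- The lower tail at `F / 8`. -/
lemma low15 (hd : 0 < d) (hρ : EM ρ) (β : ℝ) (h : Vec d) (n : ℕ) (hF : 0 < Fn ρ β h n) :
    9 * Fn ρ β h n ^ 2 / 64 ≤
      Va ρ β h n * (law d ρ).real {η | X β h η n ≤ A ρ β h n - Fn ρ β h n / 8} := by
  have hm : Measurable fun η => -(X β h η n - A ρ β h n) :=
    ((measurable_X β h n).sub_const _).neg
  have hi := (intX15 (ρ := ρ) hd hρ β h n).neg
  have h0 : ∫ η, -(X β h η n - A ρ β h n) ∂(law d ρ) = 0 := by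
    rw [integral_neg, mean15 hd hρ β h n, neg_zero]
  have hF1 : ∫ η, |(-(X β h η n - A ρ β h n))| ∂(law d ρ) = Fn ρ β h n := by
    simp only [abs_neg]
    rfl
  have h1 := half15 (μ := law d ρ) hm hi h0 hF hF1
  have hsq : ∀ η : Env d, (-(X β h η n - A ρ β h n)) ^ 2 = (X β h η n - A ρ β h n) ^ 2 := by
    intro η
    ring
  have h2 := cs15 (μ := law d ρ) hm (by
      simp only [hsq]
      exact N85.Va_int (ρ := ρ) hd hρ β h n) hi
    (S := {w | Fn ρ β h n / 8 < -(X β h w n - A ρ β h n)})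
    (measurableSet_lt measurable_const hm) (a := 3 * Fn ρ β h n / 8) (by positivity) h1
  simp only [hsq] at h2
  have e1 : (law d ρ).real {w : Env d | Fn ρ β h n / 8 < -(X β h w n - A ρ β h n)} ≤
      (law d ρ).real {η | X β h η n ≤ A ρ β h n - Fn ρ β h n / 8} := by
    refine measureReal_mono fun w hw => ?_
    simp only [Set.mem_setOf_eq] at hw ⊢
    linarith
  have e2 : (3 * Fn ρ β h n / 8) ^ 2 = 9 * Fn ρ β h n ^ 2 / 64 := by ring
  rw [e2] at h2
  refine h2.trans ?_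
  exact mul_le_mul_of_nonneg_left e1 (integral_nonneg fun _ => sq_nonneg _)

/-- Markov: the upper side. -/
lemma mk15 (hd : 0 < d) (hρ : EM ρ) (β : ℝ) (h : Vec d) (n : ℕ) {s : ℝ} (hs : 0 < s)
    (hF : 4 * Fn ρ β h n ≤ s) : 3 / 4 ≤ (law d ρ).real {η | X β h η n ≤ A ρ β h n + s} := by
  have hi := (intX15 (ρ := ρ) hd hρ β h n).abs
  have h1 := mul_meas_ge_le_integral_of_nonneg (μ := law d ρ)
    (Eventually.of_forall fun η => abs_nonneg (X β h η n - A ρ β h n)) hi s
  have h2 : ∫ η, |X β h η n - A ρ β h n| ∂(law d ρ) = Fn ρ β h n := rfl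
  rw [h2] at h1
  have h3 : (law d ρ).real {η | s ≤ |X β h η n - A ρ β h n|} ≤ 1 / 4 := by
    nlinarith
  have hm : MeasurableSet {η : Env d | X β h η n ≤ A ρ β h n + s} :=
    measurableSet_le (measurable_X β h n) measurable_const
  have h4 := probReal_compl_eq_one_sub (μ := law d ρ) hm
  have h5 : (law d ρ).real {η : Env d | X β h η n ≤ A ρ β h n + s}ᶜ ≤
      (law d ρ).real {η | s ≤ |X β h η n - A ρ β h n|} := by
    refine measureReal_mono fun w hw => ?_
    simp only [Set.mem_compl_iff, Set.mem_setOf_eq, not_le] at hw ⊢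
    exact le_trans (by linarith) (le_abs_self _)
  linarith

end Pool.Agent.W_7d29a1_SP
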