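import Pool.Agent.W_7d29a1_SP.DefsSP
import Pool.Agent.W_7d29a1_Q29.Qt98

/-!
Leaf CNT: counting in time (the polymer meets a lucky block at one of `N` localised times).
-/

set_option autoImplicit false

namespace Pool.Agent.W_7d29a1_SP.C79

open MeasureTheory ProbabilityTheory Filter Topology Pool.Agent.W_MP_7d29a1_pr
  Pool.Agent.W_7d29a1_h46 Pool.Agent.W_7d29a1_h46u Pool.Agent.W_7d29a1_D2.B35
  Pool.Agent.W_7d29a1_Q29 Pool.Agent.W_7d29a1_R34

variable {d : ℕ} {ρ : Measure ℝ}

/-- The site `y` carries a positive mass at the time `s`. -/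
def At (β : ℝ) (h : Vec d) (c₀ : ℝ) (s : ℕ) (y : Site d) : Set (Env d) :=
  {η | c₀ * Z β h η s ≤ PP β h η s y}

/-- The block from `(s, y)` is lucky. -/
def Lu (β : ℝ) (h : Vec d) (m : ℕ) (a : ℝ) (s : ℕ) (y : Site d) : Set (Env d) :=
  {η | a ≤ X β h (sh s y η) m}

/-- There is an atom at the time `s`. -/
def AS (β : ℝ) (h : Vec d) (c₀ : ℝ) (s : ℕ) : Set (Env d) :=
  {η | ∃ y ∈ boxF d s, c₀ * Z β h η s ≤ PP β h η s y}

/-- There is a lucky atom at the time `s`. -/
def LS (β : ℝ) (h : Vec d) (c₀ : ℝ) (m : ℕ) (a : ℝ) (s : ℕ) : Set (Env d) :=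
  {η | ∃ y ∈ boxF d s, η ∈ At β h c₀ s y ∧ η ∈ Lu β h m a s y}

/-- The indicator. -/
noncomputable def one (B : Set (Env d)) : Env d → ℝ := B.indicator fun _ => 1

lemma one_of {B : Set (Env d)} {η : Env d} (h : η ∈ B) : one B η = 1 := by
  unfold one
  rw [Set.indicator_of_mem h]

lemma one_not {B : Set (Env d)} {η : Env d} (h : η ∉ B) : one B η = 0 := by
  unfold one
  rw [Set.indicator_of_notMem h]

lemma one_nn (B : Set (Env d)) (η : Env d) : 0 ≤ one B η := by
  by_cases h : η ∈ B
  · rw [one_of h]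
    exact zero_le_one
  · rw [one_not h]

lemma one_le (B : Set (Env d)) (η : Env d) : one B η ≤ 1 := by
  by_cases h : η ∈ B
  · rw [one_of h]
  · rw [one_not h]
    exact zero_le_one

lemma one_abs (B : Set (Env d)) (η : Env d) : ‖one B η‖ ≤ 1 := by
  rw [Real.norm_eq_abs, abs_of_nonneg (one_nn B η)]
  exact one_le B η

lemma one_meas {B : Set (Env d)} (h : MeasurableSet B) : Measurable (one B) :=
  measurable_const.indicator h

lemma one_dep {B : Set (Env d)} {S : Set (ℕ × Site d)} (h : DependsOn (fun η => η ∈ B) S) :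
    DependsOn (one B) S := by
  intro η η' hη
  have h1 : (η ∈ B) = (η' ∈ B) := h hη
  by_cases h2 : η ∈ B
  · rw [one_of h2, one_of (h1 ▸ h2)]
  · rw [one_not h2, one_not (h1 ▸ h2)]

lemma one_inter (B C : Set (Env d)) (η : Env d) : one (B ∩ C) η = one B η * one C η := by
  by_cases h : η ∈ B
  · by_cases h' : η ∈ C
    · rw [one_of h, one_of h', one_of (B := B ∩ C) ⟨h, h'⟩, one_mul]
    · rw [one_not h', one_not (B := B ∩ C) (fun h => h' h.2), mul_zero]
  · rw [one_not h, one_not (B := B ∩ C) (fun h' => h h'.1), zero_mul]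

lemma one_int [IsProbabilityMeasure ρ] {B : Set (Env d)} (h : MeasurableSet B) :
    Integrable (one B) (law d ρ) := (integrable_const (1 : ℝ)).indicator h

lemma one_I [IsProbabilityMeasure ρ] {B : Set (Env d)} (h : MeasurableSet B) :
    ∫ η, one B η ∂(law d ρ) = (law d ρ).real B := by
  unfold one
  rw [integral_indicator_const _ h, smul_eq_mul, mul_one]

lemma mul_int [IsProbabilityMeasure ρ] {B : Set (Env d)} (h : MeasurableSet B) {f : Env d → ℝ}
    (hf : Integrable f (law d ρ)) : Integrable (fun η => one B η * f η) (law d ρ) :=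
  hf.bdd_mul (c := 1) (one_meas h).aestronglyMeasurable
    (Eventually.of_forall fun η => one_abs B η)

lemma At_meas (β : ℝ) (h : Vec d) (c₀ : ℝ) (s : ℕ) (y : Site d) :
    MeasurableSet (At β h c₀ s y) :=
  measurableSet_le ((measurable_Z β h s).const_mul c₀) (S98.measurable_PP β h s y)

lemma Lu_meas (β : ℝ) (h : Vec d) (m : ℕ) (a : ℝ) (s : ℕ) (y : Site d) :
    MeasurableSet (Lu β h m a s y) :=
  measurableSet_le measurable_const ((measurable_X β h m).comp (measurable_sh s y))

lemma AS_eq (β : ℝ) (h : Vec d) (c₀ : ℝ) (s : ℕ) :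
    AS β h c₀ s = ⋃ y ∈ boxF d s, At β h c₀ s y := by
  ext η
  simp only [AS, At, Set.mem_ofPred_eq, Set.mem_iUnion, exists_prop]

lemma AS_meas (β : ℝ) (h : Vec d) (c₀ : ℝ) (s : ℕ) : MeasurableSet (AS β h c₀ s) := by
  rw [AS_eq]
  exact Finset.measurableSet_biUnion _ fun y _ => At_meas β h c₀ s y

lemma LS_eq (β : ℝ) (h : Vec d) (c₀ : ℝ) (m : ℕ) (a : ℝ) (s : ℕ) :
    LS β h c₀ m a s = ⋃ y ∈ boxF d s, (At β h c₀ s y ∩ Lu β h m a s y) := by
  ext η
  simp only [LS, Set.mem_ofPred_eq, Set.mem_iUnion, exists_prop, Set.mem_inter_iff]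

lemma LS_meas (β : ℝ) (h : Vec d) (c₀ : ℝ) (m : ℕ) (a : ℝ) (s : ℕ) :
    MeasurableSet (LS β h c₀ m a s) := by
  rw [LS_eq]
  exact Finset.measurableSet_biUnion _ fun y _ =>
    (At_meas β h c₀ s y).inter (Lu_meas β h m a s y)

lemma At_dep (β : ℝ) (h : Vec d) (c₀ : ℝ) (s : ℕ) (y : Site d) :
    DependsOn (fun η => η ∈ At β h c₀ s y) (Pa d s) := by
  intro η η' hη
  have h1 : Z β h η s = Z β h η' s := S98.Z_dep β h s hη
  have h2 : PP β h η s y = PP β h η' s y := S98.PP_dep β h s y hη
  show (c₀ * Z β h η s ≤ PP β h η s y) = (c₀ * Z β h η' s ≤ PP β h η' s y)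
  rw [h1, h2]

lemma Lu_dep (β : ℝ) (h : Vec d) (m : ℕ) (a : ℝ) (s : ℕ) (y : Site d) :
    DependsOn (fun η => η ∈ Lu β h m a s y) (Pa d s)ᶜ := by
  intro η η' hη
  have h1 : X β h (sh s y η) m = X β h (sh s y η') m := FreeU_dep2 β h s m y hη
  show (a ≤ X β h (sh s y η) m) = (a ≤ X β h (sh s y η') m)
  rw [h1]

lemma Lu_dep2 (β : ℝ) (h : Vec d) (m : ℕ) (a : ℝ) (s : ℕ) (y : Site d) :
    DependsOn (fun η => η ∈ Lu β h m a s y) (Pa d (s + m)) := by
  intro η η' hη
  have h1 : Z β h (sh s y η) m = Z β h (sh s y η') m := by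
    refine dependsOn_Z β h m fun p hp => ?_
    refine hη (p.1 + s, p.2 + y) ?_
    have := hp.2
    change p.1 + s ≤ s + m
    omega
  show (a ≤ X β h (sh s y η) m) = (a ≤ X β h (sh s y η') m)
  unfold X
  rw [h1]

lemma LS_dep (β : ℝ) (h : Vec d) (c₀ : ℝ) (m : ℕ) (a : ℝ) (s : ℕ) :
    DependsOn (fun η => η ∈ LS β h c₀ m a s) (Pa d (s + m)) := by
  intro η η' hη
  have h1 : ∀ y, (η ∈ At β h c₀ s y) = (η' ∈ At β h c₀ s y) := fun y =>
    At_dep β h c₀ s y fun p hp => hη p (by
      change p.1 ≤ s + m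
      have : p.1 ≤ s := hp
      omega)
  have h2 : ∀ y, (η ∈ Lu β h m a s y) = (η' ∈ Lu β h m a s y) := fun y =>
    Lu_dep2 β h m a s y hη
  show (∃ y ∈ boxF d s, η ∈ At β h c₀ s y ∧ η ∈ Lu β h m a s y) =
    (∃ y ∈ boxF d s, η' ∈ At β h c₀ s y ∧ η' ∈ Lu β h m a s y)
  simp only [h1, h2]

lemma Lu_I [IsProbabilityMeasure ρ] (β : ℝ) (h : Vec d) (m : ℕ) (a : ℝ) (s : ℕ) (y : Site d) :
    ∫ η, one (Lu β h m a s y) η ∂(law d ρ) = (law d ρ).real {η | a ≤ X β h η m} := by
  rw [one_I (Lu_meas β h m a s y)]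
  have h1 := (mp_sh (ρ := ρ) s y).measure_preimage
    (measurableSet_le measurable_const (measurable_X β h m) :
      MeasurableSet {η : Env d | a ≤ X β h η m}).nullMeasurableSet
  unfold Measure.real
  rw [← h1]
  rfl

/-- At most `1 / c₀` atoms. -/
lemma atoms (hd : 0 < d) (β : ℝ) (h : Vec d) {c₀ : ℝ} (hc : 0 < c₀) (s : ℕ) (η : Env d) :
    ∑ y ∈ boxF d s, one (At β h c₀ s y) η ≤ 1 / c₀ := by
  have hZ := Z_pos hd β h η s
  have h1 : ∀ y ∈ boxF d s, one (At β h c₀ s y) η * (c₀ * Z β h η s) ≤ PP β h η s y := by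
    intro y _
    by_cases hy : η ∈ At β h c₀ s y
    · rw [one_of hy, one_mul]
      exact hy
    · rw [one_not hy, zero_mul]
      exact PP_nonneg β h η s y
  have h2 := Finset.sum_le_sum h1
  rw [← Finset.sum_mul, ← Z_eq_sum] at h2
  rw [le_div_iff₀ hc]
  have h3 : (∑ y ∈ boxF d s, one (At β h c₀ s y) η) * c₀ * Z β h η s ≤ 1 * Z β h η s := by
    rw [mul_assoc, one_mul]
    exact h2
  exact le_of_mul_le_mul_right h3 hZ

/-- The upper bound for a lucky atom. -/
lemma up79 [IsProbabilityMeasure ρ] (hd : 0 < d) (β : ℝ) (h : Vec d) (s m : ℕ) (a : ℝ) {c₀ : ℝ}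
    (hc : 0 < c₀) {f : Env d → ℝ} (hf : Measurable f) (hfi : Integrable f (law d ρ))
    (h0 : ∀ η, 0 ≤ f η) (hdep : DependsOn f (Pa d s)) :
    ∫ η, one (LS β h c₀ m a s) η * f η ∂(law d ρ) ≤
      (law d ρ).real {η | a ≤ X β h η m} / c₀ * ∫ η, f η ∂(law d ρ) := by
  set p := (law d ρ).real {η : Env d | a ≤ X β h η m} with hp
  have hp0 : 0 ≤ p := measureReal_nonneg
  have i1 : ∀ y, Integrable (fun η => one (At β h c₀ s y) η * f η) (law d ρ) := fun y =>
    mul_int (At_meas β h c₀ s y) hfi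
  have i2 : ∀ y, Integrable (fun η => one (At β h c₀ s y) η * f η * one (Lu β h m a s y) η)
      (law d ρ) := fun y => by
    refine (mul_int (Lu_meas β h m a s y) (i1 y)).congr (Eventually.of_forall fun η => ?_)
    simp only
    ring
  have e1 : ∀ y, ∫ η, one (At β h c₀ s y) η * f η * one (Lu β h m a s y) η ∂(law d ρ) =
      (∫ η, one (At β h c₀ s y) η * f η ∂(law d ρ)) * p := by
    intro y
    have h1 := integral_indep (ρ := ρ) (Pa d s) (F := fun η => one (At β h c₀ s y) η * f η)
      (G := one (Lu β h m a s y)) ((one_meas (At_meas β h c₀ s y)).mul hf)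
      (one_meas (Lu_meas β h m a s y)) (fun η η' hη => by
        have h2 := one_dep (At_dep β h c₀ s y) hη
        have h3 := hdep hη
        show one (At β h c₀ s y) η * f η = one (At β h c₀ s y) η' * f η'
        rw [h2, h3]) (one_dep (Lu_dep β h m a s y))
    rw [h1, Lu_I]
  have h1 : ∀ η, one (LS β h c₀ m a s) η * f η ≤
      ∑ y ∈ boxF d s, one (At β h c₀ s y) η * f η * one (Lu β h m a s y) η := by
    intro η
    have hnn : ∀ y ∈ boxF d s, 0 ≤ one (At β h c₀ s y) η * f η * one (Lu β h m a s y) η :=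
      fun y _ => mul_nonneg (mul_nonneg (one_nn _ _) (h0 η)) (one_nn _ _)
    by_cases hη : η ∈ LS β h c₀ m a s
    · obtain ⟨y, hy, hA, hL⟩ := hη
      have h2 := Finset.single_le_sum hnn hy
      rw [one_of hA, one_of hL, one_mul, mul_one] at h2
      rw [one_of (B := LS β h c₀ m a s) ⟨y, hy, hA, hL⟩, one_mul]
      exact h2
    · rw [one_not hη, zero_mul]
      exact Finset.sum_nonneg hnn
  have h2 := integral_mono (mul_int (LS_meas β h c₀ m a s) hfi)
    (integrable_finsetSum (boxF d s) fun y _ => i2 y) h1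
  rw [integral_finsetSum _ fun y _ => i2 y, Finset.sum_congr rfl fun y _ => e1 y,
    ← Finset.sum_mul, ← integral_finsetSum _ fun y _ => i1 y] at h2
  refine h2.trans ?_
  have h3 : ∫ η, ∑ y ∈ boxF d s, one (At β h c₀ s y) η * f η ∂(law d ρ) ≤
      1 / c₀ * ∫ η, f η ∂(law d ρ) := by
    rw [← integral_const_mul]
    refine integral_mono (integrable_finsetSum (boxF d s) fun y _ => i1 y) (hfi.const_mul _)
      fun η => ?_
    rw [← Finset.sum_mul]
    exact mul_le_mul_of_nonneg_right (atoms hd β h hc s η) (h0 η)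
  calc (∫ η, ∑ y ∈ boxF d s, one (At β h c₀ s y) η * f η ∂(law d ρ)) * p
      ≤ (1 / c₀ * ∫ η, f η ∂(law d ρ)) * p := mul_le_mul_of_nonneg_right h3 hp0
    _ = p / c₀ * ∫ η, f η ∂(law d ρ) := by ring

/-- The lower bound for a lucky atom. -/
lemma low79 [IsProbabilityMeasure ρ] (β : ℝ) (h : Vec d) (s m : ℕ) (a : ℝ) (c₀ : ℝ)
    {B : Set (Env d)} (hB : MeasurableSet B) (hdep : DependsOn (fun η => η ∈ B) (Pa d s)) :
    (law d ρ).real {η | a ≤ X β h η m} * (law d ρ).real (AS β h c₀ s ∩ B) ≤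
      (law d ρ).real (LS β h c₀ m a s ∩ B) := by
  set p := (law d ρ).real {η : Env d | a ≤ X β h η m} with hp
  set S : Env d → ℝ := fun η => ∑ y ∈ boxF d s, one (At β h c₀ s y) η with hS
  have hSm : Measurable S := Finset.measurable_fun_sum _ fun y _ => one_meas (At_meas β h c₀ s y)
  set w : Site d → Env d → ℝ := fun y η => one B η * (one (At β h c₀ s y) η / S η) with hw
  have hwm : ∀ y, Measurable (w y) := fun y =>
    (one_meas hB).mul ((one_meas (At_meas β h c₀ s y)).div hSm)
  have hS0 : ∀ η, 0 ≤ S η := fun η => Finset.sum_nonneg fun y _ => one_nn _ _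
  have hw0 : ∀ y η, 0 ≤ w y η := fun y η => mul_nonneg (one_nn _ _) (div_nonneg (one_nn _ _) (hS0 η))
  have hsum : ∀ η, ∑ y ∈ boxF d s, w y η = one (AS β h c₀ s ∩ B) η := by
    intro η
    show ∑ y ∈ boxF d s, one B η * (one (At β h c₀ s y) η / S η) = _
    rw [← Finset.mul_sum, ← Finset.sum_div, one_inter]
    by_cases hη : η ∈ AS β h c₀ s
    · have hpos : 0 < S η := by
        obtain ⟨y, hy, hA⟩ := hη
        have h1 := Finset.single_le_sum (s := boxF d s) (f := fun y => one (At β h c₀ s y) η)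
          (fun y _ => one_nn _ _) hy
        have h2 : one (At β h c₀ s y) η = 1 := one_of hA
        simp only [h2] at h1
        exact lt_of_lt_of_le one_pos h1
      rw [one_of hη, show (∑ y ∈ boxF d s, one (At β h c₀ s y) η) = S η from rfl,
        div_self hpos.ne', mul_one, one_mul]
    · have hz : S η = 0 := by
        refine Finset.sum_eq_zero fun y hy => one_not fun hA => hη ⟨y, hy, hA⟩
      rw [one_not hη, show (∑ y ∈ boxF d s, one (At β h c₀ s y) η) = S η from rfl, hz, zero_div,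
        mul_zero, zero_mul]
  have hw1 : ∀ y ∈ boxF d s, ∀ η, w y η ≤ 1 := by
    intro y hy η
    refine (Finset.single_le_sum (f := fun y => w y η) (fun y _ => hw0 y η) hy).trans ?_
    rw [hsum]
    exact one_le _ _
  have hwn : ∀ y ∈ boxF d s, ∀ η, ‖w y η‖ ≤ 1 := fun y hy η => by
    rw [Real.norm_eq_abs, abs_of_nonneg (hw0 y η)]
    exact hw1 y hy η
  have i1 : ∀ y ∈ boxF d s, Integrable (w y) (law d ρ) := fun y hy =>
    (integrable_const (1 : ℝ)).mono' (hwm y).aestronglyMeasurable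
      (Eventually.of_forall fun η => hwn y hy η)
  have i2 : ∀ y ∈ boxF d s, Integrable (fun η => w y η * one (Lu β h m a s y) η) (law d ρ) :=
    fun y hy => (one_int (Lu_meas β h m a s y)).bdd_mul (c := 1) (hwm y).aestronglyMeasurable
      (Eventually.of_forall fun η => hwn y hy η)
  have e1 : ∀ y, ∫ η, w y η * one (Lu β h m a s y) η ∂(law d ρ) =
      (∫ η, w y η ∂(law d ρ)) * p := by
    intro y
    have h1 := integral_indep (ρ := ρ) (Pa d s) (F := w y)
      (G := one (Lu β h m a s y)) (hwm y)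
      (one_meas (Lu_meas β h m a s y)) (fun η η' hη => by
        have h2 := one_dep hdep hη
        have h3 : ∀ y, one (At β h c₀ s y) η = one (At β h c₀ s y) η' := fun y =>
          one_dep (At_dep β h c₀ s y) hη
        show one B η * (one (At β h c₀ s y) η / ∑ y ∈ boxF d s, one (At β h c₀ s y) η) =
          one B η' * (one (At β h c₀ s y) η' / ∑ y ∈ boxF d s, one (At β h c₀ s y) η')
        simp only [h2, h3]) (one_dep (Lu_dep β h m a s y))
    rw [h1, Lu_I]
  have h1 : ∀ η, ∑ y ∈ boxF d s, w y η * one (Lu β h m a s y) η ≤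
      one (LS β h c₀ m a s ∩ B) η := by
    intro η
    by_cases hη : η ∈ LS β h c₀ m a s ∩ B
    · rw [one_of hη]
      refine (Finset.sum_le_sum fun y _ => mul_le_mul_of_nonneg_left
        (one_le (Lu β h m a s y) η) (hw0 y η)).trans ?_
      simp only [mul_one]
      rw [hsum]
      exact one_le _ _
    · rw [one_not hη]
      refine Finset.sum_nonpos fun y hy => ?_
      by_cases hB' : η ∈ B
      · by_cases hA : η ∈ At β h c₀ s y
        · have hL : η ∉ Lu β h m a s y := fun hL => hη ⟨⟨y, hy, hA, hL⟩, hB'⟩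
          rw [one_not hL, mul_zero]
        · show one B η * (one (At β h c₀ s y) η / S η) * _ ≤ 0
          rw [one_not hA, zero_div, mul_zero, zero_mul]
      · show one B η * (one (At β h c₀ s y) η / S η) * _ ≤ 0
        rw [one_not hB', zero_mul, zero_mul]
  have h2 := integral_mono (integrable_finsetSum (boxF d s) fun y hy => i2 y hy)
    (one_int ((LS_meas β h c₀ m a s).inter hB)) h1
  rw [integral_finsetSum _ fun y hy => i2 y hy, Finset.sum_congr rfl fun y _ => e1 y,
    ← Finset.sum_mul, ← integral_finsetSum _ fun y hy => i1 y hy,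
    one_I ((LS_meas β h c₀ m a s).inter hB)] at h2
  simp only [hsum] at h2
  rw [one_I ((AS_meas β h c₀ s).inter hB)] at h2
  linarith

/-- Jensen on an event of the past. -/
lemma jen79 [IsProbabilityMeasure ρ] (hd : 0 < d) (hρ : EM ρ) (β : ℝ) (h : Vec d) (t k : ℕ)
    {B : Set (Env d)} (hB : MeasurableSet B) (hdep : DependsOn (fun η => η ∈ B) (Pa d t)) :
    (∫ η, one B η * X β h η t ∂(law d ρ)) + A ρ β h k * (law d ρ).real B ≤
      ∫ η, one B η * X β h η (t + k) ∂(law d ρ) := by
  have hX : ∀ k, Integrable (fun η => X β h η k) (law d ρ) := fun k => (concU hd hρ β h k).1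
  have hXs : ∀ y : Site d, Integrable (fun η => X β h (sh t y η) k) (law d ρ) := fun y =>
    (mp_sh t y).integrable_comp_of_integrable (hX k)
  set w : (Fin t → Step d) → Env d → ℝ := fun s η => one B η * FreeU_p β h t s η with hw
  have hwm : ∀ s, Measurable (w s) := fun s => (one_meas hB).mul (FreeU_meas β h t s)
  have hwn : ∀ s η, ‖w s η‖ ≤ 1 := fun s η => by
    have h1 := one_abs B η
    have h2 : ‖FreeU_p β h t s η‖ ≤ 1 := by
      rw [Real.norm_eq_abs, abs_of_nonneg (FreeU_nonneg hd β h t s η)]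
      exact FreeU_le_one hd β h t s η
    show ‖one B η * FreeU_p β h t s η‖ ≤ 1
    rw [norm_mul]
    exact mul_le_one₀ h1 (norm_nonneg _) h2
  have i1 : ∀ s, Integrable (w s) (law d ρ) := fun s =>
    (integrable_const (1 : ℝ)).mono' (hwm s).aestronglyMeasurable
      (Eventually.of_forall fun η => hwn s η)
  have i2 : ∀ s, Integrable (fun η => w s η * X β h (sh t (pos s t) η) k) (law d ρ) := fun s =>
    (hXs (pos s t)).bdd_mul (c := 1) (hwm s).aestronglyMeasurable
      (Eventually.of_forall fun η => hwn s η)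
  have e1 : ∀ s, ∫ η, w s η * X β h (sh t (pos s t) η) k ∂(law d ρ) =
      (∫ η, w s η ∂(law d ρ)) * A ρ β h k := by
    intro s
    have h1 := integral_indep (ρ := ρ) (Pa d t) (F := w s)
      (G := fun η => X β h (sh t (pos s t) η) k) (hwm s)
      ((measurable_X β h k).comp (measurable_sh t (pos s t))) (fun η η' hη => by
        have h2 := one_dep hdep hη
        have h3 := FreeU_dep β h t s hη
        show one B η * FreeU_p β h t s η = one B η' * FreeU_p β h t s η'
        rw [h2, h3]) (FreeU_dep2 β h t k (pos s t))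
    rw [h1, integral_sh t (pos s t) (measurable_X β h k)]
    rfl
  have hpt : ∀ η, one B η * X β h η t + ∑ s : Fin t → Step d,
      w s η * X β h (sh t (pos s t) η) k ≤ one B η * X β h η (t + k) := by
    intro η
    have h1 := mul_le_mul_of_nonneg_left (FreeU_pt hd β h t k η) (one_nn B η)
    rw [mul_add, Finset.mul_sum] at h1
    refine le_trans (le_of_eq ?_) h1
    congr 1
    refine Finset.sum_congr rfl fun s _ => ?_
    show one B η * FreeU_p β h t s η * _ = _
    ring
  have i3 := mul_int (ρ := ρ) hB (hX t)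
  have i4 : Integrable (fun η => ∑ s : Fin t → Step d, w s η * X β h (sh t (pos s t) η) k)
      (law d ρ) := integrable_finsetSum _ fun s _ => i2 s
  have h2 := integral_mono (i3.add i4) (mul_int hB (hX (t + k))) hpt
  simp only [Pi.add_apply] at h2
  rw [integral_add i3 i4, integral_finsetSum _ fun s _ => i2 s,
    Finset.sum_congr rfl fun s _ => e1 s, ← Finset.sum_mul,
    ← integral_finsetSum _ fun s _ => i1 s] at h2
  have e2 : ∫ η, ∑ s : Fin t → Step d, w s η ∂(law d ρ) = (law d ρ).real B := by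
    rw [← one_I hB]
    refine integral_congr_ae (Eventually.of_forall fun η => ?_)
    show ∑ s : Fin t → Step d, one B η * FreeU_p β h t s η = one B η
    rw [← Finset.mul_sum, FreeU_sum hd, mul_one]
  rw [e2] at h2
  linarith

/-- The first success: the indicators add up to one. -/
lemma first79 (S : Finset ℕ) (L : ℕ → Set (Env d)) (η : Env d) :
    ∑ s ∈ S, one (L s ∩ {η | ∀ s' ∈ S, s' < s → η ∉ L s'}) η +
      one {η | ∀ s ∈ S, η ∉ L s} η = 1 := by
  classical
  by_cases hη : ∀ s ∈ S, η ∉ L s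
  · rw [one_of (B := {η | ∀ s ∈ S, η ∉ L s}) hη, Finset.sum_eq_zero, zero_add]
    intro s hs
    exact one_not fun h => hη s hs h.1
  · rw [one_not (B := {η | ∀ s ∈ S, η ∉ L s}) hη, add_zero]
    push Not at hη
    obtain ⟨s₁, hs₁, hL₁⟩ := hη
    set F := S.filter fun s => η ∈ L s with hF
    have hne : F.Nonempty := ⟨s₁, Finset.mem_filter.2 ⟨hs₁, hL₁⟩⟩
    have hm := Finset.mem_filter.1 (F.min'_mem hne)
    have hmin : ∀ s' ∈ S, s' < F.min' hne → η ∉ L s' := by
      intro s' hs' hlt hL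
      exact absurd (F.min'_le s' (Finset.mem_filter.2 ⟨hs', hL⟩)) (not_le.2 hlt)
    rw [Finset.sum_eq_single_of_mem (F.min' hne) hm.1]
    · exact one_of ⟨hm.2, hmin⟩
    · intro s hs hne'
      refine one_not fun h => ?_
      rcases lt_or_gt_of_ne hne' with h1 | h1
      · exact hmin s hs h1 h.1
      · exact h.2 _ hm.1 h1 hm.2

/-- The main computation: `N` localised times at distances at least `m`. -/
theorem main79 [IsProbabilityMeasure ρ] (hd : 0 < d) (hρ : EM ρ) (β : ℝ) (h : Vec d) {c₀ x Φ : ℝ}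
    (hc : 0 < c₀) {m T : ℕ} (S : Finset ℕ) (hS : ∀ s ∈ S, ∀ s' ∈ S, s' < s → s' + m ≤ s)
    (hT : ∀ s ∈ S, s + m ≤ T)
    (hloc : ∀ s ∈ S, c₀ ≤ (law d ρ).real (AS β h c₀ s))
    (hΦ : ∀ k : ℕ, k ≤ T → En ρ β h k ≤ Φ ∧ Fn ρ β h k ≤ Φ) :
    ∃ π : ℝ, 0 ≤ π ∧
      S.card * ((law d ρ).real {η | A ρ β h m + x ≤ X β h η m} * (c₀ - π)) ≤ π ∧
      (x - 3 * Φ + Real.log c₀) * π ≤
        Φ + S.card * ((law d ρ).real {η | A ρ β h m + x ≤ X β h η m} / c₀ * Φ) := by
  classical
  set a : ℝ := A ρ β h m + x with ha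
  set p : ℝ := (law d ρ).real {η : Env d | a ≤ X β h η m} with hp
  have hp0 : 0 ≤ p := measureReal_nonneg
  set L : ℕ → Set (Env d) := fun s => LS β h c₀ m a s with hL
  have hLm : ∀ s, MeasurableSet (L s) := fun s => LS_meas β h c₀ m a s
  set B : ℕ → Set (Env d) := fun s => {η | ∀ s' ∈ S, s' < s → η ∉ L s'} with hB
  have hBm : ∀ s, MeasurableSet (B s) := by
    intro s
    have e : B s = ⋂ s' ∈ S, {η | s' < s → η ∉ L s'} := by
      ext η
      simp only [hB, Set.mem_ofPred_eq, Set.mem_iInter]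
    rw [e]
    refine Finset.measurableSet_biInter _ fun s' _ => ?_
    by_cases hlt : s' < s
    · have e2 : {η | s' < s → η ∉ L s'} = (L s')ᶜ := by
        ext η
        simp [hlt]
      rw [e2]
      exact (hLm s').compl
    · have e2 : {η : Env d | s' < s → η ∉ L s'} = Set.univ := by
        ext η
        simp [hlt]
      rw [e2]
      exact MeasurableSet.univ
  set I : Set (Env d) := {η | ∀ s ∈ S, η ∉ L s} with hI
  have hIm : MeasurableSet I := by
    have e : I = ⋂ s ∈ S, (L s)ᶜ := by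
      ext η
      simp only [hI, Set.mem_ofPred_eq, Set.mem_iInter, Set.mem_compl_iff]
    rw [e]
    exact Finset.measurableSet_biInter _ fun s _ => (hLm s).compl
  have hTm : ∀ s, MeasurableSet (L s ∩ B s) := fun s => (hLm s).inter (hBm s)
  have hone : ∀ η, ∑ s ∈ S, one (L s ∩ B s) η + one I η = 1 := fun η => first79 S L η
  have hBd : ∀ s ∈ S, DependsOn (fun η => η ∈ B s) (Pa d s) := by
    intro s hs η η' hη
    have h1 : ∀ s' ∈ S, s' < s → (η ∈ L s') = (η' ∈ L s') := fun s' hs' hlt =>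
      LS_dep β h c₀ m a s' fun q hq => hη q (by
        change q.1 ≤ s
        have h2 : q.1 ≤ s' + m := hq
        exact h2.trans (hS s hs s' hs' hlt))
    show (∀ s' ∈ S, s' < s → η ∉ L s') = (∀ s' ∈ S, s' < s → η' ∉ L s')
    refine propext ⟨fun H s' hs' hlt => ?_, fun H s' hs' hlt => ?_⟩
    · rw [← h1 s' hs' hlt]
      exact H s' hs' hlt
    · rw [h1 s' hs' hlt]
      exact H s' hs' hlt
  have hTd : ∀ s ∈ S, DependsOn (fun η => η ∈ L s ∩ B s) (Pa d (s + m)) := by
    intro s hs η η' hη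
    have h1 : (η ∈ L s) = (η' ∈ L s) := LS_dep β h c₀ m a s hη
    have h2 : (η ∈ B s) = (η' ∈ B s) := hBd s hs fun q hq => hη q (by
      change q.1 ≤ s + m
      have h2 : q.1 ≤ s := hq
      omega)
    show (η ∈ L s ∧ η ∈ B s) = (η' ∈ L s ∧ η' ∈ B s)
    rw [h1, h2]
  set π : ℝ := ∑ s ∈ S, (law d ρ).real (L s ∩ B s) with hπ
  have hπI : π + (law d ρ).real I = 1 := by
    have h1 : ∫ η, (∑ s ∈ S, one (L s ∩ B s) η + one I η) ∂(law d ρ) = 1 := by
      simp only [hone]
      simp
    rw [integral_add (integrable_finsetSum _ fun s _ => one_int (hTm s)) (one_int hIm),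
      integral_finsetSum _ fun s _ => one_int (hTm s), one_I hIm] at h1
    rw [hπ, ← h1]
    congr 1
    exact Finset.sum_congr rfl fun s _ => (one_I (hTm s)).symm
  have hπ0 : 0 ≤ π := Finset.sum_nonneg fun s _ => measureReal_nonneg
  refine ⟨π, hπ0, ?_, ?_⟩
  · -- the lower bound of the probability of a success
    have h1 : ∀ s ∈ S, p * (c₀ - π) ≤ (law d ρ).real (L s ∩ B s) := by
      intro s hs
      refine le_trans (mul_le_mul_of_nonneg_left ?_ hp0)
        (low79 (ρ := ρ) β h s m a c₀ (hBm s) (hBd s hs))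
      have h2 : I ⊆ B s := fun η hη s' hs' _ => hη s' hs'
      have h3 := measureReal_mono (μ := law d ρ) h2
      have h4 : AS β h c₀ s ⊆ (AS β h c₀ s ∩ B s) ∪ (B s)ᶜ := by
        intro η hη
        by_cases hb : η ∈ B s
        · exact Or.inl ⟨hη, hb⟩
        · exact Or.inr hb
      have h5 := (measureReal_mono (μ := law d ρ) h4).trans (measureReal_union_le _ _)
      rw [probReal_compl_eq_one_sub (hBm s)] at h5
      have h6 := hloc s hs
      linarith
    have h2 := Finset.sum_le_sum h1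
    rw [Finset.sum_const, nsmul_eq_mul] at h2
    exact h2
  · -- the expectation
    have hX : ∀ k, Integrable (fun η => X β h η k) (law d ρ) := fun k => (concU hd hρ β h k).1
    have hXA : ∀ k, Integrable (fun η => X β h η k - A ρ β h k) (law d ρ) := fun k =>
      (hX k).sub (integrable_const _)
    have hX0 : ∀ k, ∫ η, (X β h η k - A ρ β h k) ∂(law d ρ) = 0 := by
      intro k
      rw [integral_sub (hX k) (integrable_const _), integral_const]
      simp only [probReal_univ, smul_eq_mul, one_mul]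
      exact sub_self _
    have h0 : ∑ s ∈ S, ∫ η, one (L s ∩ B s) η * (X β h η T - A ρ β h T) ∂(law d ρ) +
        ∫ η, one I η * (X β h η T - A ρ β h T) ∂(law d ρ) = 0 := by
      rw [← integral_finsetSum _ fun s _ => mul_int (hTm s) (hXA T),
        ← integral_add (integrable_finsetSum _ fun s _ => mul_int (hTm s) (hXA T))
          (mul_int hIm (hXA T)), ← hX0 T]
      refine integral_congr_ae (Eventually.of_forall fun η => ?_)
      simp only
      rw [← Finset.sum_mul, ← add_mul, hone, one_mul]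
    have h1 : -Φ ≤ ∫ η, one I η * (X β h η T - A ρ β h T) ∂(law d ρ) := by
      have h2 : ∀ η, -|X β h η T - A ρ β h T| ≤ one I η * (X β h η T - A ρ β h T) := by
        intro η
        have h3 := neg_abs_le (X β h η T - A ρ β h T)
        have h4 := abs_nonneg (X β h η T - A ρ β h T)
        by_cases hη : η ∈ I
        · rw [one_of hη, one_mul]
          exact h3
        · rw [one_not hη, zero_mul]
          linarith
      have h3 := integral_mono (hXA T).abs.neg (mul_int hIm (hXA T)) h2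
      simp only [Pi.neg_apply] at h3
      rw [integral_neg] at h3
      have h4 := (hΦ T le_rfl).2
      unfold Fn at h4
      linarith
    have h2 : ∀ s ∈ S, (x - 3 * Φ + Real.log c₀) * (law d ρ).real (L s ∩ B s) - p / c₀ * Φ ≤
        ∫ η, one (L s ∩ B s) η * (X β h η T - A ρ β h T) ∂(law d ρ) := by
      intro s hs
      have hsT := hT s hs
      obtain ⟨k, hk⟩ : ∃ k, T = (s + m) + k := ⟨T - (s + m), by omega⟩
      -- Jensen
      have j1 := jen79 (ρ := ρ) hd hρ β h (s + m) k (hTm s) (hTd s hs)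
      rw [← hk] at j1
      have j2 : ∫ η, one (L s ∩ B s) η * (X β h η T - A ρ β h T) ∂(law d ρ) =
          (∫ η, one (L s ∩ B s) η * X β h η T ∂(law d ρ)) -
            A ρ β h T * (law d ρ).real (L s ∩ B s) := by
        have i1 := mul_int (ρ := ρ) (hTm s) (hX T)
        have i2 := (one_int (ρ := ρ) (hTm s)).const_mul (A ρ β h T)
        rw [← one_I (hTm s), ← integral_const_mul, ← integral_sub i1 i2]
        refine integral_congr_ae (Eventually.of_forall fun η => ?_)
        simp only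
        ring
      -- the gain
      have j3 : ∀ η, one (L s ∩ B s) η * (X β h η s + (Real.log c₀ + a)) ≤
          one (L s ∩ B s) η * X β h η (s + m) := by
        intro η
        by_cases hη : η ∈ L s ∩ B s
        · rw [one_of hη, one_mul, one_mul]
          obtain ⟨⟨y, hy, hA, hLu⟩, _⟩ := hη
          have hA' : c₀ * Z β h η s ≤ PP β h η s y := hA
          have hLu' : a ≤ X β h (sh s y η) m := hLu
          have hZ := Z_pos hd β h η s
          have hZm := Z_pos hd β h (sh s y η) m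
          have hch := PP_chainZ β h η s m y
          have k1 : c₀ * Z β h η s * Z β h (sh s y η) m ≤ Z β h η (s + m) :=
            (mul_le_mul_of_nonneg_right hA' hZm.le).trans hch
          have k2 := Real.log_le_log (mul_pos (mul_pos hc hZ) hZm) k1
          rw [Real.log_mul (mul_pos hc hZ).ne' hZm.ne', Real.log_mul hc.ne' hZ.ne'] at k2
          have k3 : Real.log (Z β h (sh s y η) m) = X β h (sh s y η) m := rfl
          have k4 : Real.log (Z β h η s) = X β h η s := rfl
          have k5 : Real.log (Z β h η (s + m)) = X β h η (s + m) := rfl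
          rw [k3, k4, k5] at k2
          linarith
        · rw [one_not hη, zero_mul, zero_mul]
      have j4 := integral_mono (mul_int (ρ := ρ) (hTm s) ((hX s).add (integrable_const
        (Real.log c₀ + a)))) (mul_int (ρ := ρ) (hTm s) (hX (s + m))) j3
      have j5 : ∫ η, one (L s ∩ B s) η * (X β h η s + (Real.log c₀ + a)) ∂(law d ρ) =
          (∫ η, one (L s ∩ B s) η * (X β h η s - A ρ β h s) ∂(law d ρ)) +
            (A ρ β h s + (Real.log c₀ + a)) * (law d ρ).real (L s ∩ B s) := by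
        have i1 := mul_int (ρ := ρ) (hTm s) (hXA s)
        have i2 := (one_int (ρ := ρ) (hTm s)).const_mul (A ρ β h s + (Real.log c₀ + a))
        rw [← one_I (hTm s), ← integral_const_mul, ← integral_add i1 i2]
        refine integral_congr_ae (Eventually.of_forall fun η => ?_)
        simp only
        ring
      have j6 : -(p / c₀ * Φ) ≤
          ∫ η, one (L s ∩ B s) η * (X β h η s - A ρ β h s) ∂(law d ρ) := by
        have i1 := mul_int (ρ := ρ) (hLm s) (hXA s).abs
        have h3 : ∀ η, -(one (L s) η * |X β h η s - A ρ β h s|) ≤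
            one (L s ∩ B s) η * (X β h η s - A ρ β h s) := by
          intro η
          have h4 := neg_abs_le (X β h η s - A ρ β h s)
          have h5 := abs_nonneg (X β h η s - A ρ β h s)
          by_cases hη : η ∈ L s ∩ B s
          · rw [one_of hη, one_of hη.1, one_mul, one_mul]
            exact h4
          · rw [one_not hη, zero_mul]
            have h6 := mul_nonneg (one_nn (L s) η) h5
            linarith
        have h4 := integral_mono i1.neg (mul_int (ρ := ρ) (hTm s) (hXA s)) h3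
        simp only [Pi.neg_apply] at h4
        rw [integral_neg] at h4
        have h5 := up79 (ρ := ρ) hd β h s m a hc (f := fun η => |X β h η s - A ρ β h s|)
          ((measurable_X β h s).sub_const _).abs (hXA s).abs (fun η => abs_nonneg _)
          (fun η η' hη => by
            have h6 : Z β h η s = Z β h η' s := S98.Z_dep β h s hη
            simp only
            unfold X
            rw [h6])
        have h6 := (hΦ s (by omega)).2
        unfold Fn at h6
        have h7 := mul_le_mul_of_nonneg_left h6 (div_nonneg hp0 hc.le)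
        linarith
      have j7 : A ρ β h T ≤ A ρ β h s + A ρ β h m + A ρ β h k + 3 * Φ := by
        have e1 := (hΦ s (by omega)).1
        have e2 := (hΦ m (by omega)).1
        have e3 := (hΦ k (by omega)).1
        have e4 := A_le_lam hd hρ β h T
        unfold En at e1 e2 e3
        rw [hk] at e4 ⊢
        push_cast at e4
        linarith
      have j8 : (0 : ℝ) ≤ (law d ρ).real (L s ∩ B s) := measureReal_nonneg
      have j9 := mul_le_mul_of_nonneg_right j7 j8
      simp only [Pi.add_apply] at j4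
      rw [j2]
      rw [j5] at j4
      rw [ha] at j4
      linarith
    have h3 := Finset.sum_le_sum h2
    rw [Finset.sum_sub_distrib, ← Finset.mul_sum, Finset.sum_const, nsmul_eq_mul] at h3
    linarith

/-- The localised times in one residue class. -/
lemma class79 {m N : ℕ} (hm : 1 ≤ m) (F : Finset ℕ) (hc : N * m ≤ F.card) : ∃ S : Finset ℕ, S ⊆ F ∧ S.card = N ∧
      ∀ s ∈ S, ∀ s' ∈ S, s' < s → s' + m ≤ s := by
  classical
  have h1 : ∀ t ∈ F, t % m ∈ Finset.range m := fun t _ => Finset.mem_range.2 (Nat.mod_lt _ hm)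
  have h2 : (Finset.range m).card * N ≤ F.card := by
    rw [Finset.card_range, mul_comm]
    exact hc
  obtain ⟨r, _, hr⟩ := Finset.exists_le_card_fiber_of_mul_le_card_of_maps_to h1
    (Finset.nonempty_range_iff.2 (by omega)) h2
  obtain ⟨S, hS1, hS2⟩ := Finset.exists_subset_card_eq hr
  refine ⟨S, hS1.trans (Finset.filter_subset _ _), hS2, fun s hs s' hs' hlt => ?_⟩
  have e1 := (Finset.mem_filter.1 (hS1 hs)).2
  have e2 := (Finset.mem_filter.1 (hS1 hs')).2
  have h3 : s' ≡ s [MOD m] := by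
    unfold Nat.ModEq
    rw [e1, e2]
  have h4 : m ∣ s - s' := (Nat.modEq_iff_dvd' hlt.le).1 h3
  have h5 := Nat.le_of_dvd (by omega) h4
  omega

end Pool.Agent.W_7d29a1_SP.C79

namespace Pool.Agent.W_7d29a1_SP

open MeasureTheory ProbabilityTheory Filter Topology Pool.Agent.W_MP_7d29a1_pr
  Pool.Agent.W_7d29a1_h46 Pool.Agent.W_7d29a1_h46u Pool.Agent.W_7d29a1_D2.B35
  Pool.Agent.W_7d29a1_Q29 Pool.Agent.W_7d29a1_R34

/-- Leaf CNT. -/
theorem cnt79 {d : ℕ} {ρ : Measure ℝ} [IsProbabilityMeasure ρ] (hd : 0 < d) (hρ : EM ρ) (β : ℝ) :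
    CntP d ρ β := by
  classical
  intro c₀ hc
  set C : ℝ := 3 + |Real.log c₀| + 2 / c₀ * (1 + 2 / c₀) + (2 / c₀ + 2) with hC
  have hCa : 0 ≤ 2 / c₀ * (1 + 2 / c₀) := by positivity
  have hCb : 0 < 2 / c₀ + 2 := by positivity
  have hCc : 0 ≤ |Real.log c₀| := abs_nonneg _
  refine ⟨C, by linarith, fun h hloc m T x q Φ hm hq hp hT hΦ => ?_⟩
  have hΦ0 : 0 ≤ Φ := by
    refine le_trans ?_ (hΦ 0 (Nat.zero_le _)).2
    exact integral_nonneg fun η => abs_nonneg _
  set p : ℝ := (law d ρ).real {η | A ρ β h m + x ≤ X β h η m} with hpd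
  have hp0 : 0 < p := lt_of_lt_of_le hq hp
  have hp1 : p ≤ 1 := measureReal_le_one
  have hm1 : (1 : ℝ) ≤ m := by exact_mod_cast hm
  set N : ℕ := ⌈1 / p⌉₊ with hN
  have hN1 : 1 / p ≤ N := Nat.le_ceil _
  have hN2 : (N : ℝ) < 1 / p + 1 := Nat.ceil_lt_add_one (by positivity)
  have hNp1 : 1 ≤ N * p := by
    rwa [div_le_iff₀ hp0] at hN1
  have hNp2 : N * p ≤ 2 := by
    have h1 := mul_le_mul_of_nonneg_right hN2.le hp0.le
    rw [add_mul, div_mul_cancel₀ _ hp0.ne', one_mul] at h1
    linarith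
  set n : ℕ := ⌈N * m / c₀⌉₊ with hn
  have hn1 : (N * m : ℝ) / c₀ ≤ n := Nat.le_ceil _
  have hn2 : (n : ℝ) < N * m / c₀ + 1 := Nat.ceil_lt_add_one (by positivity)
  set F : Finset ℕ := (Finset.range n).filter fun t =>
    c₀ ≤ (law d ρ).real {η | ∃ y ∈ boxF d t, c₀ * Z β h η t ≤ PP β h η t y} with hF
  have hcard : N * m ≤ F.card := by
    have h1 := hloc n
    have h2 : (N * m : ℝ) ≤ c₀ * n := by
      rw [div_le_iff₀ hc] at hn1
      linarith
    exact_mod_cast h2.trans h1
  obtain ⟨S, hS1, hS2, hS3⟩ := C79.class79 hm F hcard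
  have hnT : n + m ≤ T := by
    have h1 : (n : ℝ) + m ≤ T := by
      refine le_trans ?_ hT
      have h2 : C * m / p ≤ C * m / q :=
        div_le_div_of_nonneg_left (by positivity) hq hp
      refine le_trans ?_ h2
      have h3 : (2 / c₀ + 2) * m / p ≤ C * m / p := by
        refine div_le_div_of_nonneg_right (mul_le_mul_of_nonneg_right ?_ (by positivity)) hp0.le
        linarith
      refine le_trans ?_ h3
      rw [le_div_iff₀ hp0]
      have h4 : (n : ℝ) * p ≤ (N * m / c₀ + 1) * p := mul_le_mul_of_nonneg_right hn2.le hp0.le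
      have h5 : (N * m / c₀ + 1) * p = (N * p) * (m / c₀) + p := by ring
      have h6 : (N * p) * (m / c₀) ≤ 2 * (m / c₀) :=
        mul_le_mul_of_nonneg_right hNp2 (by positivity)
      have h7 : (m : ℝ) * p ≤ m := by nlinarith
      have h8 : (2 / c₀ + 2) * (m : ℝ) = 2 * (m / c₀) + 2 * m := by ring
      rw [add_mul, h8]
      linarith
    exact_mod_cast h1
  obtain ⟨π, hπ0, hπ1, hπ2⟩ := C79.main79 (ρ := ρ) hd hρ β h (x := x) (Φ := Φ) hc (m := m)
    (T := T) S hS3 (fun s hs => by
      have h1 := Finset.mem_range.1 (Finset.mem_filter.1 (hS1 hs)).1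
      omega) (fun s hs => (Finset.mem_filter.1 (hS1 hs)).2) hΦ
  rw [hS2, ← hpd] at hπ1 hπ2
  -- the success probability
  have hπc : c₀ / 2 ≤ π := by
    by_contra hcon
    rw [not_le] at hcon
    have h1 : c₀ - π ≤ N * (p * (c₀ - π)) := by
      have h2 : 0 ≤ c₀ - π := by linarith
      have h3 := mul_le_mul_of_nonneg_right hNp1 h2
      rw [one_mul] at h3
      linarith
    linarith
  have h3 : (N : ℝ) * (p / c₀ * Φ) ≤ 2 / c₀ * Φ := by
    have h4 : (N : ℝ) * (p / c₀ * Φ) = (N * p) * (Φ / c₀) := by ring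
    have h5 : 2 / c₀ * Φ = 2 * (Φ / c₀) := by ring
    rw [h4, h5]
    exact mul_le_mul_of_nonneg_right hNp2 (by positivity)
  have h4 : (x - 3 * Φ + Real.log c₀) * π ≤ (1 + 2 / c₀) * Φ := by linarith
  have h5 : -|Real.log c₀| ≤ Real.log c₀ := neg_abs_le _
  by_cases hx : x - 3 * Φ + Real.log c₀ ≤ 0
  · have h6 := mul_nonneg hCa hΦ0
    have h7 := mul_nonneg hCc hΦ0
    have h8 := mul_nonneg hCb.le hΦ0
    rw [hC]
    nlinarith
  · rw [not_le] at hx
    have h6 : (x - 3 * Φ + Real.log c₀) * (c₀ / 2) ≤ (1 + 2 / c₀) * Φ :=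
      (mul_le_mul_of_nonneg_left hπc hx.le).trans h4
    have h7 : x - 3 * Φ + Real.log c₀ ≤ 2 / c₀ * (1 + 2 / c₀) * Φ := by
      have h8 : x - 3 * Φ + Real.log c₀ ≤ (1 + 2 / c₀) * Φ / (c₀ / 2) := by
        rw [le_div_iff₀ (by positivity)]
        exact h6
      refine h8.trans (le_of_eq ?_)
      field_simp
    have h8 := mul_nonneg hCc hΦ0
    have h9 := mul_nonneg hCb.le hΦ0
    rw [hC]
    nlinarith

end Pool.Agent.W_7d29a1_SP
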