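import Pool.Agent.W_7d29a1_SP.DefsSP
import Pool.Agent.W_7d29a1_ehr.Ehrhard
import Pool.Agent.W_7d29a1_h46u.Walk

/-!
AMP (helper84): amplification of the upper deviations of the free energy by Ehrhard's inequality, for the laws of
convex functions of a Gaussian variable.
-/

namespace Pool.Agent.W_7d29a1_SP.A84

open MeasureTheory ProbabilityTheory Filter Topology Set Pool.Agent.W_MP_7d29a1_pr
  Pool.Agent.W_7d29a1_h46 Pool.Agent.W_7d29a1_h46u

/-! ### Gaussian tails -/

lemma Phi_add (x : ℝ) : Ehr.Phi (-x) + Ehr.Phi x = 1 := by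
  have hd : ∀ y, HasDerivAt (fun z => Ehr.Phi (-z) + Ehr.Phi z) 0 y := fun y => by
    have h1 : HasDerivAt (fun z => Ehr.Phi (-z)) (Ehr.phi (-y) * (-1)) y :=
      (Ehr.hasDerivAt_Phi (-y)).comp y (hasDerivAt_neg y)
    have h2 := h1.add (Ehr.hasDerivAt_Phi y)
    have h3 : Ehr.phi (-y) * -1 + Ehr.phi y = 0 := by rw [Ehr.phi_even]; ring
    rw [h3] at h2
    exact h2
  have hc : ∀ a b : ℝ, Ehr.Phi (-a) + Ehr.Phi a = Ehr.Phi (-b) + Ehr.Phi b :=
    fun a b => is_const_of_deriv_eq_zero (fun y => (hd y).differentiableAt) (fun y => (hd y).deriv) a b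
  have h3 : Tendsto (fun z => Ehr.Phi (-z) + Ehr.Phi z) atTop (𝓝 (0 + 1)) :=
    (Ehr.Phi_bot.comp tendsto_neg_atTop_atBot).add Ehr.Phi_top
  have h4 : Tendsto (fun z => Ehr.Phi (-z) + Ehr.Phi z) atTop (𝓝 (Ehr.Phi (-x) + Ehr.Phi x)) := by
    refine tendsto_const_nhds.congr fun z => hc x z
  have := tendsto_nhds_unique h4 h3
  linarith

/-- the constant of the lower tail -/
noncomputable def cA : ℝ := (√(2 * Real.pi))⁻¹ * Real.exp (-1)

lemma cA_pos : 0 < cA := by
  unfold cA
  positivity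

lemma Phi_lower {r : ℝ} (hr : 0 ≤ r) : cA * Real.exp (-r ^ 2) ≤ Ehr.Phi (-r) := by
  have h1 := Ehr.Phi_low (S := r + 1) (x := -r) (y := -(r + 1)) (by rw [abs_neg, abs_of_nonneg hr]; linarith)
    (by rw [abs_neg, abs_of_nonneg (by linarith)])
  have h2 : |(-r) - (-(r + 1))| = 1 := by
    rw [show (-r) - (-(r + 1)) = 1 by ring, abs_one]
  have h3 : Ehr.Phi (-(r + 1)) < Ehr.Phi (-r) := Ehr.Phi_strictMono (by linarith)
  rw [h2, mul_one, abs_of_pos (by linarith)] at h1
  have h4 := Ehr.Phi_pos (-(r + 1))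
  have h5 : cA * Real.exp (-r ^ 2) ≤ Ehr.phi (r + 1) := by
    rw [Ehr.phi_eq, cA, mul_assoc, ← Real.exp_add]
    apply mul_le_mul_of_nonneg_left _ (by positivity)
    apply Real.exp_le_exp.2
    nlinarith [sq_nonneg (r - 1)]
  linarith

lemma Phi_upper {b : ℝ} (hb : 0 ≤ b) : Ehr.Phi (-b) ≤ Real.exp (-b ^ 2 / 2) := by
  rw [Ehr.Phi_eq]
  have h := measure_le_le_exp_mul_mgf (μ := gaussianReal 0 1) (X := id) (t := -b) (-b) (by linarith)
    (integrable_exp_mul_gaussianReal (-b))
  have h2 : mgf id (gaussianReal 0 1) (-b) = Real.exp (b ^ 2 / 2) := by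
    rw [mgf_id_gaussianReal]
    simp
  rw [h2, ← Real.exp_add] at h
  have h3 : -(-b) * -b + b ^ 2 / 2 = -b ^ 2 / 2 := by ring
  rw [h3] at h
  exact h

/-- price of the amplification -/
lemma Phi_amp {b r q : ℝ} (hb : 0 ≤ b) (hr : 1 ≤ r) (hq : Ehr.Phi (-b) = q) :
    cA * q ^ (2 * r ^ 2) ≤ Ehr.Phi (-(r * b)) := by
  have hq0 : 0 < q := hq ▸ Ehr.Phi_pos _
  have h1 := Phi_lower (r := r * b) (by positivity)
  have h2 : q ^ (2 * r ^ 2) ≤ Real.exp (-(r * b) ^ 2) := by
    have h3 : q ≤ Real.exp (-b ^ 2 / 2) := hq ▸ Phi_upper hb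
    calc q ^ (2 * r ^ 2) ≤ (Real.exp (-b ^ 2 / 2)) ^ (2 * r ^ 2) :=
          Real.rpow_le_rpow hq0.le h3 (by positivity)
      _ = Real.exp (-(r * b) ^ 2) := by
          rw [← Real.exp_mul]
          congr 1
          ring
  exact (mul_le_mul_of_nonneg_left h2 cA_pos.le).trans h1

/-! ### Convexity of the free energy -/

lemma lse {S E : Type*} [Fintype S] [Nonempty S] [AddCommGroup E] [Module ℝ E] {g : S → E → ℝ}
    (hg : ∀ s, ConvexOn ℝ univ (g s)) : ConvexOn ℝ univ fun x => Real.log (∑ s, Real.exp (g s x)) := by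
  refine ⟨convex_univ, fun x _ y _ l m hl hm hlm => ?_⟩
  have hpos : ∀ z, 0 < ∑ s, Real.exp (g s z) := fun z =>
    Finset.sum_pos (fun s _ => Real.exp_pos _) Finset.univ_nonempty
  set A := ∑ s, Real.exp (g s x) with hA
  set B := ∑ s, Real.exp (g s y) with hB
  have hA0 : 0 < A := hpos x
  have hB0 : 0 < B := hpos y
  show Real.log (∑ s, Real.exp (g s (l • x + m • y))) ≤ l • Real.log A + m • Real.log B
  rw [smul_eq_mul, smul_eq_mul, Real.log_le_iff_le_exp (hpos _)]
  have key : ∀ s, Real.exp (g s (l • x + m • y)) ≤ Real.exp (l * Real.log A + m * Real.log B) *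
      (l * (Real.exp (g s x) / A) + m * (Real.exp (g s y) / B)) := fun s => by
    have h1 := (hg s).2 (mem_univ x) (mem_univ y) hl hm hlm
    have h2 := convexOn_exp.2 (mem_univ (g s x - Real.log A)) (mem_univ (g s y - Real.log B)) hl hm hlm
    simp only [smul_eq_mul] at h1 h2
    rw [Real.exp_sub, Real.exp_sub, Real.exp_log hA0, Real.exp_log hB0] at h2
    calc Real.exp (g s (l • x + m • y)) ≤ Real.exp (l * g s x + m * g s y) := Real.exp_le_exp.2 h1
      _ = Real.exp (l * Real.log A + m * Real.log B) *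
            Real.exp (l * (g s x - Real.log A) + m * (g s y - Real.log B)) := by
          rw [← Real.exp_add]
          congr 1
          ring
      _ ≤ _ := mul_le_mul_of_nonneg_left h2 (Real.exp_pos _).le
  calc ∑ s, Real.exp (g s (l • x + m • y)) ≤ ∑ s, Real.exp (l * Real.log A + m * Real.log B) *
        (l * (Real.exp (g s x) / A) + m * (Real.exp (g s y) / B)) := Finset.sum_le_sum fun s _ => key s
    _ = Real.exp (l * Real.log A + m * Real.log B) * (l * (A / A) + m * (B / B)) := by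
        rw [← Finset.mul_sum, Finset.sum_add_distrib, ← Finset.mul_sum, ← Finset.mul_sum, ← Finset.sum_div,
          ← Finset.sum_div]
    _ = _ := by
        rw [div_self hA0.ne', div_self hB0.ne', mul_one, mul_one, hlm, mul_one]

variable {d : ℕ}

open Classical in
/-- the environment with given values on a finite set of sites -/
noncomputable def ex (I : Finset (ℕ × Site d)) (y : I → ℝ) : Env d := fun p => if h : p ∈ I then y ⟨p, h⟩ else 0

/-- the sites of the walks of length `m` -/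
noncomputable def Is (d m : ℕ) : Finset (ℕ × Site d) := Finset.range (m + 1) ×ˢ boxF d m

lemma energy_ex {m : ℕ} (η : Env d) (s : Fin m → Step d) :
    energy (ex (Is d m) ((Is d m).restrict η)) s = energy η s := by
  unfold energy
  refine Finset.sum_congr rfl fun i _ => ?_
  have h : (((i : ℕ) + 1, pos s (i + 1)) : ℕ × Site d) ∈ Is d m := by
    unfold Is
    rw [Finset.mem_product]
    refine ⟨Finset.mem_range.2 (by have := i.2; show (i : ℕ) + 1 < m + 1; omega), pos_mem_box s _⟩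
  unfold ex
  rw [dif_pos h]
  rfl

lemma X_ex (β : ℝ) (h : Vec d) (η : Env d) (m : ℕ) :
    X β h (ex (Is d m) ((Is d m).restrict η)) m = X β h η m := by
  unfold X Z ZT wgt
  simp only [energy_ex, mem_univ, if_true]

/-- the free energy as a function of the values -/
noncomputable def Y (β : ℝ) (h : Vec d) (m : ℕ) (y : Is d m → ℝ) : ℝ := X β h (ex (Is d m) y) m

lemma Y_eq (β : ℝ) (h : Vec d) (m : ℕ) (y : Is d m → ℝ) : Y β h m y =
    Real.log (∑ s : Fin m → Step d, Real.exp (inner ℝ h (emb (pos s m)) + β * energy (ex (Is d m) y) s)) := by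
  unfold Y X Z ZT wgt
  simp

lemma ex_cont (I : Finset (ℕ × Site d)) (p : ℕ × Site d) : Continuous fun y : I → ℝ => ex I y p := by
  unfold ex
  by_cases hp : p ∈ I
  · simp only [hp, dif_pos]
    fun_prop
  · simp only [hp, dif_neg, not_false_iff]
    fun_prop

lemma energy_cont {I : Finset (ℕ × Site d)} {m : ℕ} (s : Fin m → Step d) :
    Continuous fun y : I → ℝ => energy (ex I y) s := by
  unfold energy
  exact continuous_finsetSum _ fun i _ => ex_cont I _

lemma Y_cont (β : ℝ) (h : Vec d) (m : ℕ) [Nonempty (Fin m → Step d)] : Continuous (Y β h m) := by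
  have e : Y β h m = fun y => Real.log (∑ s : Fin m → Step d,
      Real.exp (inner ℝ h (emb (pos s m)) + β * energy (ex (Is d m) y) s)) := funext fun y => Y_eq β h m y
  rw [e]
  refine Continuous.log ?_ fun y => (Finset.sum_pos (fun s _ => Real.exp_pos _) Finset.univ_nonempty).ne'
  exact continuous_finsetSum _ fun s _ =>
    Real.continuous_exp.comp (continuous_const.add (continuous_const.mul (energy_cont s)))

lemma ex_conv {φ : ℝ → ℝ} (hφ : ConvexOn ℝ univ φ) (I : Finset (ℕ × Site d)) (p : ℕ × Site d) :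
    ConvexOn ℝ univ fun x : I → ℝ => ex I (fun i => φ (x i)) p := by
  unfold ex
  by_cases hp : p ∈ I
  · simp only [hp, dif_pos]
    refine ⟨convex_univ, fun x _ y _ l m hl hm hlm => ?_⟩
    exact hφ.2 (mem_univ _) (mem_univ _) hl hm hlm
  · simp only [hp, dif_neg, not_false_iff]
    exact convexOn_const 0 convex_univ

lemma energy_conv {φ : ℝ → ℝ} (hφ : ConvexOn ℝ univ φ) (I : Finset (ℕ × Site d)) {m : ℕ}
    (s : Fin m → Step d) : ConvexOn ℝ univ fun x : I → ℝ => energy (ex I fun i => φ (x i)) s := by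
  refine ⟨convex_univ, fun x _ y _ l k hl hk hlk => ?_⟩
  show energy _ s ≤ l • energy _ s + k • energy _ s
  unfold energy
  rw [smul_eq_mul, smul_eq_mul, Finset.mul_sum, Finset.mul_sum, ← Finset.sum_add_distrib]
  refine Finset.sum_le_sum fun i _ => ?_
  exact (ex_conv hφ I _).2 (mem_univ x) (mem_univ y) hl hk hlk

lemma Y_conv {φ : ℝ → ℝ} (hφ : ConvexOn ℝ univ φ) {β : ℝ} (hβ : 0 ≤ β) (h : Vec d) (m : ℕ)
    [Nonempty (Fin m → Step d)] : ConvexOn ℝ univ fun x : Is d m → ℝ => Y β h m fun i => φ (x i) := by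
  simp only [Y_eq]
  refine lse fun s => ?_
  exact (convexOn_const _ convex_univ).add ((energy_conv hφ (Is d m) s).smul hβ)

lemma X_law {ρ : Measure ℝ} [IsProbabilityMeasure ρ] {φ : ℝ → ℝ} (hφ : Continuous φ)
    (hρ : ρ = (gaussianReal 0 1).map φ) (β : ℝ) (h : Vec d) (m : ℕ) [Nonempty (Fin m → Step d)]
    {T : Set ℝ} (hT : MeasurableSet T) : (law d ρ).real {η | X β h η m ∈ T} =
      (Ehr.gpi (Is d m)).real {x | (Y β h m fun i => φ (x i)) ∈ T} := by
  have h1 : (law d ρ).map (Is d m).restrict = Measure.pi fun _ : Is d m => ρ :=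
    Measure.infinitePi_map_restrict _
  have h2 : (Ehr.gpi (Is d m)).map (fun x i => φ (x i)) = Measure.pi fun _ : Is d m => ρ := by
    have := Measure.pi_map_pi (μ := fun _ : Is d m => Ehr.ga) (f := fun _ => φ)
      (fun _ => hφ.measurable.aemeasurable)
    rw [hρ]
    exact this
  have mY : MeasurableSet {y | Y β h m y ∈ T} := (Y_cont β h m).measurable hT
  have h3 : (law d ρ).real {η | X β h η m ∈ T} = (Measure.pi fun _ : Is d m => ρ).real {y | Y β h m y ∈ T} := by
    rw [← h1, map_measureReal_apply (Finset.measurable_restrict _) mY]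
    congr 1
    ext η
    show X β h η m ∈ T ↔ Y β h m _ ∈ T
    unfold Y
    rw [X_ex]
  rw [h3, ← h2, map_measureReal_apply (by fun_prop) mY]
  rfl

end Pool.Agent.W_7d29a1_SP.A84

namespace Pool.Agent.W_7d29a1_SP

open MeasureTheory ProbabilityTheory Filter Topology Set Pool.Agent.W_MP_7d29a1_pr
  Pool.Agent.W_7d29a1_h46 Pool.Agent.W_7d29a1_h46u A84

/-- **AMP**: amplification of the upper deviations. -/
theorem amp84 {d : ℕ} (hd : 0 < d) {ρ : Measure ℝ} [IsProbabilityMeasure ρ] (hG : GC ρ) {β : ℝ} (hβ : 0 ≤ β) :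
    AmpP d ρ β := by
  obtain ⟨φ, hφ, hρ⟩ := hG
  have hc : Continuous φ := by
    rw [← continuousOn_univ]
    exact hφ.continuousOn isOpen_univ
  intro t ht
  refine ⟨2 * (1 + 2 * t) ^ 2, cA, by nlinarith, cA_pos, fun h m s₀ s₁ q hq hs h0 h1 => ?_⟩
  have : Nonempty (Fin m → Step d) := ⟨fun _ => (⟨⟨0, hd⟩, true⟩ : Step d)⟩
  have e0 := X_law hc hρ β h m (T := Iic s₀) measurableSet_Iic
  have e1 := X_law hc hρ β h m (T := Ioi s₁) measurableSet_Ioi
  have e1' := X_law hc hρ β h m (T := Iic s₁) measurableSet_Iic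
  have e2 := X_law hc hρ β h m (T := Ioi (s₁ + t * (s₁ - s₀))) measurableSet_Ioi
  have e2' := X_law hc hρ β h m (T := Iic (s₁ + t * (s₁ - s₀))) measurableSet_Iic
  simp only [mem_Iic, mem_Ioi] at e0 e1 e1' e2 e2'
  have mX := measurable_X (d := d) β h m
  have c1 : (law d ρ).real {η | X β h η m ≤ s₁} = 1 - (law d ρ).real {η | s₁ < X β h η m} := by
    rw [← probReal_compl_eq_one_sub (measurableSet_lt measurable_const mX)]
    congr 1
    ext η
    simp
  have c2 : (law d ρ).real {η | X β h η m ≤ s₁ + t * (s₁ - s₀)} =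
      1 - (law d ρ).real {η | s₁ + t * (s₁ - s₀) < X β h η m} := by
    rw [← probReal_compl_eq_one_sub (measurableSet_lt measurable_const mX)]
    congr 1
    ext η
    simp
  have hmono : (law d ρ).real {η | X β h η m ≤ s₀} ≤ (law d ρ).real {η | X β h η m ≤ s₁} :=
    measureReal_mono fun η (hη : X β h η m ≤ s₀) => hη.trans hs
  have hq2 : q ≤ 1 / 2 := by linarith
  obtain ⟨a, ha⟩ := Ehr.exists_Phi hq (by linarith)
  have ha0 : a ≤ 0 := by
    by_contra hcon
    push Not at hcon
    have h5 := Phi_add a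
    have h6 : Ehr.Phi (-a) < Ehr.Phi a := Ehr.Phi_strictMono (by linarith)
    linarith
  have h7 := Ehr.luck (Y_conv hφ hβ h m) ((Y_cont β h m).comp (by fun_prop)) (a := a) (b := -a) (s0 := s₀) (s1 := s₁)
    (t := t) (by linarith) (by rw [ha, ← e0]; exact h0) (by
      have h5 := Phi_add a
      rw [← e1', c1]
      linarith)
  rw [← e2', c2] at h7
  have h8 : Ehr.Phi (-a + t * (-a - a)) + Ehr.Phi (-((1 + 2 * t) * (-a))) = 1 := by
    have := Phi_add ((1 + 2 * t) * (-a))
    rw [show -a + t * (-a - a) = (1 + 2 * t) * (-a) by ring]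
    linarith
  have h9 := Phi_amp (b := -a) (r := 1 + 2 * t) (q := q) (by linarith) (by linarith) (by rw [neg_neg]; exact ha)
  linarith

end Pool.Agent.W_7d29a1_SP
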