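import Pool.Agent.W_7d29a1_R34.DefsR34

/-!
Superpolylogarithmic variance in two transversal dimensions: definitions and frozen statements of
the leaves (helper15).
-/

namespace Pool.Agent.W_7d29a1_SP

open MeasureTheory ProbabilityTheory Filter Topology Pool.Agent.W_MP_7d29a1_pr
  Pool.Agent.W_7d29a1_h46 Pool.Agent.W_7d29a1_h46u Pool.Agent.W_7d29a1_D2.B35
  Pool.Agent.W_7d29a1_Q29 Pool.Agent.W_7d29a1_R34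

/-- The nonrandom fluctuation. -/
noncomputable def En {d : ℕ} (ρ : Measure ℝ) (β : ℝ) (h : Vec d) (n : ℕ) : ℝ :=
  n * lam ρ β h - A ρ β h n

/-- The random fluctuation. -/
noncomputable def Fn {d : ℕ} (ρ : Measure ℝ) (β : ℝ) (h : Vec d) (n : ℕ) : ℝ :=
  ∫ η, |X β h η n - A ρ β h n| ∂(law d ρ)

/-- The law of a convex function of a Gaussian variable. -/
def GC (ρ : Measure ℝ) : Prop :=
  ∃ φ : ℝ → ℝ, ConvexOn ℝ Set.univ φ ∧ ρ = (gaussianReal 0 1).map φ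

section Leaves

variable (d : ℕ) (ρ : Measure ℝ) (β : ℝ)

open Classical in
/-- The end point is localised at a positive fraction of the times. -/
def Loc1 {d : ℕ} (ρ : Measure ℝ) (β : ℝ) (h : Vec d) (c₀ : ℝ) : Prop := ∀ n : ℕ,
  c₀ * n ≤ (((Finset.range n).filter fun t =>
    c₀ ≤ (law d ρ).real {η | ∃ y ∈ boxF d t, c₀ * Z β h η t ≤ PP β h η t y}).card : ℝ)

/-- CNT: counting in time. -/
def CntP : Prop := ∀ c₀ : ℝ, 0 < c₀ → ∃ C : ℝ, 1 ≤ C ∧ ∀ h : Vec d, Loc1 ρ β h c₀ →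
  ∀ (m T : ℕ) (x q Φ : ℝ), 1 ≤ m → 0 < q →
    q ≤ (law d ρ).real {η | A ρ β h m + x ≤ X β h η m} → C * m / q ≤ T →
    (∀ k : ℕ, k ≤ T → En ρ β h k ≤ Φ ∧ Fn ρ β h k ≤ Φ) → x ≤ C * (Φ + 1)

/-- AMP: amplification of the upper deviations. -/
def AmpP : Prop := ∀ t : ℝ, 1 ≤ t → ∃ C c : ℝ, 1 ≤ C ∧ 0 < c ∧
  ∀ (h : Vec d) (m : ℕ) (s₀ s₁ q : ℝ), 0 < q → s₀ ≤ s₁ →
    q ≤ (law d ρ).real {η | X β h η m ≤ s₀} → q ≤ (law d ρ).real {η | s₁ < X β h η m} →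
    c * q ^ C ≤ (law d ρ).real {η | s₁ + t * (s₁ - s₀) < X β h η m}

/-- LUCK (`d = 2`): a large gap is paid by a lucky future. -/
def LuckP : Prop := ∀ (M K δ W g : ℝ) (h v : Vec 2) (n t : ℕ), 1 ≤ M → 1 ≤ K → 0 < δ → δ ≤ 1 →
  1 ≤ t → t ≤ n → 0 < W → W ≤ δ ^ 4 * Real.sqrt t → Va ρ β h n ≤ K → Va ρ β h (n - t) ≤ K →
  (∀ g : Vec 2, A ρ β h t + inner ℝ v (g - h) ≤ A ρ β g t) →
  (∀ r : ℝ, 0 < r → r ≤ δ → ∀ (j : Fin 2) (s : ℝ), (s = 1 ∨ s = -1) →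
    ∃ g : Vec 2, ‖g - h - (s * r) • ej j‖ ≤ r / 9 ∧ Va ρ β g t ≤ K) →
  (∀ k : ℕ, rw' M W t k ≤ δ → ∀ j : Fin 2, A ρ β (h + (2 * rw' M W t k) • ej j) t +
    A ρ β (h - (2 * rw' M W t k) • ej j) t - 2 * A ρ β h t ≤ M * 2 ^ k * t * rw' M W t k ^ 2) →
  22 * 10 ^ 4 * M ^ 2 * K / W ^ 4 + 15000 * M * Real.sqrt (K * t * St ρ β h n t) / W ≤ 1 / 8 →
  12 ≤ g → g ≤ A ρ β h n - A ρ β h t - A ρ β h (n - t) →
  Fn ρ β h n + Fn ρ β h t ≤ g / 32 →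
  1 / 4 ≤ 9 * (W ^ 2 * t + 1) * St ρ β h n t *
    (law 2 ρ).real {η | A ρ β h (n - t) + g / 4 < X β h η (n - t)}

/-- SEQ: subadditive sequences. -/
def SeqP : Prop := ∀ (E : ℕ → ℝ) (C : ℝ), E 0 = 0 → (∀ n : ℕ, 0 ≤ E n) →
  (∀ a b : ℕ, E (a + b) ≤ E a + E b) → (∀ n : ℕ, E n ≤ C * (n : ℝ) ^ (49 / 100 : ℝ)) →
  ∀ n k : ℕ, k ≤ n → 0 < E k → ∃ (N : ℕ) (e : ℝ), 1 ≤ N ∧ 0 < e ∧ (∀ t : ℕ, t ≤ N → E t ≤ 2 * e) ∧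
    (∃ t : ℕ, t ≤ N ∧ e ≤ E t) ∧ E k ≤ 2 * e ∧ N * E k ^ 2 ≤ n * (2 * e) ^ 2 ∧
    (1000 ≤ N → ∃ (L : ℕ) (S : Finset ℕ), (N : ℝ) / 200 ≤ S.card ∧ ∀ t ∈ S, t ≤ L ∧
      (N : ℝ) / 1000 ≤ t ∧ t ≤ N ∧ (N : ℝ) / 1000 ≤ (L - t : ℕ) ∧ L - t ≤ N ∧
      e / 20 ≤ E t + E (L - t) - E L)

/-- RATE (`d = 2`): the rate of the nonrandom fluctuation at almost every tilt. -/
def RateP : Prop := ∀ᵐ h : Vec 2, VSD ρ β h → ∃ R : ℝ, ∀ n : ℕ,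
  En ρ β h n ≤ R * (n : ℝ) ^ (49 / 100 : ℝ)

/-- CURV (`d = 2`): second differences of the mean free energy at almost every tilt. -/
def CurvP : Prop := ∀ᵐ h : Vec 2, ∃ M δ : ℝ, 0 < δ ∧ ∀ r : ℝ, 0 < r → r ≤ δ → ∀ j : Fin 2,
  lam ρ β (h + r • ej j) + lam ρ β (h - r • ej j) - 2 * lam ρ β h ≤ M * r ^ 2

/-- The data of a good point (`d = 2`). -/
structure Pt (ρ : Measure ℝ) (β : ℝ) (h : Vec 2) (g M δ Q c R : ℝ) : Prop where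
  gap : lam ρ β h + g ≤ Real.log (Phi h) + Real.log (∫ t, Real.exp (β * t) ∂ρ)
  curv : ∀ r : ℝ, 0 < r → r ≤ δ → ∀ j : Fin 2,
    lam ρ β (h + r • ej j) + lam ρ β (h - r • ej j) - 2 * lam ρ β h ≤ M * r ^ 2
  var : ∀ t : ℕ, Va ρ β h t ≤ Q * Real.exp (c * Real.sqrt (Real.log t))
  dens : ∀ (t : ℕ) (r : ℝ), 0 < r → r ≤ δ → ∀ (j : Fin 2) (s : ℝ), (s = 1 ∨ s = -1) →
    ∃ g : Vec 2, ‖g - h - (s * r) • ej j‖ ≤ r / 9 ∧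
      Va ρ β g t ≤ Q * Real.exp (c * Real.sqrt (Real.log t))
  rate : ∀ n : ℕ, En ρ β h n ≤ R * (n : ℝ) ^ (49 / 100 : ℝ)

/-- POINT (`d = 2`): the main argument. -/
def PointP : Prop := ∀ g M : ℝ, 0 < g → 0 < M → ∃ c : ℝ, 0 < c ∧ ∀ (h : Vec 2) (δ Q R : ℝ),
  0 < δ → ¬ Pt ρ β h g M δ Q c R

/-- The theorem (`d = 2`). -/
def MainG : Prop := ∀ᵐ h : Vec 2, VSD ρ β h → ∃ c : ℝ, 0 < c ∧ ∃ᶠ n : ℕ in atTop,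
  Real.exp (c * Real.sqrt (Real.log n)) ≤ Va ρ β h n

/-- AEG: from the points to almost every point. -/
def AegP : Prop := PointP ρ β → RateP ρ β → CurvP ρ β → MainG ρ β

end Leaves

end Pool.Agent.W_7d29a1_SP
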