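import Pool.Agent.W_7d29a1_VT.NonAll74
import Pool.Agent.W_7d29a1_V.Up46
import Pool.Agent.W_7d29a1_D2.KpzF46
import Pool.Agent.W_7d29a1_h46u.FreeV
import Pool.Agent.W_7d29a1_SP.DefsSP

/-!
The nonrandom fluctuation `n λ - E log Z_n` at almost every tilt: at most `C n ^ 0.49` for all `n`.
-/

namespace Pool.Agent.W_7d29a1_SP.Rate74

open MeasureTheory ProbabilityTheory Filter Topology Pool.Agent.W_MP_7d29a1_pr
  Pool.Agent.W_7d29a1_h46 Pool.Agent.W_7d29a1_h46u Pool.Agent.W_7d29a1_D2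
  Pool.Agent.W_7d29a1_D2.B35 Pool.Agent.W_7d29a1_V Pool.Agent.W_7d29a1_VT

variable {d : ℕ} {ρ : Measure ℝ} [IsProbabilityMeasure ρ]

omit [IsProbabilityMeasure ρ] in
/-- `E log Z_0 = 0`. -/
lemma A_zero74 (β : ℝ) (h : Vec d) : A ρ β h 0 = 0 := by
  have h1 : ∀ η : Env d, X β h η 0 = 0 := by
    intro η
    rw [X, Z_zero, Real.log_one]
  unfold A
  simp only [h1]
  exact integral_zero _ _

/-- From an eventual bound to a bound for all `n`. -/
lemma all_of_ev {E : ℕ → ℝ} (h0 : E 0 = 0) {x : ℝ} (hx : 0 < x)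
    (H : ∃ n₀ : ℕ, ∀ n : ℕ, n₀ ≤ n → E n ≤ (n : ℝ) ^ x) :
    ∃ C : ℝ, 0 ≤ C ∧ ∀ n : ℕ, E n ≤ C * (n : ℝ) ^ x := by
  obtain ⟨n₀, hn₀⟩ := H
  refine ⟨1 + ∑ k ∈ Finset.range n₀, |E k|, by positivity, fun n => ?_⟩
  rcases Nat.eq_zero_or_pos n with h1 | h1
  · subst h1
    rw [h0, Nat.cast_zero, Real.zero_rpow hx.ne', mul_zero]
  · have h2 : (1 : ℝ) ≤ n := by exact_mod_cast h1
    have h3 : (1 : ℝ) ≤ (n : ℝ) ^ x := Real.one_le_rpow h2 hx.le
    have h4 : 0 ≤ ∑ k ∈ Finset.range n₀, |E k| := Finset.sum_nonneg fun _ _ => abs_nonneg _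
    rcases lt_or_ge n n₀ with h5 | h5
    · have h6 : |E n| ≤ ∑ k ∈ Finset.range n₀, |E k| :=
        Finset.single_le_sum (f := fun k => |E k|) (fun _ _ => abs_nonneg _)
          (Finset.mem_range.2 h5)
      have h7 := le_abs_self (E n)
      nlinarith
    · have h6 := hn₀ n h5
      nlinarith

/-- **RATE**: at almost every tilt the nonrandom fluctuation is at most `C n ^ 0.49`, all `n`. -/
theorem rate74 (hd : 0 < d) (hρ : EM ρ) (β : ℝ) :
    ∀ᵐ h : Vec d, ∃ C : ℝ, 0 ≤ C ∧ ∀ n : ℕ,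
      n * lam ρ β h - A ρ β h n ≤ C * (n : ℝ) ^ (49 / 100 : ℝ) := by
  have hω : IID (law d ρ) ρ (fun p (η : Env d) => η p) := FreeV_iid
  filter_upwards [kpz46 hd hω hρ β] with h hh
  obtain ⟨v, -, hv, -⟩ := hh
  have h1 := (up46 (β := β) hd hω hρ one_le_two hv).1
  have h2 := nuT_le_nuS (μ := law d ρ) (ω := fun p (η : Env d) => η p) (β := β) hd hω h v
  have h3 : nuT (law d ρ) β (fun p (η : Env d) => η p) h v < 9 / 10 := by linarith
  have hT : TbP ρ β h v (9 / 10) := tbP53 hd hω h3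
  have hS := spaceV46 hd hρ β ‖h‖
  refine all_of_ev ?_ (by norm_num) (gap74 hd hρ (by norm_num)
    (medT hd hρ hS (by norm_num) (by norm_num) hT) (addT36 hd hρ hS (by norm_num) (by norm_num) hT)
    (varAll10 hd hρ β h v (by norm_num) (by norm_num) hT) (by norm_num) (by norm_num))
  simp [A_zero74]

/-- **RATE**, the literal of `DefsSP`. -/
theorem rateP74 (hρ : EM ρ) (β : ℝ) : RateP ρ β := by
  filter_upwards [rate74 (d := 2) two_pos hρ β] with h hh _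
  obtain ⟨C, -, hC⟩ := hh
  exact ⟨C, hC⟩

end Pool.Agent.W_7d29a1_SP.Rate74
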