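import Pool.Agent.W_7d29a1_SP.Bas15
import Pool.Agent.W_7d29a1_R34.LowG93
import Pool.Agent.W_7d29a1_Q29.Box98

/-!
LUCK (helper93): a large gap is paid by a lucky future.
-/

namespace Pool.Agent.W_7d29a1_SP

open MeasureTheory ProbabilityTheory Filter Topology Pool.Agent.W_MP_7d29a1_pr
  Pool.Agent.W_7d29a1_h46 Pool.Agent.W_7d29a1_h46u Pool.Agent.W_7d29a1_D2.B35
  Pool.Agent.W_7d29a1_Q29 Pool.Agent.W_7d29a1_R34

namespace L93

variable {d : ℕ} {ρ : Measure ℝ} [IsProbabilityMeasure ρ]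

open S98 in
/-- The mass of the positions of `R` whose future lies in the measurable set `T`. -/
theorem mass93 (hd : 0 < d) {β : ℝ} {h : Vec d} {n t : ℕ} (ht : t ≤ n)
    (R : Finset (Site d)) {N : ℝ} (hN : (R.card : ℝ) ≤ N) {T : Set ℝ} (hT : MeasurableSet T) :
    ∫ η, ∑ y ∈ R, Qt β h n t y η * T.indicator 1 (X β h (sh t y η) (n - t)) ∂(law d ρ) ≤
      Real.sqrt ((law d ρ).real {η | X β h η (n - t) ∈ T} * N * St ρ β h n t) := by
  set P : Measure (Env d) := law d ρ with hP
  set m := n - t with hm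
  set g : Site d → Env d → ℝ := fun y => cE ρ (Pa d t)ᶜ (Qt β h n t y) with hg
  set V : Site d → Env d → ℝ := fun y η => T.indicator 1 (X β h (sh t y η) m) with hV
  have hgm : ∀ y, Measurable (g y) := fun y => S98.measurable_cE (measurable_Qt β h n t y) _
  have hg0 : ∀ y η, 0 ≤ g y η := fun y η => S98.cE_nonneg (fun η => Qt_nonneg hd β h n t y η) _ η
  have hg1 : ∀ y η, g y η ≤ 1 := fun y η => cE_le_one (measurable_Qt β h n t y)
    (fun η => Qt_nonneg hd β h n t y η) (fun η => Qt_le_one hd β h ht y η) _ η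
  have hi1 : Measurable (T.indicator (1 : ℝ → ℝ)) := measurable_one.indicator hT
  have hVm : ∀ y, Measurable (V y) := fun y =>
    hi1.comp ((measurable_X β h m).comp (measurable_sh t y))
  have hV0 : ∀ y η, 0 ≤ V y η := fun y η => Set.indicator_nonneg (fun _ _ => zero_le_one) _
  have hV1 : ∀ y η, V y η ≤ 1 := fun y η => Set.indicator_le_self' (fun _ _ => zero_le_one) _
  have hV2 : ∀ y η, V y η ^ 2 = V y η := by
    intro y η
    simp only [hV]
    by_cases hx : X β h (sh t y η) m ∈ T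
    · rw [Set.indicator_of_mem hx]
      simp
    · rw [Set.indicator_of_notMem hx]
      simp
  have bdd : ∀ {F : Env d → ℝ}, Measurable F → (∀ η, 0 ≤ F η) → (∀ η, F η ≤ 1) →
      Integrable F P := by
    intro F hF h0 h1
    refine Integrable.mono' (integrable_const (1 : ℝ)) hF.aestronglyMeasurable
      (Eventually.of_forall fun η => ?_)
    rw [Real.norm_eq_abs, abs_of_nonneg (h0 η)]
    exact h1 η
  have hVi : ∀ y, Integrable (V y) P := fun y => bdd (hVm y) (hV0 y) (hV1 y)
  have hVd : ∀ y, DependsOn (V y) (Pa d t)ᶜ := by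
    intro y η η' hη
    have h1 := Zsh_dep β h t m y hη
    simp only [hV]
    unfold X
    simp only at h1
    rw [h1]
  have hQVi : ∀ y, Integrable (fun η => V y η * Qt β h n t y η) P := fun y =>
    bdd ((hVm y).mul (measurable_Qt β h n t y))
      (fun η => mul_nonneg (hV0 y η) (Qt_nonneg hd β h n t y η))
      (fun η => mul_le_one₀ (hV1 y η) (Qt_nonneg hd β h n t y η) (Qt_le_one hd β h ht y η))
  have hgVi : ∀ y, Integrable (fun η => V y η * g y η) P := fun y =>
    bdd ((hVm y).mul (hgm y)) (fun η => mul_nonneg (hV0 y η) (hg0 y η))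
      (fun η => mul_le_one₀ (hV1 y η) (hg0 y η) (hg1 y η))
  have hg2i : ∀ y, Integrable (fun η => g y η ^ 2) P := fun y =>
    bdd ((hgm y).pow_const 2) (fun η => sq_nonneg _)
      (fun η => pow_le_one₀ (hg0 y η) (hg1 y η))
  have hN0 : 0 ≤ N := (Nat.cast_nonneg _).trans hN
  have hoff : ∀ y, y ∉ boxF d n → ∀ η, g y η = 0 := by
    intro y hy η
    have hy' : y ∉ boxF d t := fun h1 => hy (boxF_mono ht h1)
    simp only [hg]
    unfold cE
    simp only [Qt_off hy']
    simp
  have hsum : ∑ y ∈ R, ∫ η, g y η ^ 2 ∂P ≤ St ρ β h n t := by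
    unfold St
    rw [integral_finsetSum _ fun y _ => hg2i y]
    classical
    have h1 : ∑ y ∈ R, ∫ η, g y η ^ 2 ∂P = ∑ y ∈ R ∩ boxF d n, ∫ η, g y η ^ 2 ∂P := by
      symm
      refine Finset.sum_subset Finset.inter_subset_left fun y hy hy' => ?_
      have h2 : y ∉ boxF d n := fun h3 => hy' (Finset.mem_inter.2 ⟨hy, h3⟩)
      simp only [hoff y h2]
      simp
    rw [h1]
    exact Finset.sum_le_sum_of_subset_of_nonneg Finset.inter_subset_right
      fun _ _ _ => integral_nonneg fun _ => sq_nonneg _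
  have hS0 : 0 ≤ St ρ β h n t := le_trans (Finset.sum_nonneg fun y _ =>
    integral_nonneg fun _ => sq_nonneg _) hsum
  have e0 : ∫ η, ∑ y ∈ R, Qt β h n t y η * T.indicator 1 (X β h (sh t y η) m) ∂P =
      ∑ y ∈ R, ∫ η, V y η * g y η ∂P := by
    have e1 : ∀ η, ∑ y ∈ R, Qt β h n t y η * T.indicator 1 (X β h (sh t y η) m) =
        ∑ y ∈ R, V y η * Qt β h n t y η := fun η =>
      Finset.sum_congr rfl fun y _ => mul_comm _ _
    simp only [e1]
    rw [integral_finsetSum _ fun y _ => hQVi y]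
    exact Finset.sum_congr rfl fun y _ => S98.int_mul_cE _ (hQVi y) (hVd y)
  have hp : ∀ y, ∫ η, V y η ∂P = P.real {η | X β h η m ∈ T} := by
    intro y
    have h1 : ∫ η, V y η ∂P = ∫ η, T.indicator 1 (X β h η m) ∂P :=
      integral_sh t y (F := fun η => T.indicator (1 : ℝ → ℝ) (X β h η m))
        (hi1.comp (measurable_X β h m))
    rw [h1]
    have h2 : (fun η : Env d => T.indicator (1 : ℝ → ℝ) (X β h η m)) =
        Set.indicator {η | X β h η m ∈ T} 1 := by
      funext η
      by_cases hx : X β h η m ∈ T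
      · rw [Set.indicator_of_mem hx, Set.indicator_of_mem (show η ∈ {η | X β h η m ∈ T} from hx)]
        simp
      · rw [Set.indicator_of_notMem hx,
          Set.indicator_of_notMem (show η ∉ {η | X β h η m ∈ T} from hx)]
    rw [h2]
    exact integral_indicator_one ((measurable_X β h m) hT)
  have hp0 : 0 ≤ P.real {η | X β h η m ∈ T} := measureReal_nonneg
  rw [e0]
  refine S98.sqrt_of_all hS0 (mul_nonneg hp0 hN0) fun s hs => ?_
  have h1 : ∀ y ∈ R, 2 * ∫ η, V y η * g y η ∂P ≤ s * ∫ η, g y η ^ 2 ∂P +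
      P.real {η | X β h η m ∈ T} / s := by
    intro y _
    have h2 : ∫ η, 2 * (V y η * g y η) ∂P ≤ ∫ η, (s * g y η ^ 2 + 1 / s * V y η) ∂P := by
      refine integral_mono ((hgVi y).const_mul 2) (((hg2i y).const_mul s).add
        ((hVi y).const_mul (1 / s))) fun η => ?_
      simp only
      have h3 := hV2 y η
      set x := V y η
      set z := g y η
      rw [← h3]
      have h5 : 0 ≤ (s * z - x) ^ 2 / s := div_nonneg (sq_nonneg _) hs.le
      have h6 : (s * z - x) ^ 2 / s = s * z ^ 2 + 1 / s * x ^ 2 - 2 * (x * z) := by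
        field_simp
        ring
      rw [h3] at h6 ⊢
      linarith
    rw [integral_const_mul, integral_add ((hg2i y).const_mul s) ((hVi y).const_mul (1 / s)),
      integral_const_mul, integral_const_mul, hp y] at h2
    rw [one_div, inv_mul_eq_div] at h2
    exact h2
  rw [Finset.mul_sum]
  refine (Finset.sum_le_sum h1).trans ?_
  rw [Finset.sum_add_distrib, ← Finset.mul_sum, Finset.sum_const, nsmul_eq_mul]
  have h9 : (R.card : ℝ) * (P.real {η | X β h η m ∈ T} / s) ≤
      P.real {η | X β h η m ∈ T} * N / s := by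
    rw [mul_div_assoc']
    refine div_le_div_of_nonneg_right ?_ hs.le
    nlinarith
  have h11 := mul_le_mul_of_nonneg_left hsum hs.le
  linarith

omit [IsProbabilityMeasure ρ] in
/-- The mass of the positions with an unlucky future. -/
lemma unl93 (hd : 0 < d) (β : ℝ) (h : Vec d) {n t : ℕ} {R : Finset (Site d)}
    (hR : R ⊆ boxF d t) (G : ℝ) (η : Env d) :
    ∑ y ∈ R, Qt β h n t y η * (Set.Iic (A ρ β h (n - t) + G)).indicator 1
      (X β h (sh t y η) (n - t)) ≤
      Real.exp (A ρ β h (n - t) + G + X β h η t - X β h η n) := by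
  have hZn := Z_pos hd β h η n
  have hZt := Z_pos hd β h η t
  have h1 : ∀ y ∈ R, Qt β h n t y η * (Set.Iic (A ρ β h (n - t) + G)).indicator 1
      (X β h (sh t y η) (n - t)) ≤
      PP β h η t y * (Real.exp (A ρ β h (n - t) + G) / Z β h η n) := by
    intro y _
    have hP := PP_nonneg β h η t y
    by_cases hx : X β h (sh t y η) (n - t) ∈ Set.Iic (A ρ β h (n - t) + G)
    · rw [Set.indicator_of_mem hx, Pi.one_apply, mul_one]
      have h2 : Z β h (sh t y η) (n - t) ≤ Real.exp (A ρ β h (n - t) + G) := by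
        have h3 := Real.exp_le_exp.2 (Set.mem_Iic.1 hx)
        unfold X at h3
        rwa [Real.exp_log (Z_pos hd β h _ _)] at h3
      unfold Qt
      rw [mul_div_assoc]
      exact mul_le_mul_of_nonneg_left (div_le_div_of_nonneg_right h2 hZn.le) hP
    · rw [Set.indicator_of_notMem hx, mul_zero]
      exact mul_nonneg hP (div_nonneg (Real.exp_pos _).le hZn.le)
  refine (Finset.sum_le_sum h1).trans ?_
  rw [← Finset.sum_mul]
  have h2 : ∑ y ∈ R, PP β h η t y ≤ Z β h η t := by
    rw [Z_eq_sum]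
    exact Finset.sum_le_sum_of_subset_of_nonneg hR fun y _ _ => PP_nonneg β h η t y
  have h3 : Real.exp (A ρ β h (n - t) + G + X β h η t - X β h η n) =
      Z β h η t * (Real.exp (A ρ β h (n - t) + G) / Z β h η n) := by
    rw [Real.exp_sub, Real.exp_add]
    unfold X
    rw [Real.exp_log hZn, Real.exp_log hZt]
    ring
  rw [h3]
  exact mul_le_mul_of_nonneg_right h2 (div_nonneg (Real.exp_pos _).le hZn.le)

omit [IsProbabilityMeasure ρ] in
/-- The pointwise inequality. -/
lemma point93 (hd : 0 < d) (β : ℝ) (h : Vec d) {n t : ℕ} (ht : t ≤ n) {R : Finset (Site d)}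
    (hR : R ⊆ boxF d t) {g : ℝ} (hg : 12 ≤ g)
    (hgap : g ≤ A ρ β h n - A ρ β h t - A ρ β h (n - t)) (η : Env d) :
    ∑ y ∈ R, Qt β h n t y η ≤ ∑ y ∈ R, Qt β h n t y η *
      (Set.Ioi (A ρ β h (n - t) + g / 4)).indicator 1 (X β h (sh t y η) (n - t)) +
      (1 / 20 + (2 / g * |X β h η n - A ρ β h n| + 2 / g * |X β h η t - A ρ β h t|)) := by
  have hg0 : 0 < g := by linarith
  have hsplit : ∑ y ∈ R, Qt β h n t y η = ∑ y ∈ R, Qt β h n t y η *
      (Set.Ioi (A ρ β h (n - t) + g / 4)).indicator 1 (X β h (sh t y η) (n - t)) +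
      ∑ y ∈ R, Qt β h n t y η * (Set.Iic (A ρ β h (n - t) + g / 4)).indicator 1
      (X β h (sh t y η) (n - t)) := by
    rw [← Finset.sum_add_distrib]
    refine Finset.sum_congr rfl fun y _ => ?_
    by_cases hx : X β h (sh t y η) (n - t) ∈ Set.Iic (A ρ β h (n - t) + g / 4)
    · rw [Set.indicator_of_mem hx, Set.indicator_of_notMem (by
        rw [Set.mem_Ioi]
        exact not_lt.2 (Set.mem_Iic.1 hx))]
      simp
    · rw [Set.indicator_of_notMem hx, Set.indicator_of_mem (by
        rw [Set.mem_Ioi]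
        exact not_le.1 fun h3 => hx (Set.mem_Iic.2 h3))]
      simp
  have h1 := unl93 (ρ := ρ) (n := n) hd β h hR (g / 4) η
  have h2 : ∑ y ∈ R, Qt β h n t y η * (Set.Iic (A ρ β h (n - t) + g / 4)).indicator 1
      (X β h (sh t y η) (n - t)) ≤ 1 := by
    refine le_trans (Finset.sum_le_sum fun y _ => ?_) (sumQt_le94 hd β h ht R η)
    refine mul_le_of_le_one_right (S98.Qt_nonneg hd β h n t y η) ?_
    exact Set.indicator_le_self' (fun _ _ => zero_le_one) _
  have h3 : 0 ≤ 2 / g * |X β h η n - A ρ β h n| := by positivity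
  have h4 : 0 ≤ 2 / g * |X β h η t - A ρ β h t| := by positivity
  rw [hsplit]
  rcases le_or_gt (g / 2) (X β h η n - X β h η t - A ρ β h (n - t)) with h5 | h5
  · have h6 : Real.exp (A ρ β h (n - t) + g / 4 + X β h η t - X β h η n) ≤ 1 / 20 := by
      have h7 : Real.exp (A ρ β h (n - t) + g / 4 + X β h η t - X β h η n) ≤
          Real.exp (-3) := Real.exp_le_exp.2 (by linarith)
      refine h7.trans ?_
      rw [Real.exp_neg, inv_le_comm₀ (Real.exp_pos _) (by norm_num)]
      have h8 : (2.7182818283 : ℝ) < Real.exp 1 := Real.exp_one_gt_d9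
      have h9 : Real.exp 3 = Real.exp 1 ^ 3 := by
        rw [← Real.exp_nat_mul]
        norm_num
      rw [h9]
      have h10 : (2.7182818283 : ℝ) ^ 3 ≤ Real.exp 1 ^ 3 :=
        pow_le_pow_left₀ (by norm_num) h8.le 3
      have h11 : (20 : ℝ) ≤ 2.7182818283 ^ 3 := by norm_num
      norm_num at h10 h11 ⊢
      linarith
    linarith
  · have h6 : g / 2 ≤ |X β h η n - A ρ β h n| + |X β h η t - A ρ β h t| := by
      have h7 := neg_abs_le (X β h η n - A ρ β h n)
      have h8 := le_abs_self (X β h η t - A ρ β h t)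
      linarith
    have h9 : 1 ≤ 2 / g * |X β h η n - A ρ β h n| + 2 / g * |X β h η t - A ρ β h t| := by
      rw [← mul_add, div_mul_eq_mul_div, le_div_iff₀ hg0]
      linarith
    linarith

end L93

/-- **LUCK.** A large gap is paid by a lucky future. -/
theorem luck93 {ρ : Measure ℝ} [IsProbabilityMeasure ρ] (hρ : EM ρ) {β : ℝ}
    (hL : LeakR ρ β) : LuckP ρ β := by
  classical
  intro M K δ W g h v n t hM hK hδ hδ1 ht htn hW hWt hn hnt hv hdens hsd hleak hg hgap hF
  have hg0 : 0 < g := by linarith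
  have h1 := (hL M K δ W h v n t hM hK hδ hδ1 ht htn hW hWt hn hnt hv hdens hsd).trans hleak
  obtain ⟨R, hRdef⟩ : ∃ R, R = (boxF 2 t).filter
      (fun y => ∀ j, |(emb y - v) j| < W * Real.sqrt t) := ⟨_, rfl⟩
  rw [← hRdef] at h1
  have hR : R ⊆ boxF 2 t := by
    rw [hRdef]
    exact Finset.filter_subset _ _
  have hst2 : Real.sqrt t ^ 2 = t := Real.sq_sqrt (Nat.cast_nonneg t)
  have hst0 : 0 ≤ Real.sqrt t := Real.sqrt_nonneg _
  have hw0 : 0 ≤ W * Real.sqrt t := mul_nonneg hW.le hst0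
  have hcard : (R.card : ℝ) ≤ 9 * (W ^ 2 * t + 1) := by
    have h2 : (R.card : ℝ) ≤ ((ballW v (W * Real.sqrt t)).card : ℝ) := by
      rw [hRdef]
      exact_mod_cast Finset.card_le_card (win_sub93 v t _)
    have h3 := card_ballW (d := 2) v (w := W * Real.sqrt t) hw0
    have h4 : (2 * (W * Real.sqrt t) + 1) ^ 2 ≤ 9 * (W ^ 2 * t + 1) := by
      have h5 : (W * Real.sqrt t) ^ 2 = W ^ 2 * t := by rw [mul_pow, hst2]
      rw [← h5]
      nlinarith [sq_nonneg (W * Real.sqrt t - 1)]
    linarith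
  have h2 := L93.mass93 (ρ := ρ) (d := 2) (by norm_num) (β := β) (h := h) htn R hcard
    (T := Set.Ioi (A ρ β h (n - t) + g / 4)) measurableSet_Ioi
  have hset : {η : Env 2 | X β h η (n - t) ∈ Set.Ioi (A ρ β h (n - t) + g / 4)} =
      {η | A ρ β h (n - t) + g / 4 < X β h η (n - t)} := rfl
  rw [hset] at h2
  -- the integral of the pointwise inequality
  have hQi : ∀ y ∈ R, Integrable (fun η => Qt β h n t y η) (law 2 ρ) := fun y _ =>
    Integrable.mono' (integrable_const (1 : ℝ)) (S98.measurable_Qt β h n t y).aestronglyMeasurable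
      (Eventually.of_forall fun η => by
        rw [Real.norm_eq_abs]
        exact S98.Qt_abs (by norm_num) β h htn y η)
  have hsumi : Integrable (fun η => ∑ y ∈ R, Qt β h n t y η) (law 2 ρ) :=
    integrable_finsetSum R hQi
  have h5 : ∫ η, (1 - ∑ y ∈ R, Qt β h n t y η) ∂(law 2 ρ) =
      1 - ∫ η, ∑ y ∈ R, Qt β h n t y η ∂(law 2 ρ) := by
    rw [integral_sub (integrable_const _) hsumi]
    simp
  rw [h5] at h1
  have hi1 : Measurable ((Set.Ioi (A ρ β h (n - t) + g / 4)).indicator (1 : ℝ → ℝ)) :=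
    measurable_one.indicator measurableSet_Ioi
  have hLi : Integrable (fun η => ∑ y ∈ R, Qt β h n t y η *
      (Set.Ioi (A ρ β h (n - t) + g / 4)).indicator 1 (X β h (sh t y η) (n - t)))
      (law 2 ρ) := by
    refine integrable_finsetSum R fun y _ => ?_
    refine Integrable.mono' (integrable_const (1 : ℝ))
      ((S98.measurable_Qt β h n t y).mul
        (hi1.comp ((measurable_X β h (n - t)).comp (measurable_sh t y)))).aestronglyMeasurable
      (Eventually.of_forall fun η => ?_)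
    have h0 : 0 ≤ (Set.Ioi (A ρ β h (n - t) + g / 4)).indicator (1 : ℝ → ℝ)
        (X β h (sh t y η) (n - t)) := Set.indicator_nonneg (fun _ _ => zero_le_one) _
    have h3 : (Set.Ioi (A ρ β h (n - t) + g / 4)).indicator (1 : ℝ → ℝ)
        (X β h (sh t y η) (n - t)) ≤ 1 :=
      Set.indicator_le_self' (fun _ _ => zero_le_one) _
    have h4 := S98.Qt_nonneg (d := 2) (by norm_num) β h n t y η
    rw [Real.norm_eq_abs, abs_of_nonneg (mul_nonneg h4 h0)]
    exact mul_le_one₀ (S98.Qt_le_one (by norm_num) β h htn y η) h0 h3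
  have hA1 := (intX15 (ρ := ρ) (d := 2) (by norm_num) hρ β h n).abs.const_mul (2 / g)
  have hA2 := (intX15 (ρ := ρ) (d := 2) (by norm_num) hρ β h t).abs.const_mul (2 / g)
  have hA3 : Integrable (fun η : Env 2 => 2 / g * |X β h η n - A ρ β h n| +
      2 / g * |X β h η t - A ρ β h t|) (law 2 ρ) := hA1.add hA2
  have hA4 : Integrable (fun η : Env 2 => 1 / 20 + (2 / g * |X β h η n - A ρ β h n| +
      2 / g * |X β h η t - A ρ β h t|)) (law 2 ρ) := (integrable_const (1 / 20 : ℝ)).add hA3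
  have h6 := integral_mono hsumi (hLi.add hA4)
    (fun η => L93.point93 (ρ := ρ) (by norm_num) β h htn hR hg hgap η)
  have h7 : ∫ η, (∑ y ∈ R, Qt β h n t y η *
      (Set.Ioi (A ρ β h (n - t) + g / 4)).indicator 1 (X β h (sh t y η) (n - t)) +
      (1 / 20 + (2 / g * |X β h η n - A ρ β h n| + 2 / g * |X β h η t - A ρ β h t|)))
      ∂(law 2 ρ) = ∫ η, ∑ y ∈ R, Qt β h n t y η *
      (Set.Ioi (A ρ β h (n - t) + g / 4)).indicator 1 (X β h (sh t y η) (n - t)) ∂(law 2 ρ) +
      (1 / 20 + (2 / g * Fn ρ β h n + 2 / g * Fn ρ β h t)) := by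
    rw [integral_add hLi hA4, integral_add (integrable_const _) hA3, integral_add hA1 hA2,
      integral_const_mul, integral_const_mul]
    simp [Fn]
  have h8 := h6.trans (le_of_eq h7)
  have h9 : 2 / g * Fn ρ β h n + 2 / g * Fn ρ β h t ≤ 1 / 16 := by
    rw [← mul_add, div_mul_eq_mul_div, div_le_iff₀ hg0]
    linarith
  obtain ⟨Y, hY⟩ : ∃ Y, Y = (law 2 ρ).real {η | A ρ β h (n - t) + g / 4 < X β h η (n - t)} *
      (9 * (W ^ 2 * t + 1)) * St ρ β h n t := ⟨_, rfl⟩
  rw [← hY] at h2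
  have h10 : 1 / 2 ≤ Real.sqrt Y := by linarith
  have h11 : 1 / 4 ≤ Y := by
    have h12 : 0 < Y := by
      by_contra hcon
      rw [Real.sqrt_eq_zero_of_nonpos (not_lt.1 hcon)] at h10
      linarith
    have h13 := Real.sq_sqrt h12.le
    nlinarith
  rw [hY] at h11
  linarith

end Pool.Agent.W_7d29a1_SP
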