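import Pool.Agent.W_7d29a1_SP.DefsSP2
import Pool.Agent.W_7d29a1_Q29.Brid72
import Pool.Agent.W_7d29a1_Q29.Pt94

/-!
Luck at a good point (helper96): the leaf LK.
-/

namespace Pool.Agent.W_7d29a1_SP

open MeasureTheory ProbabilityTheory Filter Topology Pool.Agent.W_MP_7d29a1_pr
  Pool.Agent.W_7d29a1_h46 Pool.Agent.W_7d29a1_h46u Pool.Agent.W_7d29a1_D2.B35
  Pool.Agent.W_7d29a1_Q29 Pool.Agent.W_7d29a1_R34

variable {ρ : Measure ℝ}

lemma kap_mono96 {Q c : ℝ} (hQ : 0 ≤ Q) (hc : 0 ≤ c) {a b : ℕ} (hab : a ≤ b) :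
    kap Q c a ≤ kap Q c b := by
  unfold kap
  refine mul_le_mul_of_nonneg_left ?_ hQ
  rw [Real.exp_le_exp]
  refine mul_le_mul_of_nonneg_left ?_ hc
  refine Real.sqrt_le_sqrt ?_
  rcases Nat.eq_zero_or_pos a with ha | ha
  · subst ha
    simp only [Nat.cast_zero, Real.log_zero]
    exact Real.log_natCast_nonneg b
  · exact Real.log_le_log (by exact_mod_cast ha) (by exact_mod_cast hab)

lemma kap_one96 {Q c : ℝ} (hQ : 1 ≤ Q) (hc : 0 ≤ c) (a : ℕ) : 1 ≤ kap Q c a := by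
  unfold kap
  have h1 : 1 ≤ Real.exp (c * Real.sqrt (Real.log a)) :=
    Real.one_le_exp (mul_nonneg hc (Real.sqrt_nonneg _))
  nlinarith

/-- The window is small for large `N`. -/
lemma winN96 {C₁ Q c R δ : ℝ} (hC₁ : 0 ≤ C₁) (hQ : 1 ≤ Q) (hc1 : c ≤ 1)
    (hδ : 0 < δ) : ∃ N₀ : ℕ, 1000 ≤ N₀ ∧ ∀ N : ℕ, N₀ ≤ N → ∀ e : ℝ,
      e ≤ |R| * (N : ℝ) ^ (49 / 100 : ℝ) →
      C₁ * (kap Q c (2 * N) + Real.sqrt e) ≤ δ * Real.sqrt ((N : ℝ) / 1000) := by
  obtain ⟨D, hD⟩ : ∃ D, D = 32 * C₁ * (2 * Q + Real.sqrt |R|) / δ := ⟨_, rfl⟩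
  have hD0 : 0 ≤ D := by
    rw [hD]
    have := Real.sqrt_nonneg |R|
    positivity
  refine ⟨max 1000 (⌈Real.exp 16⌉₊ + ⌈D ^ 4⌉₊), le_max_left _ _, ?_⟩
  intro N hN e he
  have hN1 : 1000 ≤ N := le_trans (le_max_left _ _) hN
  have hN2 : ⌈Real.exp 16⌉₊ + ⌈D ^ 4⌉₊ ≤ N := le_trans (le_max_right _ _) hN
  have hN1' : (1000 : ℝ) ≤ N := by exact_mod_cast hN1
  have hN0 : (0 : ℝ) < N := by linarith
  have hNe : Real.exp 16 ≤ N := by
    have h1 : (⌈Real.exp 16⌉₊ : ℝ) ≤ N := by exact_mod_cast le_trans (Nat.le_add_right _ _) hN2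
    exact le_trans (Nat.le_ceil _) h1
  have hND : D ^ 4 ≤ N := by
    have h1 : (⌈D ^ 4⌉₊ : ℝ) ≤ N := by exact_mod_cast le_trans (Nat.le_add_left _ _) hN2
    exact le_trans (Nat.le_ceil _) h1
  obtain ⟨s, hs⟩ : ∃ s, s = Real.sqrt (Real.sqrt N) := ⟨_, rfl⟩
  have hs0 : 0 < s := by
    rw [hs]
    exact Real.sqrt_pos.2 (Real.sqrt_pos.2 hN0)
  have hs2 : s ^ 2 = Real.sqrt N := by
    rw [hs]
    exact Real.sq_sqrt (Real.sqrt_nonneg _)
  have hs4 : s ^ 4 = N := by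
    have h1 : s ^ 4 = (s ^ 2) ^ 2 := by ring
    rw [h1, hs2]
    exact Real.sq_sqrt hN0.le
  have hDs : D ≤ s := by
    by_contra hcon
    push Not at hcon
    have h1 : s ^ 4 < D ^ 4 := pow_lt_pow_left₀ hcon hs0.le (by norm_num)
    linarith
  -- the exponential
  have hlog : Real.log N = 4 * Real.log s := by
    rw [← hs4, Real.log_pow]
    norm_num
  have hN2' : ((2 * N : ℕ) : ℝ) = 2 * (N : ℝ) := by push_cast; ring
  have hl2 : Real.log ((2 * N : ℕ) : ℝ) = Real.log 2 + Real.log N := by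
    rw [hN2', Real.log_mul (by norm_num) hN0.ne']
  have hl16 : 16 ≤ Real.log ((2 * N : ℕ) : ℝ) := by
    have h1 : (16 : ℝ) ≤ Real.log N := by
      rw [Real.le_log_iff_exp_le hN0]
      exact hNe
    have h2 := Real.log_pos (x := 2) (by norm_num)
    rw [hl2]
    linarith
  have hsq : Real.sqrt (Real.log ((2 * N : ℕ) : ℝ)) ≤ Real.log ((2 * N : ℕ) : ℝ) / 4 := by
    rw [Real.sqrt_le_left (by linarith)]
    nlinarith
  have hexp : Real.exp (c * Real.sqrt (Real.log ((2 * N : ℕ) : ℝ))) ≤ 2 * s := by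
    have h1 : c * Real.sqrt (Real.log ((2 * N : ℕ) : ℝ)) ≤ Real.log (2 * s) := by
      have h2 : c * Real.sqrt (Real.log ((2 * N : ℕ) : ℝ)) ≤
          1 * Real.sqrt (Real.log ((2 * N : ℕ) : ℝ)) :=
        mul_le_mul_of_nonneg_right hc1 (Real.sqrt_nonneg _)
      have h3 : Real.log (2 * s) = Real.log 2 + Real.log s :=
        Real.log_mul (by norm_num) hs0.ne'
      have h4 := Real.log_pos (x := 2) (by norm_num)
      rw [h3]
      rw [hl2] at hsq h2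
      rw [hl2]
      linarith
    calc Real.exp (c * Real.sqrt (Real.log ((2 * N : ℕ) : ℝ))) ≤ Real.exp (Real.log (2 * s)) :=
          Real.exp_le_exp.2 h1
      _ = 2 * s := Real.exp_log (by positivity)
  have hkap : kap Q c (2 * N) ≤ 2 * Q * s := by
    unfold kap
    calc Q * Real.exp (c * Real.sqrt (Real.log ((2 * N : ℕ) : ℝ))) ≤ Q * (2 * s) :=
          mul_le_mul_of_nonneg_left hexp (by linarith)
      _ = 2 * Q * s := by ring
  -- the square root of `e`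
  have he2 : e ≤ |R| * s ^ 2 := by
    refine he.trans (mul_le_mul_of_nonneg_left ?_ (abs_nonneg _))
    rw [hs2, Real.sqrt_eq_rpow]
    exact Real.rpow_le_rpow_of_exponent_le (by linarith) (by norm_num)
  have hse : Real.sqrt e ≤ Real.sqrt |R| * s := by
    refine (Real.sqrt_le_sqrt he2).trans ?_
    rw [Real.sqrt_mul (abs_nonneg _), Real.sqrt_sq hs0.le]
  have hlow : s ^ 2 / 32 ≤ Real.sqrt ((N : ℝ) / 1000) := by
    refine Real.le_sqrt_of_sq_le ?_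
    have h1 : (s ^ 2 / 32) ^ 2 = N / 1024 := by
      rw [← hs4]
      ring
    rw [h1]
    exact div_le_div_of_nonneg_left hN0.le (by norm_num) (by norm_num)
  have h1 : C₁ * (kap Q c (2 * N) + Real.sqrt e) ≤ C₁ * (2 * Q + Real.sqrt |R|) * s := by
    calc C₁ * (kap Q c (2 * N) + Real.sqrt e) ≤ C₁ * (2 * Q * s + Real.sqrt |R| * s) :=
          mul_le_mul_of_nonneg_left (add_le_add hkap hse) hC₁
      _ = C₁ * (2 * Q + Real.sqrt |R|) * s := by ring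
  have h2 : C₁ * (2 * Q + Real.sqrt |R|) * s ≤ δ * (s ^ 2 / 32) := by
    have h3 : 32 * C₁ * (2 * Q + Real.sqrt |R|) ≤ s * δ := by
      rw [hD, div_le_iff₀ hδ] at hDs
      exact hDs
    nlinarith
  exact h1.trans (h2.trans (mul_le_mul_of_nonneg_left hlow hδ.le))

/-- The leak is small. -/
lemma leakN96 {M K W t x C C₁ N : ℝ} (hM : 1 ≤ M) (hK : 1 ≤ K) (hC : 1 ≤ C) (ht : 0 < t)
    (htN : t ≤ N) (hx0 : 0 ≤ x) (hx : x ≤ 200 * C * K / N)
    (hC₁ : 240000 * M * Real.sqrt (200 * C) + 50 * M ≤ C₁) (hW : C₁ * K ≤ W) :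
    22 * 10 ^ 4 * M ^ 2 * K / W ^ 4 + 15000 * M * Real.sqrt (K * t * x) / W ≤ 1 / 8 := by
  have hN : 0 < N := by linarith
  have hr0 : 0 ≤ Real.sqrt (200 * C) := Real.sqrt_nonneg _
  have hMr : 0 ≤ M * Real.sqrt (200 * C) := by positivity
  have hC50 : 50 * M ≤ C₁ := by nlinarith
  have hC1p : 0 < C₁ := by linarith
  have hWp : 0 < W := by
    have : 0 < C₁ * K := by positivity
    linarith
  have h1 : Real.sqrt (K * t * x) ≤ Real.sqrt (200 * C) * K := by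
    rw [Real.sqrt_le_left (by positivity)]
    rw [mul_pow, Real.sq_sqrt (by positivity)]
    have h2 : t * x ≤ 200 * C * K := by
      calc t * x ≤ N * (200 * C * K / N) := mul_le_mul htN hx hx0 hN.le
        _ = 200 * C * K := by field_simp
    nlinarith
  have h2 : 15000 * M * Real.sqrt (K * t * x) / W ≤ 1 / 16 := by
    rw [div_le_iff₀ hWp]
    have h3 : 15000 * M * Real.sqrt (K * t * x) ≤ 15000 * M * (Real.sqrt (200 * C) * K) :=
      mul_le_mul_of_nonneg_left h1 (by positivity)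
    have h4 : 240000 * M * Real.sqrt (200 * C) * K ≤ W := by
      refine le_trans (mul_le_mul_of_nonneg_right ?_ (by linarith)) hW
      linarith
    nlinarith
  have h3 : 22 * 10 ^ 4 * M ^ 2 * K / W ^ 4 ≤ 1 / 16 := by
    rw [div_le_iff₀ (by positivity)]
    have h4 : 50 * M * K ≤ W := le_trans (mul_le_mul_of_nonneg_right hC50 (by linarith)) hW
    have h5 : (50 * M * K) ^ 4 ≤ W ^ 4 := pow_le_pow_left₀ (by positivity) h4 4
    have h6 : M ^ 2 * K ≤ (M * K) ^ 4 := by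
      have h7 : 1 ≤ M ^ 2 := one_le_pow₀ hM
      have h8 : 1 ≤ K ^ 3 := one_le_pow₀ hK
      have h9 : (M * K) ^ 4 = (M ^ 2 * K) * (M ^ 2 * K ^ 3) := by ring
      rw [h9]
      have h10 : 1 ≤ M ^ 2 * K ^ 3 := by nlinarith
      exact le_mul_of_one_le_right (by positivity) h10
    have h7 : (50 * M * K) ^ 4 = 6250000 * (M * K) ^ 4 := by ring
    nlinarith
  linarith

/-- The last numbers. -/
lemma endN96 {K W t x C C₁ N p e : ℝ} (hK : 1 ≤ K) (hC : 1 ≤ C) (hC₁ : 1 ≤ C₁)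
    (htN : t ≤ N) (hN : 1 ≤ N) (hx0 : 0 ≤ x) (hx : x ≤ 200 * C * K / N) (he : 0 ≤ e)
    (hW : W = C₁ * (K + Real.sqrt e)) (hp : 0 ≤ p)
    (h : 1 / 4 ≤ 9 * (W ^ 2 * t + 1) * x * p) :
    min (1 / 2) (1 / (28800 * C * C₁ ^ 2)) / (K * (K ^ 2 + e)) ≤ p := by
  have hse := Real.sqrt_nonneg e
  have hse2 := Real.sq_sqrt he
  have hW1 : 1 ≤ W := by
    rw [hW]
    nlinarith
  have hW2 : 1 ≤ W ^ 2 := one_le_pow₀ hW1
  have hD : 0 < K * (K ^ 2 + e) := by positivity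
  have h1 : W ^ 2 * t + 1 ≤ 2 * W ^ 2 * N := by nlinarith
  have h2 : W ^ 2 ≤ 2 * C₁ ^ 2 * (K ^ 2 + e) := by
    rw [hW, mul_pow]
    have h3 : (K + Real.sqrt e) ^ 2 ≤ 2 * (K ^ 2 + e) := by nlinarith [sq_nonneg (K - Real.sqrt e)]
    nlinarith [sq_nonneg C₁]
  have h3 : 9 * (W ^ 2 * t + 1) * x * p ≤ 7200 * C * C₁ ^ 2 * (K * (K ^ 2 + e)) * p := by
    refine mul_le_mul_of_nonneg_right ?_ hp
    calc 9 * (W ^ 2 * t + 1) * x ≤ 9 * (2 * W ^ 2 * N) * (200 * C * K / N) :=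
          mul_le_mul (by linarith) hx hx0 (by positivity)
      _ = 3600 * C * K * W ^ 2 := by
          field_simp
          ring
      _ ≤ 3600 * C * K * (2 * C₁ ^ 2 * (K ^ 2 + e)) :=
          mul_le_mul_of_nonneg_left h2 (by positivity)
      _ = 7200 * C * C₁ ^ 2 * (K * (K ^ 2 + e)) := by ring
  have h4 : 1 / (28800 * C * C₁ ^ 2) / (K * (K ^ 2 + e)) ≤ p := by
    rw [div_le_iff₀ hD, div_le_iff₀ (by positivity)]
    linarith
  exact le_trans (div_le_div_of_nonneg_right (min_le_right _ _) hD.le) h4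

/-- The second differences of the mean free energy at a good point. -/
lemma sd96 [IsProbabilityMeasure ρ] (hρ : EM ρ) {β : ℝ} {h : Vec 2} {M M' W δ δ' e : ℝ} {t : ℕ}
    (hM : 0 ≤ M) (hM' : M' = 8 * M + 8) (hδ' : 2 * δ' ≤ δ) (ht : 1 ≤ t) (he0 : 0 ≤ e)
    (hW0 : 0 < W) (hWe : 8 * M' * Real.sqrt e ≤ W)
    (hcurv : ∀ r : ℝ, 0 < r → r ≤ δ → ∀ j : Fin 2,
      lam ρ β (h + r • ej j) + lam ρ β (h - r • ej j) - 2 * lam ρ β h ≤ M * r ^ 2)
    (hE : En ρ β h t ≤ 2 * e) : ∀ k : ℕ, rw' M' W t k ≤ δ' → ∀ j : Fin 2,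
      A ρ β (h + (2 * rw' M' W t k) • ej j) t + A ρ β (h - (2 * rw' M' W t k) • ej j) t -
        2 * A ρ β h t ≤ M' * 2 ^ k * t * rw' M' W t k ^ 2 := by
  intro k hk j
  have hM1 : 1 ≤ M' := by linarith
  have ht0 : (0 : ℝ) < t := by exact_mod_cast ht
  obtain ⟨r, hr⟩ : ∃ r, r = rw' M' W t k := ⟨_, rfl⟩
  rw [← hr] at hk ⊢
  have hst : 0 < Real.sqrt t := Real.sqrt_pos.2 ht0
  have hr0 : 0 < r := by
    rw [hr]
    unfold rw'
    positivity
  have h1 := hcurv (2 * r) (by linarith) (by linarith) j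
  have h2 := A_le_lam (d := 2) (by norm_num) hρ β (h + (2 * r) • ej j) t
  have h3 := A_le_lam (d := 2) (by norm_num) hρ β (h - (2 * r) • ej j) t
  unfold En at hE
  have h5 : (t : ℝ) * (lam ρ β (h + (2 * r) • ej j) + lam ρ β (h - (2 * r) • ej j) -
      2 * lam ρ β h) ≤ t * (M * (2 * r) ^ 2) := mul_le_mul_of_nonneg_left h1 ht0.le
  have hsr := Real.sqrt_nonneg e
  have h6 : e ≤ t * r ^ 2 := by
    have h7 : (t : ℝ) * r ^ 2 = 64 ^ k * (W / (8 * M')) ^ 2 := by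
      rw [hr]
      unfold rw'
      have h8 : Real.sqrt t ^ 2 = t := Real.sq_sqrt ht0.le
      have h9 : (8 ^ k * W / (8 * M' * Real.sqrt t)) ^ 2 =
          (8 ^ k) ^ 2 * (W / (8 * M')) ^ 2 / Real.sqrt t ^ 2 := by
        field_simp
      rw [h9, h8, ← pow_mul, mul_comm k 2, pow_mul]
      norm_num
      field_simp
    rw [h7]
    have h8 : Real.sqrt e ≤ W / (8 * M') := by
      rw [le_div_iff₀ (by positivity)]
      linarith
    have h9 : e ≤ (W / (8 * M')) ^ 2 := by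
      calc e = Real.sqrt e ^ 2 := (Real.sq_sqrt he0).symm
        _ ≤ (W / (8 * M')) ^ 2 := pow_le_pow_left₀ hsr h8 2
    have h10 : (1 : ℝ) ≤ 64 ^ k := one_le_pow₀ (by norm_num)
    calc e ≤ (W / (8 * M')) ^ 2 := h9
      _ ≤ 64 ^ k * (W / (8 * M')) ^ 2 := le_mul_of_one_le_left (sq_nonneg _) h10
  have h7 : (1 : ℝ) ≤ 2 ^ k := one_le_pow₀ (by norm_num)
  have h9 : 0 ≤ t * r ^ 2 := by positivity
  have h8 : M' * (t * r ^ 2) ≤ M' * 2 ^ k * t * r ^ 2 := by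
    have h9 : M' * 2 ^ k * t * r ^ 2 = 2 ^ k * (M' * (t * r ^ 2)) := by ring
    rw [h9]
    exact le_mul_of_one_le_left (by positivity) h7
  have h10 : t * (M * (2 * r) ^ 2) + 2 * (2 * e) ≤ M' * (t * r ^ 2) := by
    have h11 : t * (M * (2 * r) ^ 2) = 4 * M * (t * r ^ 2) := by ring
    have h12 : 0 ≤ M * (t * r ^ 2) := mul_nonneg hM h9
    rw [h11, hM']
    linarith
  have h11 : A ρ β (h + (2 * r) • ej j) t + A ρ β (h - (2 * r) • ej j) t - 2 * A ρ β h t ≤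
      t * (lam ρ β (h + (2 * r) • ej j) + lam ρ β (h - (2 * r) • ej j) - 2 * lam ρ β h) +
      2 * (t * lam ρ β h - A ρ β h t) := by
    have : t * (lam ρ β (h + (2 * r) • ej j) + lam ρ β (h - (2 * r) • ej j) - 2 * lam ρ β h) =
      t * lam ρ β (h + (2 * r) • ej j) + t * lam ρ β (h - (2 * r) • ej j) -
        2 * (t * lam ρ β h) := by ring
    linarith
  linarith

/-- **LK.** Luck at a good point. -/
theorem lk96 [IsProbabilityMeasure ρ] (hρ : EM ρ) {β : ℝ} (hLk : LuckP ρ β)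
    (hNP : NPB 2 ρ β) : LkP ρ β := by
  intro g₀ M hg₀ hM
  obtain ⟨C₀, hC₀, hNP⟩ := hNP
  obtain ⟨C, hCdef⟩ : ∃ C, C = C₀ + 1 := ⟨_, rfl⟩
  have hC : 1 ≤ C := by linarith
  obtain ⟨M', hM'⟩ : ∃ M', M' = 8 * M + 8 := ⟨_, rfl⟩
  have hM1 : 1 ≤ M' := by linarith
  obtain ⟨C₁, hC₁⟩ : ∃ C₁, C₁ = 8 * M' + 240000 * M' * Real.sqrt (200 * C) + 50 * M' := ⟨_, rfl⟩
  have hr0 : 0 ≤ M' * Real.sqrt (200 * C) := by positivity
  have hC11 : 1 ≤ C₁ := by
    rw [hC₁]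
    nlinarith
  have hC18 : 8 * M' ≤ C₁ := by
    rw [hC₁]
    nlinarith
  refine ⟨min (1 / 2) (1 / (28800 * C * C₁ ^ 2)), lt_min (by norm_num) (by positivity),
    min_le_left _ _, ?_⟩
  intro h δ Q c R hδ hQ hc hc1 P
  obtain ⟨δ', hδ'⟩ : ∃ δ', δ' = min δ 1 / 2 := ⟨_, rfl⟩
  have hδ'0 : 0 < δ' := by
    rw [hδ']
    exact half_pos (lt_min hδ one_pos)
  have hδ'1 : δ' ≤ 1 := by
    rw [hδ']
    have := min_le_right δ 1
    linarith
  have hδ'2 : 2 * δ' ≤ δ := by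
    rw [hδ']
    have := min_le_left δ 1
    linarith
  obtain ⟨N₀, hN₀, hwin⟩ := winN96 (C₁ := C₁) (Q := Q) (c := c) (R := R) (δ := δ' ^ 4)
    (by linarith) hQ hc1 (by positivity)
  refine ⟨N₀, hN₀, ?_⟩
  intro N L e S hN he hE ⟨t₀, ht₀, het₀⟩ hF hcard hS
  have hN1000 : (1000 : ℝ) ≤ N := by exact_mod_cast hN₀.trans hN
  have hN0 : (0 : ℝ) < N := by linarith
  obtain ⟨K, hK⟩ : ∃ K, K = kap Q c (2 * N) := ⟨_, rfl⟩
  have hK1 : 1 ≤ K := by
    rw [hK]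
    exact kap_one96 hQ hc.le _
  have hkK : ∀ t : ℕ, t ≤ 2 * N → Q * Real.exp (c * Real.sqrt (Real.log t)) ≤ K := by
    intro t ht
    rw [hK]
    exact kap_mono96 (by linarith) hc.le ht
  have hVa : ∀ t : ℕ, t ≤ 2 * N → Va ρ β h t ≤ K := fun t ht => (P.var t).trans (hkK t ht)
  -- the good time
  have hSne : S.Nonempty := by
    rw [Finset.nonempty_iff_ne_empty]
    intro h0
    rw [h0] at hcard
    simp at hcard
    linarith
  have hL : L ≤ 2 * N := by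
    obtain ⟨t, ht⟩ := hSne
    obtain ⟨h1, -, h2, -, h3, -⟩ := hS t ht
    have h2' : t ≤ N := by exact_mod_cast h2
    omega
  have hSL : S ⊆ Finset.Icc 1 L := by
    intro t ht
    obtain ⟨h1, h2, -⟩ := hS t ht
    rw [Finset.mem_Icc]
    refine ⟨?_, h1⟩
    have h3 : (1 : ℝ) ≤ t := by linarith
    exact_mod_cast h3
  have hSt0 : ∀ t : ℕ, 0 ≤ St ρ β h L t := fun t => by
    unfold St
    exact integral_nonneg fun η => Finset.sum_nonneg fun y _ => sq_nonneg _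
  obtain ⟨t, htS, hSt⟩ : ∃ t ∈ S, St ρ β h L t ≤ 200 * C * K / N := by
    refine Finset.exists_le_of_sum_le hSne ?_
    have h1 : ∑ t ∈ S, St ρ β h L t ≤ ∑ t ∈ Finset.Icc 1 L, St ρ β h L t :=
      Finset.sum_le_sum_of_subset_of_nonneg hSL fun t _ _ => hSt0 t
    have h2 : ∑ t ∈ Finset.Icc 1 L, St ρ β h L t ≤ C₀ * Va ρ β h L := hNP h L
    have h3 : C₀ * Va ρ β h L ≤ C * K := by
      calc C₀ * Va ρ β h L ≤ C₀ * K := mul_le_mul_of_nonneg_left (hVa L hL) hC₀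
        _ ≤ C * K := mul_le_mul_of_nonneg_right (by linarith) (by linarith)
    have h4 : C * K ≤ ∑ _t ∈ S, 200 * C * K / N := by
      rw [Finset.sum_const, nsmul_eq_mul]
      calc C * K = (N : ℝ) / 200 * (200 * C * K / N) := by field_simp
        _ ≤ S.card * (200 * C * K / N) := mul_le_mul_of_nonneg_right hcard (by positivity)
    linarith
  obtain ⟨htL, htN1, htN2, hmN1, hmN2, hgap⟩ := hS t htS
  have ht1 : 1 ≤ t := (Finset.mem_Icc.1 (hSL htS)).1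
  have ht0 : (0 : ℝ) < t := by exact_mod_cast ht1
  have htN : t ≤ N := by exact_mod_cast htN2
  have ht2N : t ≤ 2 * N := by omega
  have hm1 : 1 ≤ L - t := by
    have h1 : (1 : ℝ) ≤ (L - t : ℕ) := by linarith
    exact_mod_cast h1
  -- the window
  obtain ⟨W, hW⟩ : ∃ W, W = C₁ * (K + Real.sqrt e) := ⟨_, rfl⟩
  have hse := Real.sqrt_nonneg e
  have he0 : 0 ≤ e := by linarith
  have hWK : C₁ * K ≤ W := by
    rw [hW]
    nlinarith
  have hWe : 8 * M' * Real.sqrt e ≤ W := by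
    rw [hW]
    nlinarith
  have hW0 : 0 < W := by
    have : 0 < C₁ * K := by positivity
    linarith
  have heR : e ≤ |R| * (N : ℝ) ^ (49 / 100 : ℝ) := by
    refine het₀.trans ((P.rate t₀).trans ?_)
    calc R * (t₀ : ℝ) ^ (49 / 100 : ℝ) ≤ |R| * (t₀ : ℝ) ^ (49 / 100 : ℝ) :=
          mul_le_mul_of_nonneg_right (le_abs_self R) (by positivity)
      _ ≤ |R| * (N : ℝ) ^ (49 / 100 : ℝ) := by
          refine mul_le_mul_of_nonneg_left ?_ (abs_nonneg _)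
          exact Real.rpow_le_rpow (by positivity) (by exact_mod_cast ht₀) (by norm_num)
  have hWt : W ≤ δ' ^ 4 * Real.sqrt t := by
    have h1 := hwin N hN e heR
    rw [← hK, ← hW] at h1
    exact h1.trans (mul_le_mul_of_nonneg_left (Real.sqrt_le_sqrt htN1) (by positivity))
  obtain ⟨v, -, hv⟩ := sub94 (d := 2) (by norm_num) hρ β h t
  have hv' : ∀ g : Vec 2, A ρ β h t + inner ℝ v (g - h) ≤ A ρ β g t := by
    intro g
    have := hv (g - h)
    rwa [add_sub_cancel] at this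
  have hdens : ∀ r : ℝ, 0 < r → r ≤ δ' → ∀ (j : Fin 2) (s : ℝ), (s = 1 ∨ s = -1) →
      ∃ g : Vec 2, ‖g - h - (s * r) • ej j‖ ≤ r / 9 ∧ Va ρ β g t ≤ K := by
    intro r hr hrδ j s hs
    obtain ⟨g, hg1, hg2⟩ := P.dens t r hr (by linarith) j s hs
    exact ⟨g, hg1, hg2.trans (hkK t ht2N)⟩
  have hsd := sd96 (ρ := ρ) hρ (β := β) (h := h) (M := M) hM.le hM' hδ'2 ht1 he0 hW0 hWe P.curv
    (hE t htN)
  have hleak := leakN96 (M := M') (K := K) (W := W) (t := t) (x := St ρ β h L t) (C := C)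
    (C₁ := C₁) (N := N) hM1 hK1 hC ht0 (Nat.cast_le.2 htN) (hSt0 t) hSt (by rw [hC₁]; linarith) hWK
  have hgap2 : e / 20 ≤ A ρ β h L - A ρ β h t - A ρ β h (L - t) := by
    refine hgap.trans (le_of_eq ?_)
    unfold En
    rw [Nat.cast_sub htL]
    ring
  have hFF : Fn ρ β h L + Fn ρ β h t ≤ e / 20 / 32 := by
    have h1 := hF L hL
    have h2 := hF t ht2N
    linarith
  have h1 := hLk M' K δ' W (e / 20) h v L t hM1 hK1 hδ'0 hδ'1 ht1 htL hW0 hWt (hVa L hL)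
    (hVa (L - t) (by omega)) hv' hdens hsd hleak (by linarith) hgap2 hFF
  refine ⟨L - t, hm1, by exact_mod_cast hmN2, ?_⟩
  have h2 : A ρ β h (L - t) + e / 20 / 4 = A ρ β h (L - t) + e / 80 := by ring
  rw [h2] at h1
  rw [← hK]
  exact endN96 hK1 hC hC11 (Nat.cast_le.2 htN) (by linarith) (hSt0 t) hSt he0 hW measureReal_nonneg h1

end Pool.Agent.W_7d29a1_SP
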