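import Pool.Agent.W_7d29a1_SP.DefsSP
import Pool.Agent.W_7d29a1_D2.AeG6

/-!
CURV: second differences of the mean free energy at almost every tilt (helper13).
-/

namespace Pool.Agent.W_7d29a1_SP

open MeasureTheory ProbabilityTheory Filter Topology Pool.Agent.W_MP_7d29a1_pr
  Pool.Agent.W_7d29a1_h46 Pool.Agent.W_7d29a1_h46u Pool.Agent.W_7d29a1_D2.B35
  Pool.Agent.W_7d29a1_Q29 Pool.Agent.W_7d29a1_R34

theorem curv13 {ρ : Measure ℝ} [IsProbabilityMeasure ρ] (hρ : EM ρ) {β : ℝ} : CurvP ρ β := by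
  have hconv : ConvexOn ℝ Set.univ (lam ρ β : Vec 2 → ℝ) := lam_convex two_pos hρ β
  filter_upwards [ae_ExpC hconv] with h hh
  obtain ⟨v, C, hC⟩ := hh
  refine ⟨2 * C, 1, one_pos, fun r hr hr1 j => ?_⟩
  have h1 := hC j r (by rw [abs_of_pos hr]; exact hr1)
  have h2 := hC j (-r) (by rw [abs_neg, abs_of_pos hr]; exact hr1)
  rw [neg_smul, ← sub_eq_add_neg] at h2
  nlinarith

end Pool.Agent.W_7d29a1_SP
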