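import Pool.Agent.W_7d29a1_SP.DefsSP2
import Pool.Agent.W_7d29a1_R34.Tail13
import Pool.Agent.W_7d29a1_h46u.LamU

/-!
BETA: the nonrandom fluctuation at a good point is at most `exp (5 c sqrt (log n))` (helper48).
-/

namespace Pool.Agent.W_7d29a1_SP

open MeasureTheory ProbabilityTheory Filter Topology Pool.Agent.W_MP_7d29a1_pr
  Pool.Agent.W_7d29a1_h46 Pool.Agent.W_7d29a1_h46u Pool.Agent.W_7d29a1_D2.B35
  Pool.Agent.W_7d29a1_Q29 Pool.Agent.W_7d29a1_R34

namespace B48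

lemma sqrt_amgm {x : ℝ} (hx : 0 ≤ x) : Real.sqrt x ≤ x / 80 + 20 := by
  have h := Real.sq_sqrt hx
  nlinarith [sq_nonneg (Real.sqrt x - 40), Real.sqrt_nonneg x]

lemma sqrt_add48 {a b : ℝ} (ha : 0 ≤ a) (hb : 0 ≤ b) :
    Real.sqrt (a + b) ≤ Real.sqrt a + Real.sqrt b := by
  rw [Real.sqrt_le_left (by positivity)]
  nlinarith [Real.sq_sqrt ha, Real.sq_sqrt hb, mul_nonneg (Real.sqrt_nonneg a) (Real.sqrt_nonneg b)]

lemma kap_pow {Q c e : ℝ} {n N : ℕ} (hQ : 1 ≤ Q) (hc : 0 < c) (hc1 : c ≤ 1) (hn : 1 ≤ n)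
    (hN : 1 ≤ N) (he : Real.exp (810 + 40 * Real.log Q) ≤ e)
    (h1 : Real.exp (5 * c * Real.sqrt (Real.log n)) ≤ 2 * e)
    (h2 : (N : ℝ) ≤ n * (2 * e) ^ 2) : kap Q c (2 * N) ^ 4 ≤ e := by
  have hQ0 : 0 ≤ Real.log Q := Real.log_nonneg hQ
  have he0 : 0 < e := lt_of_lt_of_le (Real.exp_pos _) he
  have hl : 810 + 40 * Real.log Q ≤ Real.log e := by
    rw [← Real.log_exp (810 + 40 * Real.log Q)]
    exact Real.log_le_log (Real.exp_pos _) he
  have h3 : 5 * c * Real.sqrt (Real.log n) ≤ Real.log 2 + Real.log e := by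
    rw [← Real.log_mul (by norm_num) he0.ne', ← Real.log_exp (5 * c * Real.sqrt (Real.log n))]
    exact Real.log_le_log (Real.exp_pos _) h1
  have hn1 : (1 : ℝ) ≤ n := by exact_mod_cast hn
  have hn0 : (0 : ℝ) < n := by linarith
  have hN0 : (0 : ℝ) < N := by exact_mod_cast hN
  have h8 : Real.log 8 = 3 * Real.log 2 := by
    rw [show (8 : ℝ) = 2 ^ 3 by norm_num, Real.log_pow]
    norm_num
  have hl2 : Real.log 2 < 0.7 := by linarith [Real.log_two_lt_d9]
  have hl2' : 0 < Real.log 2 := Real.log_pos (by norm_num)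
  have h4 : Real.log ((2 * N : ℕ) : ℝ) ≤ Real.log n + (Real.log 8 + 2 * Real.log e) := by
    have h5 : ((2 * N : ℕ) : ℝ) ≤ n * (8 * e ^ 2) := by
      push_cast
      nlinarith
    calc Real.log ((2 * N : ℕ) : ℝ) ≤ Real.log (n * (8 * e ^ 2)) :=
          Real.log_le_log (by positivity) h5
      _ = Real.log n + (Real.log 8 + 2 * Real.log e) := by
          rw [Real.log_mul hn0.ne' (by positivity), Real.log_mul (by norm_num) (by positivity),
            Real.log_pow]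
          norm_num
  set x : ℝ := Real.log 8 + 2 * Real.log e with hx
  have hx0 : 0 ≤ x := by
    rw [hx, h8]
    nlinarith
  have h6 : Real.sqrt (Real.log ((2 * N : ℕ) : ℝ)) ≤ Real.sqrt (Real.log n) + Real.sqrt x :=
    (Real.sqrt_le_sqrt h4).trans (sqrt_add48 (Real.log_nonneg hn1) hx0)
  have h7 : Real.sqrt x ≤ x / 80 + 20 := sqrt_amgm hx0
  have h9 : c * Real.sqrt (Real.log ((2 * N : ℕ) : ℝ)) ≤
      (Real.log 2 + Real.log e) / 5 + (x / 80 + 20) := by
    have h10 : c * Real.sqrt (Real.log ((2 * N : ℕ) : ℝ)) ≤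
        c * (Real.sqrt (Real.log n) + Real.sqrt x) := mul_le_mul_of_nonneg_left h6 hc.le
    have h11 : c * Real.sqrt x ≤ Real.sqrt x :=
      mul_le_of_le_one_left (Real.sqrt_nonneg x) hc1
    nlinarith
  have h12 : 4 * (Real.log Q + c * Real.sqrt (Real.log ((2 * N : ℕ) : ℝ))) ≤ Real.log e := by
    rw [hx, h8] at h9
    nlinarith
  have h13 : kap Q c (2 * N) ^ 4 =
      Real.exp (4 * (Real.log Q + c * Real.sqrt (Real.log ((2 * N : ℕ) : ℝ)))) := by
    unfold kap
    conv_lhs => rw [← Real.exp_log (show (0 : ℝ) < Q by linarith), ← Real.exp_add, ← Real.exp_nat_mul]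
    norm_num
  rw [h13, ← Real.exp_log he0, Real.exp_le_exp]
  simpa using h12

lemma kap_one {Q c : ℝ} (hQ : 1 ≤ Q) (hc : 0 < c) (t : ℕ) : 1 ≤ kap Q c t := by
  unfold kap
  have h1 : 1 ≤ Real.exp (c * Real.sqrt (Real.log t)) := Real.one_le_exp (by positivity)
  nlinarith

lemma kap_mono {Q c : ℝ} (hQ : 1 ≤ Q) (hc : 0 < c) {s t : ℕ} (h : s ≤ t) :
    kap Q c s ≤ kap Q c t := by
  unfold kap
  refine mul_le_mul_of_nonneg_left (Real.exp_le_exp.2
    (mul_le_mul_of_nonneg_left (Real.sqrt_le_sqrt ?_) hc.le)) (by linarith)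
  rcases Nat.eq_zero_or_pos s with rfl | hs
  · rw [Nat.cast_zero, Real.log_zero]
    rcases Nat.eq_zero_or_pos t with rfl | ht
    · simp
    · exact Real.log_nonneg (by exact_mod_cast ht)
  · exact Real.log_le_log (by exact_mod_cast hs) (by exact_mod_cast h)

variable {d : ℕ} {ρ : Measure ℝ} [IsProbabilityMeasure ρ]

lemma Fn_le_sqrt (hd : 0 < d) (hρ : EM ρ) (β : ℝ) (h : Vec d) (n : ℕ) {K : ℝ} (hK : 1 ≤ K)
    (hV : Va ρ β h n ≤ K) : Fn ρ β h n ≤ K := by
  have h1 : Integrable (fun η : Env d => X β h η n - A ρ β h n) (law d ρ) :=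
    (concU hd hρ β h n).1.sub (integrable_const _)
  have h2 : ∀ η : Env d, |X β h η n - A ρ β h n| ≤ 1 / 2 + (X β h η n - A ρ β h n) ^ 2 / 2 := by
    intro η
    rw [← sq_abs]
    nlinarith [sq_nonneg (|X β h η n - A ρ β h n| - 1)]
  have e1 : ∫ η, (X β h η n - A ρ β h n) ^ 2 / 2 ∂(law d ρ) = Va ρ β h n / 2 := by
    unfold Va
    exact integral_div 2 _
  have h3 : Fn ρ β h n ≤ 1 / 2 + Va ρ β h n / 2 := by
    unfold Fn
    refine (integral_mono h1.abs ((integrable_const (1 / 2 : ℝ)).add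
      ((integrable_cen13 hd hρ β h n).div_const 2)) h2).trans (le_of_eq ?_)
    simp only [Pi.add_apply]
    rw [integral_add (integrable_const _) ((integrable_cen13 hd hρ β h n).div_const 2), e1]
    simp
  linarith

end B48

open B48

/-- **BETA.** -/
theorem beta48 {ρ : Measure ℝ} [IsProbabilityMeasure ρ] (hρ : EM ρ) (β : ℝ) (hS : SeqP)
    (hL : LkP ρ β) : BetaP ρ β := by
  intro g M hg hM h δ Q c R hδ hQ hc hc1 hP
  obtain ⟨c₂, hc2, hc2', hL2⟩ := hL g M hg hM
  obtain ⟨N₀, hN0, hL3⟩ := hL2 h δ Q c R hδ hQ hc hc1 hP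
  have hd : 0 < 2 := by norm_num
  -- the sequence
  have hE0 : En ρ β h 0 = 0 := by
    have h1 : ∀ η : Env 2, X β h η 0 = 0 := by
      intro η
      unfold X
      rw [Z_zero, Real.log_one]
    unfold En A
    simp [h1]
  have hEn : ∀ n, 0 ≤ En ρ β h n := fun n => by
    unfold En
    linarith [A_le_lam hd hρ β h n]
  have hEs : ∀ a b, En ρ β h (a + b) ≤ En ρ β h a + En ρ β h b := fun a b => by
    unfold En
    have := A_add_le hd hρ β h a b
    push_cast
    linarith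
  -- the thresholds
  set B : ℝ := ∑ t ∈ Finset.range N₀, En ρ β h t with hB
  have hBt : ∀ t, t < N₀ → En ρ β h t ≤ B := fun t ht =>
    Finset.single_le_sum (f := fun t => En ρ β h t) (fun t _ => hEn t) (Finset.mem_range.2 ht)
  have hB0 : 0 ≤ B := Finset.sum_nonneg fun t _ => hEn t
  set e₁ : ℝ := Real.exp (810 + 40 * Real.log Q) + B + 1 + 1280 ^ 2 + (12800 / c₂) ^ 2 with he1
  have ht : Tendsto (fun n : ℕ => Real.exp (5 * c * Real.sqrt (Real.log n))) atTop atTop :=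
    Real.tendsto_exp_atTop.comp ((Real.tendsto_sqrt_atTop.comp
      (Real.tendsto_log_atTop.comp tendsto_natCast_atTop_atTop)).const_mul_atTop (by positivity))
  obtain ⟨n₀, hn0⟩ := eventually_atTop.1 (ht.eventually_ge_atTop (2 * e₁))
  refine ⟨max n₀ 1, fun n k hn hk => ?_⟩
  by_contra hcon
  push Not at hcon
  have hY := hn0 n ((le_max_left _ _).trans hn)
  have hn1 : 1 ≤ n := (le_max_right _ _).trans hn
  set Y : ℝ := Real.exp (5 * c * Real.sqrt (Real.log n)) with hYd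
  have hY1 : 1 ≤ Y := Real.one_le_exp (by positivity)
  have hk0 : 0 < En ρ β h k := by linarith
  obtain ⟨N, e, hN1, he0, hNe, hNt, hke, hNn, hbig⟩ :=
    hS (fun n => En ρ β h n) R hE0 hEn hEs hP.rate n k hk hk0
  have hx1 : 0 < Real.exp (810 + 40 * Real.log Q) := Real.exp_pos _
  have hx2 : 0 ≤ (12800 / c₂) ^ 2 := sq_nonneg _
  have hee : e₁ < e := by linarith
  have hNN : N₀ ≤ N := by
    by_contra hlt
    push Not at hlt
    obtain ⟨t, htN, hte⟩ := hNt
    have := hBt t (by omega)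
    linarith
  have h2e : (N : ℝ) ≤ n * (2 * e) ^ 2 := by
    refine le_trans ?_ hNn
    have h1 : 1 ≤ En ρ β h k ^ 2 := by nlinarith
    have h2 : (0 : ℝ) ≤ N := Nat.cast_nonneg _
    nlinarith
  have hK4 : kap Q c (2 * N) ^ 4 ≤ e :=
    kap_pow hQ hc hc1 hn1 hN1 (by linarith) (by linarith) h2e
  set K : ℝ := kap Q c (2 * N) with hKd
  have hK1 : 1 ≤ K := kap_one hQ hc _
  set q : ℝ := K ^ 2 with hq
  have hq1 : K ≤ q := by nlinarith
  have hq2 : q ^ 2 ≤ e := by
    rw [hq, ← pow_mul]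
    exact hK4
  have hq3 : 1280 * q ≤ e := by
    have h1 : (1280 : ℝ) ^ 2 ≤ e := by linarith
    nlinarith [sq_nonneg (e - 1280 * q)]
  have hVa : ∀ t, t ≤ 2 * N → Va ρ β h t ≤ K := fun t ht => (hP.var t).trans (kap_mono hQ hc ht)
  obtain ⟨L, S, hcard, hSt⟩ := hbig (hN0.trans hNN)
  obtain ⟨m, hm1, hmN, hlk⟩ := hL3 N L e S hNN (by linarith) hNe hNt (fun j hj => by
    have := Fn_le_sqrt hd hρ β h j hK1 (hVa j hj)
    rw [le_div_iff₀ (by norm_num)]
    linarith) hcard hSt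
  have hch : (law 2 ρ).real {η | A ρ β h m + e / 80 < X β h η m} ≤ 6400 * K / e ^ 2 := by
    have h1 := cheb13 hd hρ β h m (s := e / 80) (by positivity)
    have h2 : (law 2 ρ).real {η | A ρ β h m + e / 80 < X β h η m} ≤
        (law 2 ρ).real {η | e / 80 ≤ |X β h η m - A ρ β h m|} := by
      refine measureReal_mono (fun η hη => ?_)
      have hη' : A ρ β h m + e / 80 < X β h η m := hη
      show e / 80 ≤ |X β h η m - A ρ β h m|
      exact le_trans (by linarith) (le_abs_self _)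
    have h3 : Va ρ β h m / (e / 80) ^ 2 ≤ 6400 * K / e ^ 2 := by
      rw [div_le_div_iff₀ (by positivity) (by positivity)]
      have h4 := hVa m (by omega)
      have h5 : 0 < e ^ 2 := by positivity
      nlinarith
    exact (h2.trans h1).trans h3
  have hfin := hlk.trans hch
  rw [div_le_div_iff₀ (by positivity) (by positivity)] at hfin
  have h1 : c₂ * e ^ 2 ≤ 6400 * (q * (q + e)) := by
    calc c₂ * e ^ 2 ≤ 6400 * K * (K * (K ^ 2 + e)) := hfin
      _ = 6400 * (q * (q + e)) := by rw [hq]; ring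
  have h2 : c₂ * e ^ 2 ≤ 12800 * q * e := by
    have h3 : q * (q + e) ≤ 2 * q * e := by
      have h4 : q ≤ e := by linarith
      have h5 : 0 ≤ q := by linarith
      nlinarith
    linarith
  have h3 : c₂ * e ≤ 12800 * q := by
    have : c₂ * e * e ≤ 12800 * q * e := by
      calc c₂ * e * e = c₂ * e ^ 2 := by ring
        _ ≤ _ := h2
    exact le_of_mul_le_mul_right this he0
  have h4 : (c₂ * e) ^ 2 ≤ 12800 ^ 2 * e := by
    calc (c₂ * e) ^ 2 ≤ (12800 * q) ^ 2 := by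
          exact pow_le_pow_left₀ (by positivity) h3 2
      _ = 12800 ^ 2 * q ^ 2 := by ring
      _ ≤ _ := by nlinarith
  have h5 : c₂ ^ 2 * e ≤ 12800 ^ 2 := by
    have : c₂ ^ 2 * e * e ≤ 12800 ^ 2 * e := by
      calc c₂ ^ 2 * e * e = (c₂ * e) ^ 2 := by ring
        _ ≤ _ := h4
    exact le_of_mul_le_mul_right this he0
  have h6 : (12800 / c₂) ^ 2 < e := by linarith
  rw [div_pow, div_lt_iff₀ (by positivity)] at h6
  linarith

end Pool.Agent.W_7d29a1_SP
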