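import Pool.Agent.W_7d29a1_SP.DefsSP2

/-!
Superpolylogarithmic variance: amplification and counting in time (helper78).
-/

namespace Pool.Agent.W_7d29a1_SP

open MeasureTheory ProbabilityTheory Filter Topology Pool.Agent.W_MP_7d29a1_pr
  Pool.Agent.W_7d29a1_h46 Pool.Agent.W_7d29a1_h46u Pool.Agent.W_7d29a1_D2.B35
  Pool.Agent.W_7d29a1_Q29 Pool.Agent.W_7d29a1_R34

/-- GROW. -/
theorem grow78 {d : ℕ} {ρ : Measure ℝ} [IsProbabilityMeasure ρ] {β : ℝ} (hC : CntP d ρ β)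
    (hA : AmpP d ρ β) : GrowP d ρ β := by
  intro c₀ D hc hD
  obtain ⟨C1, h1, hcnt⟩ := hC c₀ hc
  have hC1 : 0 < C1 := by linarith
  obtain ⟨C2, c, h2, hcp, hamp⟩ := hA (D * C1) (by nlinarith)
  refine ⟨max (max (C1 / c) C2) 1, le_max_right _ _, ?_⟩
  intro h hL m T s₀ s₁ q Φ hm hq hq1 hs hAm hp0 hp1 hT hk
  set C := max (max (C1 / c) C2) 1 with hCdef
  have hCa : C1 / c ≤ C := (le_max_left _ _).trans (le_max_left _ _)
  have hCb : C2 ≤ C := (le_max_right _ _).trans (le_max_left _ _)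
  have h3 := hamp h m s₀ s₁ q hq hs hp0 hp1
  have hqC : 0 < q ^ C2 := Real.rpow_pos_of_pos hq _
  have h4 : c * q ^ C2 ≤ (law d ρ).real {η | A ρ β h m + D * C1 * (s₁ - s₀) ≤ X β h η m} := by
    refine h3.trans (measureReal_mono ?_ (measure_ne_top _ _))
    intro η hη
    have h5 : s₁ + D * C1 * (s₁ - s₀) < X β h η m := hη
    show A ρ β h m + D * C1 * (s₁ - s₀) ≤ X β h η m
    linarith
  have hmp : (1 : ℝ) ≤ m := by exact_mod_cast hm
  have h5 : C1 * m / (c * q ^ C2) ≤ T := by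
    refine le_trans ?_ hT
    have h6 : q ^ C2 = (1 / q) ^ (-C2) := by
      rw [one_div, Real.inv_rpow hq.le, Real.rpow_neg hq.le, inv_inv]
    have h7 : C1 * m / (c * q ^ C2) = C1 / c * m * (1 / q) ^ C2 := by
      rw [h6, Real.rpow_neg (by positivity)]
      field_simp
    rw [h7]
    have h8 : 1 ≤ 1 / q := by
      rw [le_div_iff₀ hq]
      linarith
    have h9 : (1 / q) ^ C2 ≤ (1 / q) ^ C := Real.rpow_le_rpow_of_exponent_le h8 hCb
    have h10 : C1 / c * m ≤ C * m := mul_le_mul_of_nonneg_right hCa (by linarith)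
    exact mul_le_mul h10 h9 (Real.rpow_nonneg (by positivity) _)
      (mul_nonneg (by linarith [le_max_right (max (C1 / c) C2) 1]) (by linarith))
  have h6 := hcnt h hL m T (D * C1 * (s₁ - s₀)) (c * q ^ C2) Φ hm (mul_pos hcp hqC) h4 h5 hk
  have h7 : C1 * (D * (s₁ - s₀)) ≤ C1 * (Φ + 1) := by
    calc C1 * (D * (s₁ - s₀)) = D * C1 * (s₁ - s₀) := by ring
      _ ≤ _ := h6
  exact le_of_mul_le_mul_left h7 hC1

end Pool.Agent.W_7d29a1_SP
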