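import Mathlib

/-!
THEOREM G (helper15), leaf SEQ (helper69): pure sequences.
-/

open Finset

namespace Pool.Agent.W_7d29a1_SP

namespace Seq69

/-- partial sums `∑_{1 ≤ t ≤ n} E t` -/
noncomputable def S (E : ℕ → ℝ) (n : ℕ) : ℝ := ∑ t ∈ Icc 1 n, E t

/-- running mean -/
noncomputable def em (E : ℕ → ℝ) (n : ℕ) : ℝ := S E n / n

variable {E : ℕ → ℝ}

theorem S_eq_range (h0 : E 0 = 0) (n : ℕ) : S E n = ∑ t ∈ range (n + 1), E t := by
  unfold S
  induction n with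
  | zero => simp [h0]
  | succ k ih =>
    rw [Finset.sum_Icc_succ_top (by omega), ih, Finset.sum_range_succ _ (k + 1)]

theorem S_nonneg (hn : ∀ n, 0 ≤ E n) (n : ℕ) : 0 ≤ S E n :=
  Finset.sum_nonneg fun i _ => hn i

theorem em_nonneg (hn : ∀ n, 0 ≤ E n) (n : ℕ) : 0 ≤ em E n :=
  div_nonneg (S_nonneg hn n) (Nat.cast_nonneg n)

theorem S_eq (n : ℕ) (h : 1 ≤ n) : S E n = em E n * n := by
  unfold em
  have : (n : ℝ) ≠ 0 := by
    have : (0 : ℝ) < n := by exact_mod_cast (by omega : 0 < n)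
    exact this.ne'
  field_simp

theorem le_two_em (h0 : E 0 = 0) (hn : ∀ n, 0 ≤ E n)
    (hs : ∀ a b, E (a + b) ≤ E a + E b) (t : ℕ) (ht : 1 ≤ t) : E t ≤ 2 * em E t := by
  have h1 : ((t : ℝ) + 1) * E t ≤ 2 * S E t := by
    have h2 : ∑ s ∈ range (t + 1), E t ≤ ∑ s ∈ range (t + 1), (E s + E (t - s)) := by
      refine Finset.sum_le_sum fun s hs' => ?_
      have hst : s ≤ t := by
        have := Finset.mem_range.mp hs'
        omega
      have := hs s (t - s)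
      rwa [show s + (t - s) = t by omega] at this
    rw [Finset.sum_const, Finset.card_range, Finset.sum_add_distrib] at h2
    have h3 : ∑ s ∈ range (t + 1), E (t - s) = ∑ s ∈ range (t + 1), E s := by
      have := Finset.sum_range_reflect E (t + 1)
      simpa using this
    rw [h3, ← S_eq_range h0] at h2
    have h4 : (t + 1) • E t = ((t : ℝ) + 1) * E t := by
      rw [nsmul_eq_mul]
      push_cast
      ring
    rw [h4] at h2
    linarith
  have htp : (0 : ℝ) < t := by exact_mod_cast (by omega : 0 < t)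
  have h5 : (t : ℝ) * E t ≤ 2 * S E t := by
    have := hn t
    nlinarith
  rw [S_eq t ht] at h5
  by_contra hcon
  push Not at hcon
  have := mul_lt_mul_of_pos_left hcon htp
  nlinarith

/-- the mean is `o(√m)` -/
theorem em_bound {K ε : ℝ} (hE : ∀ n : ℕ, E n ≤ K + ε * Real.sqrt n) (hε : 0 ≤ ε)
    (m : ℕ) (hm : 1 ≤ m) : em E m ≤ K + ε * Real.sqrt m := by
  have hmp : (0 : ℝ) < m := by exact_mod_cast (by omega : 0 < m)
  unfold em
  rw [div_le_iff₀ hmp]
  unfold S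
  calc ∑ t ∈ Icc 1 m, E t ≤ ∑ t ∈ Icc 1 m, (K + ε * Real.sqrt m) := by
        refine Finset.sum_le_sum fun t ht => ?_
        have h1 := hE t
        have h2 : Real.sqrt t ≤ Real.sqrt m := by
          apply Real.sqrt_le_sqrt
          exact_mod_cast (Finset.mem_Icc.mp ht).2
        nlinarith
    _ = (K + ε * Real.sqrt m) * m := by
        rw [Finset.sum_const, Nat.card_Icc, nsmul_eq_mul]
        simp
        ring

/-- choice of the scale: `n₀`, `n₁` of the page -/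
theorem scale (h0 : E 0 = 0) (hn : ∀ n, 0 ≤ E n)
    (hs : ∀ a b, E (a + b) ≤ E a + E b)
    (hE : ∀ ε : ℝ, 0 < ε → ∃ K : ℝ, ∀ n : ℕ, E n ≤ K + ε * Real.sqrt n)
    {n m₀ : ℕ} (hm : m₀ ≤ n) (hpos : 0 < E m₀) :
    ∃ n₀ N : ℕ, 1 ≤ n₀ ∧ n₀ ≤ n ∧ n₀ ≤ N ∧ 0 < em E n₀ ∧
      (∀ m, 1 ≤ m → m ≤ n → em E m ≤ em E n₀) ∧
      (∀ m, n₀ ≤ m → em E m ^ 2 * N ≤ em E N ^ 2 * m) := by
  have hm1 : 1 ≤ m₀ := by
    rcases Nat.eq_zero_or_pos m₀ with h | h
    · rw [h, h0] at hpos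
      exact absurd hpos (lt_irrefl _)
    · exact h
  obtain ⟨n₀, hn₀, hmax⟩ := Finset.exists_max_image (Icc 1 n) (em E) ⟨m₀, by
    rw [Finset.mem_Icc]; exact ⟨hm1, hm⟩⟩
  rw [Finset.mem_Icc] at hn₀
  have hem0 : 0 < em E n₀ := by
    have h1 := hmax m₀ (by rw [Finset.mem_Icc]; exact ⟨hm1, hm⟩)
    have h2 := le_two_em h0 hn hs m₀ hm1
    linarith
  have hn₀p : (0 : ℝ) < n₀ := by exact_mod_cast (by omega : 0 < n₀)
  set f : ℕ → ℝ := fun m => em E m ^ 2 / m with hf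
  have hf0 : 0 < f n₀ := by
    simp only [hf]
    positivity
  -- for large `m`, `f m < f n₀`
  obtain ⟨M, hM⟩ : ∃ M : ℕ, ∀ m, M ≤ m → f m < f n₀ := by
    set ε : ℝ := Real.sqrt (f n₀) / 4 with hεd
    have hsq : 0 < Real.sqrt (f n₀) := Real.sqrt_pos.mpr hf0
    have hεp : 0 < ε := by positivity
    obtain ⟨K, hK⟩ := hE ε hεp
    have hK0 : 0 ≤ K := by
      have := hK 0
      rw [h0] at this
      simpa using this
    obtain ⟨M, hM⟩ := exists_nat_gt (max 1 (K ^ 2 / ε ^ 2))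
    refine ⟨M, fun m hMm => ?_⟩
    have hmM : (M : ℝ) ≤ m := by exact_mod_cast hMm
    have h1 : (1 : ℝ) < m := lt_of_lt_of_le (lt_of_le_of_lt (le_max_left _ _) hM) hmM
    have h2 : K ^ 2 / ε ^ 2 < m := lt_of_lt_of_le (lt_of_le_of_lt (le_max_right _ _) hM) hmM
    have hm1' : 1 ≤ m := by
      have : (1 : ℕ) < m := by exact_mod_cast h1
      omega
    have hb := em_bound hK hεp.le m hm1'
    have hmp : (0 : ℝ) < m := by linarith
    have hsm : 0 < Real.sqrt m := Real.sqrt_pos.mpr hmp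
    have h3 : K ≤ ε * Real.sqrt m := by
      rw [div_lt_iff₀ (by positivity)] at h2
      have h4 : K ^ 2 ≤ (ε * Real.sqrt m) ^ 2 := by
        rw [mul_pow, Real.sq_sqrt hmp.le]
        linarith
      exact le_of_sq_le_sq h4 (by positivity)
    have h5 : em E m ≤ 2 * ε * Real.sqrt m := by linarith
    have h6 : em E m ^ 2 ≤ (2 * ε * Real.sqrt m) ^ 2 :=
      pow_le_pow_left₀ (em_nonneg hn m) h5 2
    have h7 : (2 * ε * Real.sqrt m) ^ 2 = f n₀ / 4 * m := by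
      rw [mul_pow, mul_pow, Real.sq_sqrt hmp.le, hεd, div_pow, Real.sq_sqrt hf0.le]
      ring
    simp only [hf]
    rw [div_lt_iff₀ hmp]
    have h8 : f n₀ * m = em E n₀ ^ 2 / n₀ * m := rfl
    have h9 : 0 < f n₀ * m := mul_pos hf0 hmp
    rw [← h8]
    linarith [h7 ▸ h6]
  obtain ⟨N, hN, hNmax⟩ := Finset.exists_max_image (Icc n₀ (max n₀ M)) f ⟨n₀, by
    rw [Finset.mem_Icc]; exact ⟨le_refl _, le_max_left _ _⟩⟩
  rw [Finset.mem_Icc] at hN
  have hNp : (0 : ℝ) < N := by exact_mod_cast (by omega : 0 < N)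
  refine ⟨n₀, N, hn₀.1, hn₀.2, hN.1, hem0, fun m h1 h2 => hmax m (by
    rw [Finset.mem_Icc]; exact ⟨h1, h2⟩), fun m hm' => ?_⟩
  have hmp : (0 : ℝ) < m := by exact_mod_cast (by omega : 0 < m)
  have hle : f m ≤ f N := by
    rcases le_or_gt m (max n₀ M) with h | h
    · exact hNmax m (by rw [Finset.mem_Icc]; exact ⟨hm', h⟩)
    · have h1 : f m < f n₀ := hM m (le_of_lt (lt_of_le_of_lt (le_max_right _ _) h))
      have h2 : f n₀ ≤ f N := hNmax n₀ (by
        rw [Finset.mem_Icc]; exact ⟨le_refl _, le_max_left _ _⟩)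
      linarith
  simp only [hf] at hle
  rw [div_le_div_iff₀ hmp hNp] at hle
  exact hle

theorem sum_id (N : ℕ) : ∑ a ∈ Icc 1 N, (a : ℝ) = N * (N + 1) / 2 := by
  induction N with
  | zero => simp
  | succ k ih =>
    rw [Finset.sum_Icc_succ_top (by omega), ih]
    push_cast
    ring

theorem sum_sq (N : ℕ) : ∑ a ∈ Icc 1 N, (a : ℝ) ^ 2 = N * (N + 1) * (2 * N + 1) / 6 := by
  induction N with
  | zero => simp
  | succ k ih =>
    rw [Finset.sum_Icc_succ_top (by omega), ih]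
    push_cast
    ring

/-- the arithmetic sum -/
theorem sum_kernel {N : ℕ} (hN : 1000 ≤ N) :
    ∑ a ∈ Icc 1 N, ((a : ℝ) + N) * ((((a : ℝ) + N) / N + 36 / 25) / (12 / 5)) ≤
      (19 / 10) * (N : ℝ) ^ 2 := by
  have hNp : (0 : ℝ) < N := by exact_mod_cast (by omega : 0 < N)
  have hN' : (1000 : ℝ) ≤ N := by exact_mod_cast hN
  have h1 : ∀ a : ℕ, ((a : ℝ) + N) * ((((a : ℝ) + N) / N + 36 / 25) / (12 / 5)) =
      (5 / 12) * ((a : ℝ) ^ 2 / N + (2 + 36 / 25) * a + (1 + 36 / 25) * N) := by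
    intro a
    field_simp
    ring
  rw [Finset.sum_congr rfl fun a _ => h1 a, ← Finset.mul_sum, Finset.sum_add_distrib,
    Finset.sum_add_distrib, ← Finset.sum_div, ← Finset.mul_sum, sum_id, sum_sq,
    Finset.sum_const, Nat.card_Icc, nsmul_eq_mul]
  have h2 : (N : ℝ) * (N + 1) * (2 * N + 1) / 6 / N = (N + 1) * (2 * N + 1) / 6 := by
    field_simp
  rw [h2]
  have h3 : ((N + 1 - 1 : ℕ) : ℝ) = N := by simp
  rw [h3]
  nlinarith

/-- the double sum of `E (a+b)` -/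
theorem double_le (hn : ∀ n, 0 ≤ E n) {N : ℕ} (hN : 1000 ≤ N)
    (hb : ∀ m, N ≤ m → em E m ^ 2 * N ≤ em E N ^ 2 * m) :
    ∑ a ∈ Icc 1 N, ∑ b ∈ Icc 1 N, E (a + b) ≤ (19 / 10) * (N : ℝ) ^ 2 * em E N := by
  have hNp : (0 : ℝ) < N := by exact_mod_cast (by omega : 0 < N)
  have he := em_nonneg hn N
  calc ∑ a ∈ Icc 1 N, ∑ b ∈ Icc 1 N, E (a + b)
      ≤ ∑ a ∈ Icc 1 N, ((a : ℝ) + N) * ((((a : ℝ) + N) / N + 36 / 25) / (12 / 5)) * em E N := by
        refine Finset.sum_le_sum fun a ha => ?_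
        have h1 : ∑ b ∈ Icc 1 N, E (a + b) ≤ S E (a + N) := by
          have h2 : ∑ b ∈ Icc 1 N, E (a + b) = ∑ s ∈ (Icc 1 N).map (addLeftEmbedding a), E s := by
            rw [Finset.sum_map]
            rfl
          rw [h2]
          unfold S
          refine Finset.sum_le_sum_of_subset_of_nonneg ?_ fun i _ _ => hn i
          intro x hx
          rw [Finset.mem_map] at hx
          obtain ⟨b, hb', rfl⟩ := hx
          rw [Finset.mem_Icc] at hb' ⊢
          simp only [addLeftEmbedding_apply]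
          omega
        have h3 : S E (a + N) = em E (a + N) * ((a + N : ℕ) : ℝ) := S_eq _ (by omega)
        have h4 := hb (a + N) (by omega)
        set y : ℝ := ((a : ℝ) + N) / N with hy
        have hyp : 0 ≤ y := by positivity
        have hcast : ((a + N : ℕ) : ℝ) = y * N := by
          rw [hy]
          push_cast
          field_simp
        rw [hcast] at h4
        have h5 : em E (a + N) ^ 2 ≤ em E N ^ 2 * y := by
          have h6 : (em E (a + N) ^ 2) * N ≤ (em E N ^ 2 * y) * N := by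
            nlinarith [h4]
          exact le_of_mul_le_mul_right h6 hNp
        have h7 : em E (a + N) ≤ (y + 36 / 25) / (12 / 5) * em E N := by
          have h8 : em E (a + N) ^ 2 ≤ ((y + 36 / 25) / (12 / 5) * em E N) ^ 2 := by
            refine h5.trans ?_
            rw [mul_pow]
            have h9 : y ≤ ((y + 36 / 25) / (12 / 5)) ^ 2 := by
              nlinarith [sq_nonneg (y - 36 / 25)]
            have := mul_le_mul_of_nonneg_left h9 (sq_nonneg (em E N))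
            linarith
          exact le_of_sq_le_sq h8 (by positivity)
        calc ∑ b ∈ Icc 1 N, E (a + b) ≤ em E (a + N) * (y * N) := by
              rw [← hcast, ← h3]
              exact h1
          _ ≤ (y + 36 / 25) / (12 / 5) * em E N * (y * N) := by
              refine mul_le_mul_of_nonneg_right h7 (by positivity)
          _ = ((a : ℝ) + N) * ((y + 36 / 25) / (12 / 5)) * em E N := by
              have : y * N = (a : ℝ) + N := by
                rw [hy]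
                field_simp
              rw [this]
              ring
    _ = (∑ a ∈ Icc 1 N, ((a : ℝ) + N) * ((((a : ℝ) + N) / N + 36 / 25) / (12 / 5))) *
          em E N := by
        rw [Finset.sum_mul]
    _ ≤ (19 / 10) * (N : ℝ) ^ 2 * em E N :=
        mul_le_mul_of_nonneg_right (sum_kernel hN) he

/-- the pairs -/
theorem pairs (hn : ∀ n, 0 ≤ E n) {N : ℕ} (hN : 1000 ≤ N)
    (hpos : 0 < em E N)
    (hb : ∀ m, N ≤ m → em E m ^ 2 * N ≤ em E N ^ 2 * m)
    (h2 : ∀ t ≤ N, E t ≤ 2 * em E N) :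
    (N : ℝ) ^ 2 / 80 ≤ ((((Icc 1 N) ×ˢ (Icc 1 N)).filter
      (fun p : ℕ × ℕ => em E N / 20 ≤ E p.1 + E p.2 - E (p.1 + p.2))).card : ℝ) := by
  have hNp : (0 : ℝ) < N := by exact_mod_cast (by omega : 0 < N)
  set e := em E N with he
  set Q := (Icc 1 N) ×ˢ (Icc 1 N) with hQ
  set g : ℕ × ℕ → ℝ := fun p => E p.1 + E p.2 - E (p.1 + p.2) with hg
  have hQc : (Q.card : ℝ) = (N : ℝ) ^ 2 := by
    rw [hQ, Finset.card_product, Nat.card_Icc, Nat.add_sub_cancel]
    push_cast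
    ring
  have hlow : (1 / 10) * (N : ℝ) ^ 2 * e ≤ ∑ p ∈ Q, g p := by
    have h3 := double_le hn hN hb
    have h4 : ∑ p ∈ Q, g p = ∑ a ∈ Icc 1 N, ∑ b ∈ Icc 1 N, (E a + E b - E (a + b)) := by
      rw [hQ, Finset.sum_product]
    have h5 : ∑ a ∈ Icc 1 N, ∑ b ∈ Icc 1 N, (E a + E b - E (a + b)) =
        2 * N * S E N - ∑ a ∈ Icc 1 N, ∑ b ∈ Icc 1 N, E (a + b) := by
      simp only [Finset.sum_sub_distrib, Finset.sum_add_distrib, Finset.sum_const, Nat.card_Icc,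
        nsmul_eq_mul, ← Finset.mul_sum]
      unfold S
      have : ((N + 1 - 1 : ℕ) : ℝ) = N := by simp
      rw [this]
      ring
    have h6 : S E N = e * N := S_eq N (by omega)
    rw [h4, h5, h6]
    nlinarith
  have hup : ∑ p ∈ Q, g p ≤ (Q.filter (fun p => e / 20 ≤ g p)).card * (4 * e) +
      (N : ℝ) ^ 2 * (e / 20) := by
    have h3 : ∀ p ∈ Q, g p ≤ (if e / 20 ≤ g p then 4 * e else 0) + e / 20 := by
      intro p hp
      rw [hQ, Finset.mem_product, Finset.mem_Icc, Finset.mem_Icc] at hp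
      split_ifs with h
      · have h4 := h2 p.1 hp.1.2
        have h5 := h2 p.2 hp.2.2
        have h6 := hn (p.1 + p.2)
        simp only [hg]
        linarith
      · push Not at h
        linarith
    refine (Finset.sum_le_sum h3).trans ?_
    rw [Finset.sum_add_distrib, Finset.sum_const, nsmul_eq_mul, hQc, ← Finset.sum_filter,
      Finset.sum_const, nsmul_eq_mul]
  have h7 : (1 / 20) * (N : ℝ) ^ 2 * e ≤ (Q.filter (fun p => e / 20 ≤ g p)).card * (4 * e) := by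
    linarith
  have h8 : ((N : ℝ) ^ 2 / 80) * (4 * e) ≤
      ((Q.filter (fun p => e / 20 ≤ g p)).card : ℝ) * (4 * e) := by
    linarith
  exact le_of_mul_le_mul_right h8 (by positivity)

theorem few {N : ℕ} : (((Icc 1 N).filter (fun a : ℕ => (a : ℝ) < (N : ℝ) / 1000)).card : ℝ) ≤
    (N : ℝ) / 1000 := by
  have h1 : (Icc 1 N).filter (fun a : ℕ => (a : ℝ) < (N : ℝ) / 1000) ⊆ Icc 1 (N / 1000) := by
    intro a ha
    rw [Finset.mem_filter, Finset.mem_Icc] at ha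
    rw [Finset.mem_Icc]
    refine ⟨ha.1.1, ?_⟩
    rw [Nat.le_div_iff_mul_le (by norm_num)]
    have h2 : (a : ℝ) * 1000 < N := by
      have := ha.2
      rw [lt_div_iff₀ (by norm_num)] at this
      exact this
    have h3 : a * 1000 < N := by exact_mod_cast h2
    omega
  have h4 := Finset.card_le_card h1
  rw [Nat.card_Icc, Nat.add_sub_cancel] at h4
  calc (((Icc 1 N).filter (fun a : ℕ => (a : ℝ) < (N : ℝ) / 1000)).card : ℝ)
      ≤ ((N / 1000 : ℕ) : ℝ) := by exact_mod_cast h4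
    _ ≤ (N : ℝ) / 1000 := by
        have := @Nat.cast_div_le ℝ _ _ _ N 1000
        simpa using this

/-- pigeonhole -/
theorem pigeon (hn : ∀ n, 0 ≤ E n) {N : ℕ} (hN : 1000 ≤ N)
    (hpos : 0 < em E N)
    (hb : ∀ m, N ≤ m → em E m ^ 2 * N ≤ em E N ^ 2 * m)
    (h2 : ∀ t ≤ N, E t ≤ 2 * em E N) :
    ∃ L ≤ 2 * N, (N : ℝ) / 200 ≤
      (((Icc 1 N).filter (fun t : ℕ => (N : ℝ) / 1000 ≤ t ∧ t ≤ L ∧
        (N : ℝ) / 1000 ≤ ((L - t : ℕ) : ℝ) ∧ L - t ≤ N ∧
        em E N / 20 ≤ E t + E (L - t) - E L)).card : ℝ) := by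
  classical
  have hNp : (0 : ℝ) < N := by exact_mod_cast (by omega : 0 < N)
  have hpairs := pairs hn hN hpos hb h2
  set e := em E N with he
  set Q := (Icc 1 N) ×ˢ (Icc 1 N) with hQ
  set P := Q.filter (fun p : ℕ × ℕ => e / 20 ≤ E p.1 + E p.2 - E (p.1 + p.2)) with hP
  set P' := P.filter (fun p : ℕ × ℕ => (N : ℝ) / 1000 ≤ (p.1 : ℝ) ∧ (N : ℝ) / 1000 ≤ (p.2 : ℝ))
    with hP'
  set F := (Icc 1 N).filter (fun a : ℕ => (a : ℝ) < (N : ℝ) / 1000) with hF
  have hsub : P ⊆ P' ∪ (F ×ˢ (Icc 1 N) ∪ (Icc 1 N) ×ˢ F) := by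
    intro p hp
    have hp2 := hp
    rw [hP, Finset.mem_filter, hQ, Finset.mem_product] at hp2
    rw [Finset.mem_union, Finset.mem_union, Finset.mem_product, Finset.mem_product]
    by_cases h3 : (N : ℝ) / 1000 ≤ (p.1 : ℝ)
    · by_cases h4 : (N : ℝ) / 1000 ≤ (p.2 : ℝ)
      · left
        rw [hP', Finset.mem_filter]
        exact ⟨hp, h3, h4⟩
      · right; right
        push Not at h4
        exact ⟨hp2.1.1, by rw [hF, Finset.mem_filter]; exact ⟨hp2.1.2, h4⟩⟩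
    · right; left
      push Not at h3
      exact ⟨by rw [hF, Finset.mem_filter]; exact ⟨hp2.1.1, h3⟩, hp2.1.2⟩
  have hcard : (P.card : ℝ) ≤ P'.card + ((F.card : ℝ) * N + N * F.card) := by
    have h3 := (Finset.card_le_card hsub).trans (Finset.card_union_le _ _)
    have h4 := Finset.card_union_le (F ×ˢ (Icc 1 N)) ((Icc 1 N) ×ˢ F)
    rw [Finset.card_product, Finset.card_product, Nat.card_Icc, Nat.add_sub_cancel] at h4
    have h5 : P.card ≤ P'.card + (F.card * N + N * F.card) := by omega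
    exact_mod_cast h5
  have hFc : (F.card : ℝ) ≤ (N : ℝ) / 1000 := few
  have hP'c : (21 / 2000) * (N : ℝ) ^ 2 ≤ (P'.card : ℝ) := by
    have h3 : (F.card : ℝ) * N ≤ (N : ℝ) / 1000 * N := mul_le_mul_of_nonneg_right hFc hNp.le
    nlinarith
  -- pigeonhole over `L = a + b`
  have hmaps : ∀ p ∈ P', p.1 + p.2 ∈ Icc 1 (2 * N) := by
    intro p hp
    rw [hP', Finset.mem_filter, hP, Finset.mem_filter, hQ, Finset.mem_product,
      Finset.mem_Icc, Finset.mem_Icc] at hp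
    rw [Finset.mem_Icc]
    omega
  have hne : (Icc 1 (2 * N)).Nonempty := ⟨1, by rw [Finset.mem_Icc]; omega⟩
  obtain ⟨L, hL, hLc⟩ := Finset.exists_le_card_fiber_of_nsmul_le_card_of_maps_to
    (M := ℝ) (b := (N : ℝ) / 200) hmaps hne (by
      rw [Nat.card_Icc, Nat.add_sub_cancel, nsmul_eq_mul]
      push_cast
      nlinarith)
  rw [Finset.mem_Icc] at hL
  refine ⟨L, hL.2, hLc.trans ?_⟩
  have hinj : (P'.filter (fun p : ℕ × ℕ => p.1 + p.2 = L)).card ≤
      ((Icc 1 N).filter (fun t : ℕ => (N : ℝ) / 1000 ≤ t ∧ t ≤ L ∧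
        (N : ℝ) / 1000 ≤ ((L - t : ℕ) : ℝ) ∧ L - t ≤ N ∧
        e / 20 ≤ E t + E (L - t) - E L)).card := by
    refine Finset.card_le_card_of_injOn Prod.fst ?_ ?_
    · intro p hp
      rw [Finset.mem_coe, Finset.mem_filter, hP', Finset.mem_filter, hP, Finset.mem_filter, hQ,
        Finset.mem_product, Finset.mem_Icc, Finset.mem_Icc] at hp
      obtain ⟨⟨⟨⟨h3, h4⟩, h5⟩, h6, h7⟩, h8⟩ := hp
      have h9 : L - p.1 = p.2 := by omega
      rw [Finset.mem_coe, Finset.mem_filter, Finset.mem_Icc]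
      refine ⟨h3, h6, by omega, ?_, by omega, ?_⟩
      · rw [h9]; exact h7
      · rw [h9, ← h8]; exact h5
    · intro p hp q hq hpq
      rw [Finset.mem_coe, Finset.mem_filter] at hp hq
      have h3 := hp.2
      have h4 := hq.2
      ext
      · exact hpq
      · omega
  exact_mod_cast hinj

end Seq69

open Seq69

/-- LEAF SEQ, under `E n = o(√n)`. -/
theorem seq69 {E : ℕ → ℝ} (h0 : E 0 = 0) (hn : ∀ n, 0 ≤ E n)
    (hs : ∀ a b, E (a + b) ≤ E a + E b)
    (hE : ∀ ε : ℝ, 0 < ε → ∃ K : ℝ, ∀ n : ℕ, E n ≤ K + ε * Real.sqrt n)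
    {n m₀ : ℕ} (hm : m₀ ≤ n) (hpos : 0 < E m₀) :
    ∃ N : ℕ, ∃ e : ℝ, 1 ≤ N ∧ 0 < e ∧ e = (∑ t ∈ Icc 1 N, E t) / N ∧
      (∀ t ≤ N, E t ≤ 2 * e) ∧ (∀ t ≤ n, E t ≤ 2 * e) ∧
      (∀ t ≤ n, (N : ℝ) * E t ^ 2 ≤ n * (2 * e) ^ 2) ∧
      (∀ m, N ≤ m → E m ≤ 2 * e * Real.sqrt ((m : ℝ) / N)) ∧
      (1000 ≤ N → ∃ L ≤ 2 * N, (N : ℝ) / 200 ≤
        (((Icc 1 N).filter (fun t : ℕ => (N : ℝ) / 1000 ≤ t ∧ t ≤ L ∧
          (N : ℝ) / 1000 ≤ ((L - t : ℕ) : ℝ) ∧ L - t ≤ N ∧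
          e / 20 ≤ E t + E (L - t) - E L)).card : ℝ)) := by
  obtain ⟨n₀, N, h1, h2, h3, h4, h5, h6⟩ := scale h0 hn hs hE hm hpos
  have hNp : (0 : ℝ) < N := by exact_mod_cast (by omega : 0 < N)
  have hn₀p : (0 : ℝ) < n₀ := by exact_mod_cast (by omega : 0 < n₀)
  have hN1 : 1 ≤ N := by omega
  have hNn : (n₀ : ℝ) ≤ N := by exact_mod_cast h3
  have hnn : (n₀ : ℝ) ≤ n := by exact_mod_cast h2
  have he0 := em_nonneg hn N
  -- `em n₀ ≤ em N`
  have h7 := h6 n₀ (le_refl _)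
  have h8 : em E n₀ ≤ em E N := by
    have h9 : em E n₀ ^ 2 ≤ em E N ^ 2 := by
      have h10 : em E n₀ ^ 2 * N ≤ em E N ^ 2 * N :=
        h7.trans (mul_le_mul_of_nonneg_left hNn (sq_nonneg _))
      exact le_of_mul_le_mul_right h10 hNp
    exact le_of_sq_le_sq h9 he0
  have hep : 0 < em E N := lt_of_lt_of_le h4 h8
  -- `em m ≤ em N` for `1 ≤ m ≤ N`
  have h9 : ∀ m, 1 ≤ m → m ≤ N → em E m ≤ em E N := by
    intro m hm1 hmN
    rcases le_or_gt m n₀ with h | h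
    · exact (h5 m hm1 (h.trans h2)).trans h8
    · have h10 := h6 m h.le
      have hmNr : (m : ℝ) ≤ N := by exact_mod_cast hmN
      have h11 : em E m ^ 2 ≤ em E N ^ 2 := by
        have h12 : em E m ^ 2 * N ≤ em E N ^ 2 * N :=
          h10.trans (mul_le_mul_of_nonneg_left hmNr (sq_nonneg _))
        exact le_of_mul_le_mul_right h12 hNp
      exact le_of_sq_le_sq h11 he0
  have h10 : ∀ t ≤ N, E t ≤ 2 * em E N := by
    intro t ht
    rcases Nat.eq_zero_or_pos t with h | h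
    · rw [h, h0]; positivity
    · have := le_two_em h0 hn hs t h
      have := h9 t h ht
      linarith
  have h11 : ∀ t ≤ n, E t ≤ 2 * em E n₀ := by
    intro t ht
    rcases Nat.eq_zero_or_pos t with h | h
    · rw [h, h0]; positivity
    · have := le_two_em h0 hn hs t h
      have := h5 t h ht
      linarith
  refine ⟨N, em E N, hN1, hep, rfl, h10, fun t ht => (h11 t ht).trans (by linarith), ?_, ?_, ?_⟩
  · intro t ht
    have h12 : E t ^ 2 ≤ (2 * em E n₀) ^ 2 := pow_le_pow_left₀ (hn t) (h11 t ht) 2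
    have h13 : em E N ^ 2 * n₀ ≤ em E N ^ 2 * n := mul_le_mul_of_nonneg_left hnn (sq_nonneg _)
    nlinarith
  · intro m hNm
    have hmp : (0 : ℝ) < m := by exact_mod_cast (by omega : 0 < m)
    have h12 := h6 m (h3.trans hNm)
    have h13 : em E m ≤ em E N * Real.sqrt ((m : ℝ) / N) := by
      have h14 : em E m ^ 2 ≤ (em E N * Real.sqrt ((m : ℝ) / N)) ^ 2 := by
        rw [mul_pow, Real.sq_sqrt (by positivity), ← mul_div_assoc, le_div_iff₀ hNp]
        exact h12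
      exact le_of_sq_le_sq h14 (by positivity)
    have h15 := le_two_em h0 hn hs m (by omega)
    linarith
  · intro hN
    exact pigeon hn hN hep (fun m hm' => h6 m (h3.trans hm')) h10

/-- LEAF SEQ with the power bound of the page. -/
theorem seq69' {E : ℕ → ℝ} (h0 : E 0 = 0) (hn : ∀ n, 0 ≤ E n)
    (hs : ∀ a b, E (a + b) ≤ E a + E b) {C κ : ℝ} (hκ : κ < 1 / 2)
    (hC : ∀ n : ℕ, E n ≤ C * (n : ℝ) ^ κ)
    {n m₀ : ℕ} (hm : m₀ ≤ n) (hpos : 0 < E m₀) :
    ∃ N : ℕ, ∃ e : ℝ, 1 ≤ N ∧ 0 < e ∧ e = (∑ t ∈ Icc 1 N, E t) / N ∧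
      (∀ t ≤ N, E t ≤ 2 * e) ∧ (∀ t ≤ n, E t ≤ 2 * e) ∧
      (∀ t ≤ n, (N : ℝ) * E t ^ 2 ≤ n * (2 * e) ^ 2) ∧
      (∀ m, N ≤ m → E m ≤ 2 * e * Real.sqrt ((m : ℝ) / N)) ∧
      (1000 ≤ N → ∃ L ≤ 2 * N, (N : ℝ) / 200 ≤
        (((Icc 1 N).filter (fun t : ℕ => (N : ℝ) / 1000 ≤ t ∧ t ≤ L ∧
          (N : ℝ) / 1000 ≤ ((L - t : ℕ) : ℝ) ∧ L - t ≤ N ∧
          e / 20 ≤ E t + E (L - t) - E L)).card : ℝ)) := by
  refine seq69 h0 hn hs ?_ hm hpos
  intro ε hε
  -- `C x^κ ≤ ε √x` for large `x`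
  have ht : Filter.Tendsto (fun n : ℕ => |C| * ((n : ℝ) ^ (-(1 / 2 - κ)))) Filter.atTop (nhds 0) := by
    have h1 := (tendsto_rpow_neg_atTop (by linarith : 0 < 1 / 2 - κ)).comp
      (tendsto_natCast_atTop_atTop (R := ℝ))
    have h2 := h1.const_mul |C|
    simpa using h2
  have hev := ht.eventually (gt_mem_nhds hε)
  rw [Filter.eventually_atTop] at hev
  obtain ⟨n₁, hn₁⟩ := hev
  refine ⟨∑ t ∈ range (n₁ + 1), E t, fun n => ?_⟩
  have hK : 0 ≤ ∑ t ∈ range (n₁ + 1), E t := Finset.sum_nonneg fun i _ => hn i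
  rcases le_or_gt n n₁ with h | h
  · have h1 : E n ≤ ∑ t ∈ range (n₁ + 1), E t :=
      Finset.single_le_sum (fun i _ => hn i) (Finset.mem_range.mpr (by omega))
    have h2 : 0 ≤ ε * Real.sqrt n := by positivity
    linarith
  · have hnp : (0 : ℝ) < n := by exact_mod_cast (by omega : 0 < n)
    have h1 := hn₁ n h.le
    have h2 : E n ≤ ε * Real.sqrt n := by
      refine (hC n).trans ?_
      have h3 : (n : ℝ) ^ κ = (n : ℝ) ^ (-(1 / 2 - κ)) * Real.sqrt n := by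
        rw [Real.sqrt_eq_rpow, ← Real.rpow_add hnp]
        congr 1
        ring
      rw [h3, ← mul_assoc]
      refine mul_le_mul_of_nonneg_right ?_ (Real.sqrt_nonneg _)
      have h4 : C * (n : ℝ) ^ (-(1 / 2 - κ)) ≤ |C| * (n : ℝ) ^ (-(1 / 2 - κ)) :=
        mul_le_mul_of_nonneg_right (le_abs_self C) (by positivity)
      exact h4.trans h1.le
    linarith

end Pool.Agent.W_7d29a1_SP
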