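import Pool.Agent.W_7d29a1_SP.DefsSP
import Pool.Agent.W_7d29a1_R34.Sets93
import Pool.Agent.W_7d29a1_R34.EgoG81

/-!
Superpolylogarithmic variance: from the good points to almost every tilt (helper78).
-/

namespace Pool.Agent.W_7d29a1_SP

open MeasureTheory ProbabilityTheory Filter Topology Pool.Agent.W_MP_7d29a1_pr
  Pool.Agent.W_7d29a1_h46 Pool.Agent.W_7d29a1_h46u Pool.Agent.W_7d29a1_D2.B35
  Pool.Agent.W_7d29a1_Q29 Pool.Agent.W_7d29a1_R34

variable {ρ : Measure ℝ} [IsProbabilityMeasure ρ] {β : ℝ}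

/-- The tilts with uniform data. -/
def Bs78 (ρ : Measure ℝ) (β : ℝ) (cs : ℕ → ℝ) (j i : ℕ) : Set (Vec 2) :=
  {h | ‖h‖ ≤ j} ∩ {h | lam ρ β h + 1 / ((j : ℝ) + 1) ≤
      Real.log (Phi h) + Real.log (∫ t, Real.exp (β * t) ∂ρ)} ∩
    {h | ∀ r : ℝ, 0 < r → r ≤ 1 / ((j : ℝ) + 1) → ∀ e : Fin 2,
      lam ρ β (h + r • ej e) + lam ρ β (h - r • ej e) - 2 * lam ρ β h ≤ ((j : ℝ) + 1) * r ^ 2} ∩
    {h | ∀ n : ℕ, En ρ β h n ≤ j * (n : ℝ) ^ (49 / 100 : ℝ)} ∩
    {h | ∀ n : ℕ, i ≤ n → Va ρ β h n ≤ Real.exp (cs j * Real.sqrt (Real.log n))}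

lemma cont_lam78 (hρ : EM ρ) (β : ℝ) : Continuous fun h : Vec 2 => lam ρ β h :=
  (lam_convex (d := 2) (by norm_num) hρ β).locallyLipschitz.continuous

lemma cont_A78 (hρ : EM ρ) (β : ℝ) (n : ℕ) : Continuous fun h : Vec 2 => A ρ β h n := by
  refine (LipschitzWith.of_dist_le_mul (K := (n : NNReal)) fun x y => ?_).continuous
  rw [Real.dist_eq, dist_eq_norm]
  have := A_lip56 (d := 2) (by norm_num) hρ β n x y
  rw [one_mul] at this
  simpa using this

lemma closed78 (hρ : EM ρ) (cs : ℕ → ℝ) (j i : ℕ) : IsClosed (Bs78 ρ β cs j i) := by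
  have hl := cont_lam78 hρ β
  have hP := contPhi81 (d := 2) (by norm_num)
  refine (((?_ : IsClosed _).inter ?_).inter ?_ |>.inter ?_).inter ?_
  · exact isClosed_le continuous_norm continuous_const
  · exact isClosed_le (hl.add continuous_const)
      ((hP.2.log fun h => (hP.1 h).ne').add continuous_const)
  · simp only [Set.setOf_forall]
    refine isClosed_iInter fun r => isClosed_iInter fun _ => isClosed_iInter fun _ =>
      isClosed_iInter fun e => isClosed_le ?_ continuous_const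
    exact ((hl.comp (continuous_id.add continuous_const)).add
      (hl.comp (continuous_id.sub continuous_const))).sub (hl.const_mul 2)
  · simp only [Set.setOf_forall]
    refine isClosed_iInter fun n => isClosed_le ?_ continuous_const
    unfold En
    exact (hl.const_mul (n : ℝ)).sub (cont_A78 hρ β n)
  · simp only [Set.setOf_forall]
    exact isClosed_iInter fun n => isClosed_iInter fun _ =>
      isClosed_le (cont65 (by norm_num) hρ β n) continuous_const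

lemma norm_ej78 (e : Fin 2) : ‖(ej e : Vec 2)‖ = 1 := by
  unfold ej
  simp

/-- The variances are bounded on a ball. -/
lemma bound78 (hρ : EM ρ) (β : ℝ) (j i : ℕ) : ∃ Q : ℝ, 1 ≤ Q ∧ ∀ h : Vec 2, ‖h‖ ≤ j →
    ∀ t : ℕ, t < i → Va ρ β h t ≤ Q := by
  have h1 : ∀ t : ℕ, ∃ C : ℝ, ∀ h ∈ Metric.closedBall (0 : Vec 2) j, ‖Va ρ β h t‖ ≤ C := fun t =>
    (isCompact_closedBall (0 : Vec 2) (j : ℝ)).exists_bound_of_continuousOn
      (cont65 (by norm_num) hρ β t).continuousOn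
  choose C hC using h1
  refine ⟨1 + ∑ t ∈ Finset.range i, |C t|, ?_, fun h hh t ht => ?_⟩
  · have : 0 ≤ ∑ t ∈ Finset.range i, |C t| := Finset.sum_nonneg fun _ _ => abs_nonneg _
    linarith
  · have h2 := hC t h (by rwa [mem_closedBall_zero_iff])
    have h3 := Finset.single_le_sum (f := fun t => |C t|) (fun _ _ => abs_nonneg _)
      (Finset.mem_range.2 ht)
    have h4 := le_abs_self (Va ρ β h t)
    rw [Real.norm_eq_abs] at h2
    have h5 := le_abs_self (C t)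
    linarith

/-- AEG. -/
theorem aeg78 (hρ : EM ρ) : AegP ρ β := by
  intro hP hR hCu
  have hex : ∀ j : ℕ, ∃ c : ℝ, 0 < c ∧ ∀ (h : Vec 2) (δ Q R : ℝ), 0 < δ →
      ¬ Pt ρ β h (1 / ((j : ℝ) + 1)) ((j : ℝ) + 1) δ Q c R := fun j =>
    hP _ _ (by positivity) (by positivity)
  choose cs hcs hcP using hex
  have hd : ∀ᵐ h : Vec 2, ∀ j i : ℕ, h ∈ Bs78 ρ β cs j i → ∃ n : ℕ, ∀ v : Vec 2, v ≠ 0 →
      ‖v‖ ≤ 1 / ((n : ℝ) + 1) → ∃ y ∈ Bs78 ρ β cs j i, ‖y - h - v‖ ≤ 1 / 9 * ‖v‖ := by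
    rw [ae_all_iff]
    intro j
    rw [ae_all_iff]
    intro i
    exact aeDens93 (volume : Measure (Vec 2)) _ (closed78 hρ cs j i).measurableSet
      (ε := 1 / 9) (by norm_num)
  filter_upwards [hd, hR, hCu] with h h1 h2 h3 hV
  obtain ⟨R, hR⟩ := h2 hV
  obtain ⟨M, δ, hδ, hcu⟩ := h3
  by_contra hc
  push Not at hc
  have hg : 0 < Real.log (Phi h) + Real.log (∫ t, Real.exp (β * t) ∂ρ) - lam ρ β h := by
    have h4 : lam ρ β h < Real.log (Phi h) + Real.log (∫ t, Real.exp (β * t) ∂ρ) := hV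
    linarith
  obtain ⟨j1, hj1⟩ := exists_nat_one_div_lt hg
  obtain ⟨j2, hj2⟩ := exists_nat_one_div_lt hδ
  obtain ⟨j3, hj3⟩ := exists_nat_ge (max ‖h‖ (max M R))
  set j : ℕ := max (max j1 j2) j3 with hj
  have hjj1 : (j1 : ℝ) ≤ j := by exact_mod_cast (le_max_left j1 j2).trans (le_max_left _ j3)
  have hjj2 : (j2 : ℝ) ≤ j := by exact_mod_cast (le_max_right j1 j2).trans (le_max_left _ j3)
  have hjj3 : (j3 : ℝ) ≤ j := by exact_mod_cast le_max_right _ j3
  have hjh : ‖h‖ ≤ j := ((le_max_left _ _).trans hj3).trans hjj3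
  have hjM : M ≤ j := (((le_max_left _ _).trans (le_max_right _ _)).trans hj3).trans hjj3
  have hjR : R ≤ j := (((le_max_right _ _).trans (le_max_right _ _)).trans hj3).trans hjj3
  have hev := hc (cs j) (hcs j)
  obtain ⟨i, hi⟩ := eventually_atTop.1 hev
  have hB : h ∈ Bs78 ρ β cs j i := by
    refine ⟨⟨⟨⟨hjh, ?_⟩, ?_⟩, ?_⟩, ?_⟩
    · have h5 : 1 / ((j : ℝ) + 1) ≤ 1 / ((j1 : ℝ) + 1) :=
        one_div_le_one_div_of_le (by positivity) (by linarith)
      show lam ρ β h + 1 / ((j : ℝ) + 1) ≤ _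
      linarith
    · intro r hr hr1 e
      have h5 : 1 / ((j : ℝ) + 1) ≤ 1 / ((j2 : ℝ) + 1) :=
        one_div_le_one_div_of_le (by positivity) (by linarith)
      refine (hcu r hr (hr1.trans (h5.trans hj2.le)) e).trans ?_
      exact mul_le_mul_of_nonneg_right (by linarith) (sq_nonneg r)
    · intro n
      exact (hR n).trans (mul_le_mul_of_nonneg_right hjR (by positivity))
    · intro n hn
      exact (hi n hn).le
  obtain ⟨n, hn⟩ := h1 j i hB
  obtain ⟨Q, hQ, hQb⟩ := bound78 (ρ := ρ) hρ β j i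
  have hvar : ∀ y ∈ Bs78 ρ β cs j i, ∀ t : ℕ,
      Va ρ β y t ≤ Q * Real.exp (cs j * Real.sqrt (Real.log t)) := by
    intro y hy t
    obtain ⟨⟨⟨⟨hy1, -⟩, -⟩, -⟩, hy2⟩ := hy
    have h5 : 1 ≤ Real.exp (cs j * Real.sqrt (Real.log t)) :=
      Real.one_le_exp (mul_nonneg (hcs j).le (Real.sqrt_nonneg _))
    rcases lt_or_ge t i with ht | ht
    · have h6 := hQb y hy1 t ht
      nlinarith
    · have h6 := hy2 t ht
      nlinarith
  refine hcP j h (min (1 / ((j : ℝ) + 1)) (1 / ((n : ℝ) + 1))) Q j (by positivity) ?_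
  have hB' := hB
  obtain ⟨⟨⟨⟨-, hb1⟩, hb2⟩, hb3⟩, -⟩ := hB'
  refine ⟨hb1, fun r hr hr1 e => hb2 r hr (hr1.trans (min_le_left _ _)) e, hvar h hB, ?_, hb3⟩
  intro t r hr hr1 e s hs
  have hs1 : |s| = 1 := by
    rcases hs with rfl | rfl <;> simp
  have hnv : ‖(s * r) • (ej e : Vec 2)‖ = r := by
    rw [norm_smul, norm_ej78, mul_one, Real.norm_eq_abs, abs_mul, hs1, one_mul, abs_of_pos hr]
  have hv0 : (s * r) • (ej e : Vec 2) ≠ 0 := by
    intro h0
    rw [h0, norm_zero] at hnv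
    linarith
  obtain ⟨y, hy, hyn⟩ := hn _ hv0 (by rw [hnv]; exact hr1.trans (min_le_right _ _))
  refine ⟨y, ?_, hvar y hy t⟩
  rw [hnv] at hyn
  linarith

end Pool.Agent.W_7d29a1_SP
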