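import Pool.Agent.W_7d29a1_SP.DefsSP2

/-!
ITER: doubling at a superpolynomially slow scale contradicts a subpolynomial bound (helper83).
-/

namespace Pool.Agent.W_7d29a1_SP

open Filter Topology

/-- ITER. -/
theorem iter83 : IterP := by
  intro Ca Cb hCa hCb
  have hCb0 : 0 < Cb := by linarith
  have hCa0 : 0 < Ca := by linarith
  refine ⟨1 / (8 * Cb), by positivity, ?_, ?_⟩
  · rw [div_le_one (by positivity)]; linarith
  intro Q f n₀ hQ hf1 hf2 hstep
  set c : ℝ := 1 / (8 * Cb) with hc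
  have hc0 : 0 < c := by rw [hc]; positivity
  have hQ0 : 0 < Q := by linarith
  have hcC : Cb * c = 1 / 8 := by rw [hc]; field_simp
  have hc8 : c ≤ 1 / 8 := by
    have : c ≤ Cb * c := by nlinarith
    linarith
  have hlim : Tendsto (fun n : ℕ => Real.sqrt (Real.log n)) atTop atTop :=
    Real.tendsto_sqrt_atTop.comp (Real.tendsto_log_atTop.comp tendsto_natCast_atTop_atTop)
  obtain ⟨n₁, hn₁⟩ := ((hlim.eventually_ge_atTop (8 * (Real.log Ca + Cb * Real.log Q))).and
    ((eventually_ge_atTop n₀).and (eventually_ge_atTop 128))).exists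
  obtain ⟨hn₁L, hn₁0, hn₁128⟩ := hn₁
  have key : ∀ n : ℕ, n₁ ≤ n → ∃ T : ℕ, n ≤ T ∧ 2 * f n ≤ f T ∧
      Real.sqrt (Real.log T) ≤ Real.sqrt (Real.log n) + 1 := by
    intro n hn
    obtain ⟨T, hnT, h2, hT⟩ := hstep n (hn₁0.trans hn)
    refine ⟨T, hnT, h2, ?_⟩
    have hnR : (128 : ℝ) ≤ n := by exact_mod_cast hn₁128.trans hn
    have hnTR : (n : ℝ) ≤ T := by exact_mod_cast hnT
    have hn0 : (0 : ℝ) < n := by linarith
    have hT0 : (0 : ℝ) < T := by linarith
    have hfT1 : 1 ≤ f T := hf1 T ((hn₁0.trans hn).trans hnT)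
    have hfT0 : 0 < f T := by linarith
    have hfT2 : Real.log (f T) ≤ 5 * c * Real.sqrt (Real.log T) := by
      rw [Real.log_le_iff_le_exp hfT0]
      exact hf2 T ((hn₁0.trans hn).trans hnT)
    have hlogT : 0 ≤ Real.log T := Real.log_nonneg (by linarith)
    have hlogn : 0 ≤ Real.log n := Real.log_nonneg (by linarith)
    set y : ℝ := Real.sqrt (Real.log T) with hy
    set z : ℝ := Real.sqrt (Real.log n) with hz
    have hy0 : 0 ≤ y := Real.sqrt_nonneg _
    have hz0 : 0 ≤ z := Real.sqrt_nonneg _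
    have hyy : y ^ 2 = Real.log T := Real.sq_sqrt hlogT
    have hzz : z ^ 2 = Real.log n := Real.sq_sqrt hlogn
    have h128 : Real.sqrt (Real.log (128 * T)) ≤ 2 * y := by
      apply Real.sqrt_le_iff.2
      refine ⟨by positivity, ?_⟩
      rw [Real.log_mul (by norm_num) hT0.ne']
      have : Real.log 128 ≤ Real.log T := Real.log_le_log (by norm_num) (by linarith)
      nlinarith
    have hB0 : 0 < Q * Real.exp (c * Real.sqrt (Real.log (128 * T))) * f T := by positivity
    have hlog : Real.log T ≤ Real.log Ca + Real.log n + Cb *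
        (Real.log Q + c * Real.sqrt (Real.log (128 * T)) + Real.log (f T)) := by
      have h1 := Real.log_le_log hT0 hT
      rw [Real.log_mul (by positivity) (Real.rpow_pos_of_pos hB0 _).ne',
        Real.log_mul hCa0.ne' hn0.ne', Real.log_rpow hB0, Real.log_mul (by positivity) hfT0.ne',
        Real.log_mul hQ0.ne' (Real.exp_pos _).ne', Real.log_exp] at h1
      exact h1
    have hsmall : 8 * (Real.log Ca + Cb * Real.log Q) ≤ y := by
      refine hn₁L.trans (Real.sqrt_le_sqrt (Real.log_le_log ?_ ?_))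
      · exact_mod_cast (by omega : 0 < n₁)
      · exact_mod_cast hn.trans hnT
    have hmain : y ^ 2 ≤ z ^ 2 + y := by
      rw [hyy, hzz]
      have h3 : Cb * (c * Real.sqrt (Real.log (128 * T))) ≤ 1 / 8 * (2 * y) := by
        rw [← mul_assoc, hcC]
        exact mul_le_mul_of_nonneg_left h128 (by norm_num)
      have h4 : Cb * Real.log (f T) ≤ 5 / 8 * y := by
        have := mul_le_mul_of_nonneg_left hfT2 hCb0.le
        have h5 : Cb * (5 * c * y) = 5 / 8 * y := by
          have : Cb * (5 * c * y) = 5 * (Cb * c) * y := by ring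
          rw [this, hcC]; ring
        linarith
      have h6 : Cb * (Real.log Q + c * Real.sqrt (Real.log (128 * T)) + Real.log (f T)) =
          Cb * Real.log Q + Cb * (c * Real.sqrt (Real.log (128 * T))) + Cb * Real.log (f T) := by
        ring
      rw [h6] at hlog
      linarith
    by_contra hcon
    push Not at hcon
    nlinarith
  have iter : ∀ k : ℕ, ∃ n : ℕ, n₁ ≤ n ∧ (2 : ℝ) ^ k ≤ f n ∧
      Real.sqrt (Real.log n) ≤ Real.sqrt (Real.log n₁) + k := by
    intro k
    induction k with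
    | zero => exact ⟨n₁, le_rfl, by simpa using hf1 n₁ hn₁0, by simp⟩
    | succ k ih =>
      obtain ⟨n, hn, h2, hs⟩ := ih
      obtain ⟨T, hT1, hT2, hT3⟩ := key n hn
      refine ⟨T, hn.trans hT1, ?_, ?_⟩
      · rw [pow_succ]; linarith
      · push_cast; linarith
  have hl2 : 0.6931471803 < Real.log 2 := Real.log_two_gt_d9
  obtain ⟨k, hk⟩ := exists_nat_gt (5 * c * Real.sqrt (Real.log n₁) / (Real.log 2 - 5 / 8))
  have hpos : 0 < Real.log 2 - 5 / 8 := by linarith
  rw [div_lt_iff₀ hpos] at hk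
  obtain ⟨n, hn, h2, hs⟩ := iter k
  have h3 := h2.trans (hf2 n (hn₁0.trans hn))
  have h4 : (k : ℝ) * Real.log 2 ≤ 5 * c * Real.sqrt (Real.log n) := by
    have h5 := Real.log_le_log (by positivity) h3
    rw [Real.log_pow, Real.log_exp] at h5
    exact h5
  have h6 : 5 * c * Real.sqrt (Real.log n) ≤ 5 * c * (Real.sqrt (Real.log n₁) + k) :=
    mul_le_mul_of_nonneg_left hs (by positivity)
  have h7 : 5 * c * (k : ℝ) ≤ 5 / 8 * k := by
    have : (0 : ℝ) ≤ k := Nat.cast_nonneg k
    nlinarith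
  linarith

end Pool.Agent.W_7d29a1_SP
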