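import Pool.Agent.W_7d29a1_SP.DefsSP
import Pool.Agent.W_7d29a1_SP.Seq69

/-!
THEOREM G (helper15), leaf SEQ: the frozen literal `SeqP`.
-/

open Finset

namespace Pool.Agent.W_7d29a1_SP

theorem seqP69 : SeqP := by
  intro E C h0 hn hs hC n k hk hpos
  obtain ⟨N, e, h1, h2, h3, h4, h5, h6, -, h8⟩ :=
    seq69' h0 hn hs (κ := 49 / 100) (by norm_num) hC hk hpos
  refine ⟨N, e, h1, h2, h4, ?_, h5 k hk, h6 k hk, fun hN => ?_⟩
  · have hNp : (0 : ℝ) < N := by exact_mod_cast (by omega : 0 < N)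
    have hsum : ∑ t ∈ Icc 1 N, e ≤ ∑ t ∈ Icc 1 N, E t := by
      rw [Finset.sum_const, Nat.card_Icc, Nat.add_sub_cancel, nsmul_eq_mul, h3]
      apply le_of_eq
      field_simp
    obtain ⟨t, ht, hle⟩ := Finset.exists_le_of_sum_le
      ⟨1, by rw [Finset.mem_Icc]; exact ⟨le_refl _, h1⟩⟩ hsum
    exact ⟨t, (Finset.mem_Icc.mp ht).2, hle⟩
  · obtain ⟨L, -, hc⟩ := h8 hN
    refine ⟨L, _, hc, fun t ht => ?_⟩
    rw [Finset.mem_filter, Finset.mem_Icc] at ht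
    obtain ⟨⟨-, h9⟩, h10, h11, h12, h13, h14⟩ := ht
    exact ⟨h11, h10, h9, h12, h13, h14⟩

end Pool.Agent.W_7d29a1_SP
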