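import Pool.Agent.W_7d29a1_SP.Point15
import Pool.Agent.W_7d29a1_SP.Beta48
import Pool.Agent.W_7d29a1_SP.Cnt79
import Pool.Agent.W_7d29a1_SP.Amp84
import Pool.Agent.W_7d29a1_SP.Grow78
import Pool.Agent.W_7d29a1_SP.Iter83
import Pool.Agent.W_7d29a1_SP.Lk96
import Pool.Agent.W_7d29a1_SP.SeqP69
import Pool.Agent.W_7d29a1_SP.Rate74
import Pool.Agent.W_7d29a1_SP.Curv13
import Pool.Agent.W_7d29a1_SP.Luck93
import Pool.Agent.W_7d29a1_SP.Aeg78
import Pool.Agent.W_7d29a1_R34.RppF93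
import Pool.Agent.W_7d29a1_Q29.Asm72

/-!
Superpolylogarithmic variance in two transversal dimensions (helper15): assembly.
-/

namespace Pool.Agent.W_7d29a1_SP

open MeasureTheory ProbabilityTheory Filter Topology Pool.Agent.W_MP_7d29a1_pr
  Pool.Agent.W_7d29a1_h46 Pool.Agent.W_7d29a1_h46u Pool.Agent.W_7d29a1_D2.B35
  Pool.Agent.W_7d29a1_Q29 Pool.Agent.W_7d29a1_R34

variable {ρ : Measure ℝ} [IsProbabilityMeasure ρ]

/-- The main argument, for every law with the amplification. -/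
theorem pointA15 (hρ : EM ρ) (hnc : ∀ c : ℝ, ρ {c} ≠ 1) {β : ℝ} (hβ : 0 < β) (hA : AmpP 2 ρ β) :
    PointP ρ β := by
  have hLoc : LocE 2 ρ β := Csy42.loc42 (by norm_num) hρ β
  have hLuck : LuckP ρ β :=
    luck93 hρ (leak34 hρ (box34 (by norm_num) hρ β) (tail13 (by norm_num) hρ β))
  have hLk : LkP ρ β := lk96 hρ hLuck (npb98 (by norm_num) hρ hnc hβ)
  exact point15 hρ
    (step15 hρ seqP69 (grow78 (cnt79 (by norm_num) hρ β) hA) hLk hLoc)
    (beta48 hρ β seqP69 hLk) iter83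
    (gapQ72 (npf98 (by norm_num) hρ hnc hβ) hLoc (lowP85 (by norm_num) hρ β))

/-- **Theorem G**, for every law with the amplification. In dimension two, for almost every tilt of
very strong disorder there is `c > 0` such that the variance of the logarithm of the partition
function is infinitely often at least `exp (c (log n) ^ (1/2))`. -/
theorem mainGA15 (hρ : EM ρ) (hnc : ∀ c : ℝ, ρ {c} ≠ 1) {β : ℝ} (hβ : 0 < β)
    (hA : AmpP 2 ρ β) : MainG ρ β :=
  aeg78 hρ (pointA15 hρ hnc hβ hA) (Rate74.rateP74 hρ β) (curv13 hρ)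

/-- **Theorem G.** The law of the environment is the law of a convex function of a Gaussian. -/
theorem mainG15 (hρ : EM ρ) (hnc : ∀ c : ℝ, ρ {c} ≠ 1) {β : ℝ} (hβ : 0 < β) (hG : GC ρ) :
    MainG ρ β :=
  mainGA15 hρ hnc hβ (amp84 (by norm_num) hG hβ.le)

end Pool.Agent.W_7d29a1_SP
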