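import Pool.Agent.W_7d29a1_SP.DefsSP

/-!
Superpolylogarithmic variance in two transversal dimensions: the pieces of the main argument
(helper15).
-/

namespace Pool.Agent.W_7d29a1_SP

open MeasureTheory ProbabilityTheory Filter Topology Pool.Agent.W_MP_7d29a1_pr
  Pool.Agent.W_7d29a1_h46 Pool.Agent.W_7d29a1_h46u Pool.Agent.W_7d29a1_D2.B35
  Pool.Agent.W_7d29a1_Q29 Pool.Agent.W_7d29a1_R34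

/-- ITER: doubling at a superpolynomially slow scale contradicts a subpolynomial bound. -/
def IterP : Prop := ∀ Ca Cb : ℝ, 1 ≤ Ca → 1 ≤ Cb → ∃ c : ℝ, 0 < c ∧ c ≤ 1 ∧
  ∀ (Q : ℝ) (f : ℕ → ℝ) (n₀ : ℕ), 1 ≤ Q → (∀ n : ℕ, n₀ ≤ n → 1 ≤ f n) →
    (∀ n : ℕ, n₀ ≤ n → f n ≤ Real.exp (5 * c * Real.sqrt (Real.log n))) →
    (∀ n : ℕ, n₀ ≤ n → ∃ T : ℕ, n ≤ T ∧ 2 * f n ≤ f T ∧
      (T : ℝ) ≤ Ca * n * (Q * Real.exp (c * Real.sqrt (Real.log (128 * T))) * f T) ^ Cb) → False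

section Leaves

variable (d : ℕ) (ρ : Measure ℝ) (β : ℝ)

/-- GROW: amplification and counting in time. -/
def GrowP : Prop := ∀ c₀ D : ℝ, 0 < c₀ → 1 ≤ D → ∃ C : ℝ, 1 ≤ C ∧ ∀ h : Vec d,
  Loc1 ρ β h c₀ → ∀ (m T : ℕ) (s₀ s₁ q Φ : ℝ), 1 ≤ m → 0 < q → q ≤ 1 → s₀ ≤ s₁ →
    A ρ β h m ≤ s₁ → q ≤ (law d ρ).real {η | X β h η m ≤ s₀} →
    q ≤ (law d ρ).real {η | s₁ < X β h η m} → C * m * (1 / q) ^ C ≤ T →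
    (∀ k : ℕ, k ≤ T → En ρ β h k ≤ Φ ∧ Fn ρ β h k ≤ Φ) → D * (s₁ - s₀) ≤ Φ + 1

/-- The bound of the variance. -/
noncomputable def kap (Q c : ℝ) (t : ℕ) : ℝ := Q * Real.exp (c * Real.sqrt (Real.log t))

/-- LK (`d = 2`): luck at a good point. -/
def LkP : Prop := ∀ g M : ℝ, 0 < g → 0 < M → ∃ c₂ : ℝ, 0 < c₂ ∧ c₂ ≤ 1 / 2 ∧
  ∀ (h : Vec 2) (δ Q c R : ℝ), 0 < δ → 1 ≤ Q → 0 < c → c ≤ 1 → Pt ρ β h g M δ Q c R →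
    ∃ N₀ : ℕ, 1000 ≤ N₀ ∧ ∀ (N L : ℕ) (e : ℝ) (S : Finset ℕ), N₀ ≤ N → 240 ≤ e →
      (∀ t : ℕ, t ≤ N → En ρ β h t ≤ 2 * e) → (∃ t : ℕ, t ≤ N ∧ e ≤ En ρ β h t) →
      (∀ k : ℕ, k ≤ 2 * N → Fn ρ β h k ≤ e / 1280) → (N : ℝ) / 200 ≤ S.card →
      (∀ t ∈ S, t ≤ L ∧ (N : ℝ) / 1000 ≤ t ∧ t ≤ N ∧ (N : ℝ) / 1000 ≤ (L - t : ℕ) ∧ L - t ≤ N ∧
        e / 20 ≤ En ρ β h t + En ρ β h (L - t) - En ρ β h L) →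
      ∃ m : ℕ, 1 ≤ m ∧ m ≤ N ∧ c₂ / (kap Q c (2 * N) * (kap Q c (2 * N) ^ 2 + e)) ≤
        (law 2 ρ).real {η | A ρ β h m + e / 80 < X β h η m}

/-- STEP (`d = 2`): doubling of the fluctuation. -/
def StepP : Prop := ∀ g M : ℝ, 0 < g → 0 < M → ∃ Ca Cb : ℝ, 1 ≤ Ca ∧ 1 ≤ Cb ∧
  ∀ (h : Vec 2) (δ Q c R : ℝ), 0 < δ → 1 ≤ Q → 0 < c → c ≤ 1 → Pt ρ β h g M δ Q c R →
    ∃ Cs : ℝ, ∀ (n k : ℕ) (Ψ : ℝ), 1 ≤ n → k ≤ n → Cs ≤ Ψ →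
      (En ρ β h k = Ψ ∨ Fn ρ β h k = Ψ) → ∃ (T j : ℕ), n ≤ T ∧ j ≤ T ∧
        (2 * Ψ ≤ En ρ β h j ∨ 2 * Ψ ≤ Fn ρ β h j) ∧
        ∀ Φ : ℝ, (∀ i : ℕ, i ≤ T → En ρ β h i ≤ Φ ∧ Fn ρ β h i ≤ Φ) →
          (T : ℝ) ≤ Ca * n * (kap Q c (128 * T) * Φ) ^ Cb

/-- BETA (`d = 2`): the upper bound of the nonrandom fluctuation. -/
def BetaP : Prop := ∀ g M : ℝ, 0 < g → 0 < M →
  ∀ (h : Vec 2) (δ Q c R : ℝ), 0 < δ → 1 ≤ Q → 0 < c → c ≤ 1 → Pt ρ β h g M δ Q c R →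
    ∃ n₀ : ℕ, ∀ n k : ℕ, n₀ ≤ n → k ≤ n →
      En ρ β h k ≤ Real.exp (5 * c * Real.sqrt (Real.log n))

end Leaves

end Pool.Agent.W_7d29a1_SP
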